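import Pool.Agent.Q234.PL.Stm

/-!
# Project PL, job JW: the Jordan-Wigner operators
-/

set_option autoImplicit false

open scoped BigOperators Matrix
open Finset Pool.Agent.TH235.PP

namespace Pool.Agent.Q68.PL

open Pool.Agent.Q234.PL

theorem sgn_add_one (a : Fin 2) : sgn (a + 1) = -sgn a := by
  fin_cases a <;> simp [sgn]

theorem sgn_mul_self (a : Fin 2) : sgn a * sgn a = 1 := by
  fin_cases a <;> simp [sgn]

theorem sgn_conj (a : Fin 2) : (starRingEnd ℂ) (sgn a) = sgn a := by
  fin_cases a <;> simp [sgn]

section flipl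

variable {ι : Type} [DecidableEq ι]

theorem flip_flip (j : ι) (s : ι → Fin 2) : flip j (flip j s) = s := by
  funext i
  unfold Pool.Agent.Q234.PL.flip
  by_cases h : i = j
  · subst h
    simp only [Function.update_self]
    generalize s i = a
    fin_cases a <;> rfl
  · simp [Function.update_of_ne h]

theorem flip_comm (i j : ι) (s : ι → Fin 2) : flip i (flip j s) = flip j (flip i s) := by
  by_cases h : i = j
  · subst h
    rfl
  · unfold Pool.Agent.Q234.PL.flip
    rw [Function.update_of_ne h, Function.update_of_ne (Ne.symm h), Function.update_comm h]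

theorem flip_self (j : ι) (s : ι → Fin 2) : flip j s j = s j + 1 := by
  unfold Pool.Agent.Q234.PL.flip
  rw [Function.update_self]

theorem flip_ne {i j : ι} (h : i ≠ j) (s : ι → Fin 2) : flip j s i = s i := by
  unfold Pool.Agent.Q234.PL.flip
  rw [Function.update_of_ne h]

theorem eq_flip_iff (j : ι) (s t : ι → Fin 2) : t = flip j s ↔ s = flip j t := by
  constructor
  · rintro rfl
    rw [flip_flip]
  · rintro rfl
    rw [flip_flip]

end flipl

variable {N : ℕ}

/-- the string -/
def sg (j : Fin (N + 1)) (s : Cf N) : ℂ := ∏ i ∈ univ.filter (· < j), sgn (s i)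

/-- the parity function -/
def par (s : Cf N) : ℂ := ∏ j, sgn (s j)

theorem sg_flip (i j : Fin (N + 1)) (s : Cf N) :
    sg j (flip i s) = if i < j then -sg j s else sg j s := by
  unfold sg
  split_ifs with h
  · have hm : i ∈ univ.filter (· < j) := by simp [h]
    rw [← Finset.mul_prod_erase _ _ hm, ← Finset.mul_prod_erase _ (fun i => sgn (s i)) hm, flip_self,
      sgn_add_one, neg_mul]
    congr 2
    refine Finset.prod_congr rfl fun k hk => ?_
    rw [flip_ne (Finset.ne_of_mem_erase hk)]
  · refine Finset.prod_congr rfl fun k hk => ?_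
    rw [flip_ne]
    rintro rfl
    exact h (by simpa using hk)

theorem sg_mul_self (j : Fin (N + 1)) (s : Cf N) : sg j s * sg j s = 1 := by
  unfold sg
  rw [← Finset.prod_mul_distrib]
  exact Finset.prod_eq_one fun i _ => sgn_mul_self _

theorem sg_conj (j : Fin (N + 1)) (s : Cf N) : (starRingEnd ℂ) (sg j s) = sg j s := by
  unfold sg
  rw [map_prod]
  exact Finset.prod_congr rfl fun i _ => sgn_conj _

theorem par_flip (i : Fin (N + 1)) (s : Cf N) : par (flip i s) = -par s := by
  unfold par
  rw [← Finset.mul_prod_erase _ _ (Finset.mem_univ i),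
    ← Finset.mul_prod_erase _ (fun i => sgn (s i)) (Finset.mem_univ i), flip_self, sgn_add_one,
    neg_mul]
  congr 2
  refine Finset.prod_congr rfl fun k hk => ?_
  rw [flip_ne (Finset.ne_of_mem_erase hk)]

theorem par_mul_self (s : Cf N) : par s * par s = 1 := by
  unfold par
  rw [← Finset.prod_mul_distrib]
  exact Finset.prod_eq_one fun i _ => sgn_mul_self _

theorem par_conj (s : Cf N) : (starRingEnd ℂ) (par s) = par s := by
  unfold par
  rw [map_prod]
  exact Finset.prod_congr rfl fun i _ => sgn_conj _

theorem Xo_diag (j : Fin (N + 1)) (f : Cf N → ℂ) :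
    Xo j * Matrix.diagonal f = Matrix.diagonal (fun s => f (flip j s)) * Xo j := by
  ext s t
  rw [Matrix.mul_diagonal, Matrix.diagonal_mul]
  unfold Xo
  split_ifs with h
  · rw [h, one_mul, mul_one]
  · rw [zero_mul, mul_zero]

theorem Xo_mul_apply (i j : Fin (N + 1)) (s t : Cf N) :
    (Xo i * Xo j) s t = if t = flip j (flip i s) then 1 else 0 := by
  rw [Matrix.mul_apply, Finset.sum_eq_single (flip i s)]
  · unfold Xo
    rw [if_pos rfl, one_mul]
  · intro u _ hu
    unfold Xo
    rw [if_neg hu, zero_mul]
  · intro h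
    exact absurd (Finset.mem_univ _) h

theorem Xo_sq (j : Fin (N + 1)) : Xo j * Xo j = (1 : Matrix (Cf N) (Cf N) ℂ) := by
  ext s t
  rw [Xo_mul_apply, flip_flip, Matrix.one_apply]
  simp [eq_comm]

theorem Xo_comm (i j : Fin (N + 1)) : Xo i * Xo j = (Xo j * Xo i : Matrix (Cf N) (Cf N) ℂ) := by
  ext s t
  rw [Xo_mul_apply, Xo_mul_apply, flip_comm]

theorem Xo_herm (j : Fin (N + 1)) : (Xo j : Matrix (Cf N) (Cf N) ℂ)ᴴ = Xo j := by
  ext s t
  rw [Matrix.conjTranspose_apply]
  unfold Xo
  by_cases h : s = flip j t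
  · rw [if_pos h, if_pos ((eq_flip_iff j t s).1 h), star_one]
  · rw [if_neg h, if_neg (fun h' => h ((eq_flip_iff j s t).1 h')), star_zero]

/-- the operator `f X_j` -/
def DX (f : Cf N → ℂ) (j : Fin (N + 1)) : Matrix (Cf N) (Cf N) ℂ := Matrix.diagonal f * Xo j

theorem DX_mul (f g : Cf N → ℂ) (i j : Fin (N + 1)) :
    DX f i * DX g j = Matrix.diagonal (fun s => f s * g (flip i s)) * (Xo i * Xo j) := by
  unfold DX
  rw [Matrix.mul_assoc, ← Matrix.mul_assoc (Xo i), Xo_diag, Matrix.mul_assoc, ← Matrix.mul_assoc,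
    Matrix.diagonal_mul_diagonal]

theorem DX_mul_diag (f g : Cf N → ℂ) (i : Fin (N + 1)) :
    DX f i * Matrix.diagonal g = DX (fun s => f s * g (flip i s)) i := by
  unfold DX
  rw [Matrix.mul_assoc, Xo_diag, ← Matrix.mul_assoc, Matrix.diagonal_mul_diagonal]

theorem diag_mul_DX (f g : Cf N → ℂ) (i : Fin (N + 1)) :
    Matrix.diagonal g * DX f i = DX (fun s => g s * f s) i := by
  unfold DX
  rw [← Matrix.mul_assoc, Matrix.diagonal_mul_diagonal]

theorem DX_smul (c : ℂ) (f : Cf N → ℂ) (i : Fin (N + 1)) :
    c • DX f i = DX (fun s => c * f s) i := by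
  unfold DX
  rw [← Matrix.smul_mul]
  congr 1
  ext s t
  by_cases h : s = t
  · subst h
    simp
  · simp [Matrix.diagonal_apply_ne _ h]

theorem DX_neg (f : Cf N → ℂ) (i : Fin (N + 1)) : -DX f i = DX (fun s => -f s) i := by
  have := DX_smul (-1) f i
  rw [neg_one_smul] at this
  rw [this]
  congr 1
  funext s
  ring

theorem DX_herm (f : Cf N → ℂ) (i : Fin (N + 1)) :
    (DX f i)ᴴ = DX (fun s => (starRingEnd ℂ) (f (flip i s))) i := by
  unfold DX
  rw [Matrix.conjTranspose_mul, Xo_herm, Matrix.diagonal_conjTranspose, Xo_diag]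
  rfl

theorem Ao_eq (j : Fin (N + 1)) : Ao j = DX (sg j) j := rfl

/-- the function of `B_j` -/
noncomputable def fb (j : Fin (N + 1)) (s : Cf N) : ℂ := -(Complex.I * (sg j s * sgn (s j)))

theorem Bo_eq (j : Fin (N + 1)) : Bo j = DX (fb j) j := by
  unfold Bo
  rw [Ao_eq]
  unfold Zo
  rw [DX_mul_diag, DX_smul]
  congr 1
  funext s
  rw [flip_self, sgn_add_one]
  unfold fb
  ring

/-- the function and the position of the Majorana operators -/
noncomputable def ff : Fin (N + 1) ⊕ Fin (N + 1) → Cf N → ℂ
  | Sum.inl j => sg j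
  | Sum.inr j => fb j

/-- the position -/
def pos : Fin (N + 1) ⊕ Fin (N + 1) → Fin (N + 1)
  | Sum.inl j => j
  | Sum.inr j => j

theorem elim_eq (a : Fin (N + 1) ⊕ Fin (N + 1)) :
    Sum.elim (Ao (N := N)) (Bo (N := N)) a = DX (ff a) (pos a) := by
  cases a with
  | inl j => exact Ao_eq j
  | inr j => exact Bo_eq j

theorem fb_flip (i j : Fin (N + 1)) (s : Cf N) :
    fb j (flip i s) = if i ≤ j then -fb j s else fb j s := by
  unfold fb
  rw [sg_flip]
  rcases lt_trichotomy i j with h | h | h
  · rw [if_pos h, if_pos h.le, flip_ne h.ne']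
    ring
  · subst h
    rw [if_neg (lt_irrefl _), if_pos le_rfl, flip_self, sgn_add_one]
    ring
  · rw [if_neg h.asymm, if_neg (not_le.2 h), flip_ne h.ne]

theorem jw_main : JW := by
  intro N
  refine ⟨⟨fun a => ?_, fun a => ?_, fun a b hab => ?_⟩, ?_, ?_, fun j => ?_, fun j => ?_⟩
  · rw [elim_eq, Matrix.IsHermitian, DX_herm]
    congr 1
    funext s
    cases a with
    | inl j =>
      show (starRingEnd ℂ) (sg j (flip j s)) = sg j s
      rw [sg_flip, if_neg (lt_irrefl _), sg_conj]
    | inr j =>
      show (starRingEnd ℂ) (fb j (flip j s)) = fb j s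
      rw [fb_flip, if_pos le_rfl]
      unfold fb
      rw [neg_neg, map_mul, map_mul, sg_conj, sgn_conj, Complex.conj_I]
      ring
  · rw [elim_eq, DX_mul, Xo_sq, Matrix.mul_one, ← Matrix.diagonal_one]
    congr 1
    funext s
    cases a with
    | inl j =>
      show sg j s * sg j (flip j s) = 1
      rw [sg_flip, if_neg (lt_irrefl _), sg_mul_self]
    | inr j =>
      show fb j s * fb j (flip j s) = 1
      rw [fb_flip, if_pos le_rfl]
      unfold fb
      calc -(Complex.I * (sg j s * sgn (s j))) * -(-(Complex.I * (sg j s * sgn (s j)))) =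
          -(Complex.I * Complex.I) * (sg j s * sg j s) * (sgn (s j) * sgn (s j)) := by ring
        _ = 1 := by
          rw [Complex.I_mul_I, sg_mul_self, sgn_mul_self]
          ring
  · rw [elim_eq, elim_eq, DX_mul, DX_mul, Xo_comm (pos b) (pos a), ← Matrix.neg_mul]
    congr 1
    rw [Matrix.diagonal_neg]
    congr 1
    funext s
    show ff a s * ff b (flip (pos a) s) = -(ff b s * ff a (flip (pos b) s))
    cases a with
    | inl i =>
      cases b with
      | inl j =>
        have hij : i ≠ j := fun h => hab (by rw [h])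
        show sg i s * sg j (flip i s) = -(sg j s * sg i (flip j s))
        rw [sg_flip, sg_flip]
        rcases lt_or_gt_of_ne hij with h | h
        · rw [if_pos h, if_neg h.asymm]
          ring
        · rw [if_neg h.asymm, if_pos h]
          ring
      | inr j =>
        show sg i s * fb j (flip i s) = -(fb j s * sg i (flip j s))
        rw [sg_flip, fb_flip]
        rcases lt_or_ge j i with h | h
        · rw [if_neg (not_le.2 h), if_pos h]
          ring
        · rw [if_pos h, if_neg (not_lt.2 h)]
          ring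
    | inr i =>
      cases b with
      | inl j =>
        show fb i s * sg j (flip i s) = -(sg j s * fb i (flip j s))
        rw [sg_flip, fb_flip]
        rcases lt_or_ge i j with h | h
        · rw [if_pos h, if_neg (not_le.2 h)]
          ring
        · rw [if_neg (not_lt.2 h), if_pos h]
          ring
      | inr j =>
        have hij : i ≠ j := fun h => hab (by rw [h])
        show fb i s * fb j (flip i s) = -(fb j s * fb i (flip j s))
        rw [fb_flip, fb_flip]
        rcases lt_or_gt_of_ne hij with h | h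
        · rw [if_pos h.le, if_neg (not_le.2 h)]
          ring
        · rw [if_neg (not_le.2 h), if_pos h.le]
          ring
  · show (Matrix.diagonal (par (N := N)))ᴴ = Matrix.diagonal par
    rw [Matrix.diagonal_conjTranspose]
    congr 1
    funext s
    exact par_conj s
  · show Matrix.diagonal (par (N := N)) * Matrix.diagonal par = 1
    rw [Matrix.diagonal_mul_diagonal, ← Matrix.diagonal_one]
    congr 1
    funext s
    exact par_mul_self s
  · show Matrix.diagonal (par (N := N)) * Ao j = -(Ao j * Matrix.diagonal par)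
    rw [Ao_eq, diag_mul_DX, DX_mul_diag, DX_neg]
    congr 1
    funext s
    rw [par_flip]
    ring
  · show Matrix.diagonal (par (N := N)) * Bo j = -(Bo j * Matrix.diagonal par)
    rw [Bo_eq, diag_mul_DX, DX_mul_diag, DX_neg]
    congr 1
    funext s
    rw [par_flip]
    ring

end Pool.Agent.Q68.PL

namespace Pool.Agent.Q68.PL.JWjob

theorem main : Pool.Agent.Q234.PL.JW := Pool.Agent.Q68.PL.jw_main

end Pool.Agent.Q68.PL.JWjob
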