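import Pool.Agent.Q68.PL.RI

/-!
# Project PL, job CO: comparison of the two vacuum energies
-/

set_option autoImplicit false

open scoped BigOperators Matrix
open Finset Pool.Agent.TH235.PP

namespace Pool.Agent.Q68.PL

open Pool.Agent.Q234.PL

section ipl

variable {n : Type} [Fintype n]

theorem ip_add_right (φ a b : n → ℂ) : ip φ (a + b) = ip φ a + ip φ b := by
  unfold ip
  rw [← Finset.sum_add_distrib]
  exact Finset.sum_congr rfl fun s _ => by rw [Pi.add_apply, mul_add]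

theorem ip_smul_right (φ a : n → ℂ) (c : ℂ) : ip φ (c • a) = c * ip φ a := by
  unfold ip
  rw [Finset.mul_sum]
  exact Finset.sum_congr rfl fun s _ => by rw [Pi.smul_apply, smul_eq_mul]; ring

theorem ip_neg_right (φ a : n → ℂ) : ip φ (-a) = -ip φ a := by
  have := ip_smul_right φ a (-1)
  rwa [neg_one_smul, neg_one_mul] at this

theorem ip_sub_right (φ a b : n → ℂ) : ip φ (a - b) = ip φ a - ip φ b := by
  rw [sub_eq_add_neg, ip_add_right, ip_neg_right, ← sub_eq_add_neg]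

theorem ip_zero_right (φ : n → ℂ) : ip φ 0 = 0 := by
  have := ip_smul_right φ 0 0
  rwa [zero_smul, zero_mul] at this

theorem ip_self (φ : n → ℂ) : ip φ φ = (normSq φ : ℂ) := by
  unfold ip normSq
  rw [Complex.ofReal_sum]
  refine Finset.sum_congr rfl fun s _ => ?_
  rw [mul_comm, Complex.mul_conj, Complex.normSq_eq_norm_sq]

theorem ip_conj (a b : n → ℂ) : (starRingEnd ℂ) (ip a b) = ip b a := by
  unfold ip
  rw [map_sum]
  refine Finset.sum_congr rfl fun s _ => ?_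
  rw [map_mul, Complex.conj_conj, mul_comm]

theorem ip_add_left (φ a b : n → ℂ) : ip (a + b) φ = ip a φ + ip b φ := by
  rw [← ip_conj, ip_add_right, map_add, ip_conj, ip_conj]

theorem ip_smul_left (φ a : n → ℂ) (c : ℂ) : ip (c • a) φ = (starRingEnd ℂ) c * ip a φ := by
  rw [← ip_conj, ip_smul_right, map_mul, ip_conj]

theorem ip_sub_left (φ a b : n → ℂ) : ip (a - b) φ = ip a φ - ip b φ := by
  rw [← ip_conj, ip_sub_right, map_sub, ip_conj, ip_conj]

theorem norm_ip_le (a b : n → ℂ) : ‖ip a b‖ ^ 2 ≤ normSq a * normSq b := by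
  have h1 : ‖ip a b‖ ≤ ∑ s, ‖a s‖ * ‖b s‖ := by
    unfold ip
    refine (norm_sum_le _ _).trans (le_of_eq ?_)
    refine Finset.sum_congr rfl fun s _ => ?_
    rw [norm_mul, RCLike.norm_conj]
  calc ‖ip a b‖ ^ 2 ≤ (∑ s, ‖a s‖ * ‖b s‖) ^ 2 :=
        pow_le_pow_left₀ (norm_nonneg _) h1 2
    _ ≤ _ := Finset.sum_mul_sq_le_sq_mul_sq _ _ _

/-- the form of `A` -/
noncomputable def qr (A : Matrix n n ℂ) (φ : n → ℂ) : ℝ := (ip φ (A *ᵥ φ)).re

theorem qr_add (A B : Matrix n n ℂ) (φ : n → ℂ) : qr (A + B) φ = qr A φ + qr B φ := by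
  unfold qr
  rw [Matrix.add_mulVec, ip_add_right, Complex.add_re]

theorem qr_neg (A : Matrix n n ℂ) (φ : n → ℂ) : qr (-A) φ = -qr A φ := by
  unfold qr
  rw [Matrix.neg_mulVec, ip_neg_right, Complex.neg_re]

theorem qr_sub (A B : Matrix n n ℂ) (φ : n → ℂ) : qr (A - B) φ = qr A φ - qr B φ := by
  rw [sub_eq_add_neg, qr_add, qr_neg, ← sub_eq_add_neg]

theorem qr_smul (c : ℝ) (A : Matrix n n ℂ) (φ : n → ℂ) : qr ((c : ℂ) • A) φ = c * qr A φ := by
  unfold qr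
  rw [Matrix.smul_mulVec, ip_smul_right, Complex.re_ofReal_mul]

theorem qr_zero (φ : n → ℂ) : qr (0 : Matrix n n ℂ) φ = 0 := by
  unfold qr
  rw [Matrix.zero_mulVec, ip_zero_right, Complex.zero_re]

theorem qr_sum {ι : Type} (S : Finset ι) (A : ι → Matrix n n ℂ) (φ : n → ℂ) :
    qr (∑ i ∈ S, A i) φ = ∑ i ∈ S, qr (A i) φ := by
  classical
  induction S using Finset.induction_on with
  | empty => rw [Finset.sum_empty, Finset.sum_empty, qr_zero]
  | insert i S hi ih => rw [Finset.sum_insert hi, Finset.sum_insert hi, qr_add, ih]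

end ipl

variable {N : ℕ}

theorem XX_mulVec (i j : Fin (N + 1)) (φ : Cf N → ℂ) (s : Cf N) :
    ((Xo i * Xo j) *ᵥ φ) s = φ (flip j (flip i s)) := by
  unfold Matrix.mulVec dotProduct
  rw [Finset.sum_eq_single (Pool.Agent.Q234.PL.flip j (Pool.Agent.Q234.PL.flip i s))]
  · show (Xo i * Xo j) s _ * φ _ = _
    rw [Xo_mul_apply, if_pos rfl, one_mul]
  · intro t _ ht
    show (Xo i * Xo j) s t * φ t = 0
    rw [Xo_mul_apply, if_neg ht, zero_mul]
  · intro h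
    exact absurd (Finset.mem_univ _) h

/-- the vector of the absolute values -/
noncomputable def av (φ : Cf N → ℂ) : Cf N → ℂ := fun s => ((‖φ s‖ : ℝ) : ℂ)

theorem qr_Zo (j : Fin (N + 1)) (φ : Cf N → ℂ) : qr (Zo j) (av φ) = qr (Zo j) φ := by
  unfold qr ip
  rw [Complex.re_sum, Complex.re_sum]
  refine Finset.sum_congr rfl fun s _ => ?_
  unfold Zo
  rw [Matrix.mulVec_diagonal, Matrix.mulVec_diagonal]
  congr 1
  have h1 : (starRingEnd ℂ) (av φ s) * (sgn (s j) * av φ s) = sgn (s j) * ((‖φ s‖ ^ 2 : ℝ) : ℂ) := by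
    unfold av
    rw [Complex.conj_ofReal]
    push_cast
    ring
  have h2 : (starRingEnd ℂ) (φ s) * (sgn (s j) * φ s) = sgn (s j) * ((‖φ s‖ ^ 2 : ℝ) : ℂ) := by
    rw [← Complex.normSq_eq_norm_sq, ← Complex.mul_conj]
    ring
  rw [h1, h2]

theorem qr_XX (i j : Fin (N + 1)) (φ : Cf N → ℂ) : |qr (Xo i * Xo j) φ| ≤ qr (Xo i * Xo j) (av φ) := by
  have h1 : |qr (Xo i * Xo j) φ| ≤ ‖ip φ ((Xo i * Xo j) *ᵥ φ)‖ := Complex.abs_re_le_norm _
  refine h1.trans ?_
  unfold qr ip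
  rw [Complex.re_sum]
  refine (norm_sum_le _ _).trans (le_of_eq ?_)
  refine Finset.sum_congr rfl fun s _ => ?_
  rw [XX_mulVec, XX_mulVec, norm_mul, RCLike.norm_conj]
  unfold av
  rw [Complex.conj_ofReal, ← Complex.ofReal_mul, Complex.ofReal_re]

theorem normSq_av (φ : Cf N → ℂ) : normSq (av φ) = normSq φ := by
  unfold normSq av
  refine Finset.sum_congr rfl fun s _ => ?_
  rw [Complex.norm_real, norm_norm]

theorem Po_av {φ : Cf N → ℂ} (h : Po *ᵥ φ = φ) : Po *ᵥ av φ = av φ := by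
  funext s
  have h1 := congrFun h s
  rw [Po_eq, Matrix.mulVec_diagonal] at h1
  rw [Po_eq, Matrix.mulVec_diagonal]
  by_cases h0 : φ s = 0
  · unfold av
    rw [h0, norm_zero, Complex.ofReal_zero, mul_zero]
  · have h2 : par s = 1 := by
      have := mul_right_cancel₀ h0 (h1.trans (one_mul (φ s)).symm)
      exact this
    rw [h2, one_mul]

theorem qf_qr (hN : 1 ≤ N) (lam ε : ℝ) {φ : Cf N → ℂ} (h : Po *ᵥ φ = φ) :
    qr (qf (1 - lam • shiftM N ε)) φ = qr (H0 lam N) φ +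
      lam * ε * qr (Xo (Fin.last N) * Xo 0) φ := by
  have e1 : (Po : Matrix (Cf N) (Cf N) ℂ) * (Xo (Fin.last N) * Xo 0) =
      Xo (Fin.last N) * Xo 0 * Po := by
    have h1 := Po_XX (N := N)
    calc (Po : Matrix (Cf N) (Cf N) ℂ) * (Xo (Fin.last N) * Xo 0) =
        Po * (Xo (Fin.last N) * Xo 0) * (Po * Po) := by
          rw [(jw_main N).2.2.1, Matrix.mul_one]
      _ = Po * (Xo (Fin.last N) * Xo 0) * Po * Po := by rw [Matrix.mul_assoc _ Po Po]
      _ = _ := by rw [h1]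
  have e2 : qr (Po * (Xo (Fin.last N) * Xo 0)) φ = qr (Xo (Fin.last N) * Xo 0) φ := by
    unfold qr
    rw [e1, ← Matrix.mulVec_mulVec, h]
  rw [qf_eq hN, qr_add, qr_smul, e2]

theorem qr_H0 {lam : ℝ} (h0 : 0 ≤ lam) (φ : Cf N → ℂ) :
    qr (H0 lam N) (av φ) ≤ qr (H0 lam N) φ := by
  unfold H0
  rw [qr_sum, qr_sum]
  refine Finset.sum_le_sum fun l _ => ?_
  rw [qr_sub, qr_sub, qr_neg, qr_neg, qr_Zo]
  refine sub_le_sub_left ?_ _
  split_ifs
  · rw [qr_zero, qr_zero]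
  · rw [qr_smul, qr_smul]
    exact mul_le_mul_of_nonneg_left ((le_abs_self _).trans (qr_XX _ _ φ)) h0

theorem compare_main : Compare := by
  intro N lam E E' Ψ Ψ' hN h0 h1 hG hP hG'
  obtain ⟨g1, g2, -⟩ := hG
  obtain ⟨g1', -, g3'⟩ := hG'
  have hE : qr (qf (1 - lam • shiftM N 1)) Ψ = E := by
    unfold qr
    rw [g2, ip_smul_right, ip_self, g1]
    simp
  have h2 := g3' (av Ψ)
  rw [normSq_av, g1] at h2
  have h3 : ‖ip Ψ' (av Ψ)‖ ^ 2 ≤ 1 := by
    have := norm_ip_le Ψ' (av Ψ)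
    rwa [g1', normSq_av, g1, one_mul] at this
  have h4 : E' ≤ qr (qf (1 - lam • shiftM N (-1))) (av Ψ) := by
    have h5 : 0 ≤ 2 * (1 - lam) * (1 - ‖ip Ψ' (av Ψ)‖ ^ 2) :=
      mul_nonneg (by linarith) (sub_nonneg.2 h3)
    unfold qr
    linarith
  rw [qf_qr hN lam (-1) (Po_av hP)] at h4
  rw [qf_qr hN lam 1 hP] at hE
  have h5 := qr_H0 h0 Ψ
  have h6 := qr_XX (Fin.last N) 0 Ψ
  have h7 := (abs_le.1 h6).1
  have h8 : 0 ≤ lam * (qr (Xo (Fin.last N) * Xo 0) Ψ + qr (Xo (Fin.last N) * Xo 0) (av Ψ)) :=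
    mul_nonneg h0 (by linarith)
  linarith

end Pool.Agent.Q68.PL

namespace Pool.Agent.Q68.PL.COjob

theorem main (_ : Pool.Agent.Q234.PL.JW) (_ : Pool.Agent.Q234.PL.RingId) :
    Pool.Agent.Q234.PL.Compare := Pool.Agent.Q68.PL.compare_main

end Pool.Agent.Q68.PL.COjob
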