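import Pool.Agent.Q68.PL.JW

/-!
# Project PL, job RI: the ring Hamiltonian as a quadratic form
-/

set_option autoImplicit false

open scoped BigOperators Matrix
open Finset Pool.Agent.TH235.PP

namespace Pool.Agent.Q68.PL

open Pool.Agent.Q234.PL

variable {N : ℕ}

theorem sg_succ {l : Fin (N + 1)} (hl : l ≠ Fin.last N) (s : Cf N) :
    sg (l + 1) s = sg l s * sgn (s l) := by
  have hlt : l < Fin.last N := lt_of_le_of_ne (Fin.le_last l) hl
  have hv : ((l + 1 : Fin (N + 1)) : ℕ) = l + 1 := Fin.val_add_one_of_lt hlt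
  have hset : univ.filter (· < l + 1) = insert l (univ.filter (· < l)) := by
    ext i
    simp only [Finset.mem_filter, Finset.mem_univ, true_and, Finset.mem_insert]
    rw [Fin.lt_def, hv, Fin.lt_def, Fin.ext_iff]
    omega
  unfold sg
  rw [hset, Finset.prod_insert (by simp), mul_comm]

theorem par_eq (s : Cf N) : par s = sg (Fin.last N) s * sgn (s (Fin.last N)) := by
  have hset : (univ : Finset (Fin (N + 1))) =
      insert (Fin.last N) (univ.filter (· < Fin.last N)) := by
    ext i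
    simp only [Finset.mem_filter, Finset.mem_univ, true_and, Finset.mem_insert, true_iff]
    rcases eq_or_ne i (Fin.last N) with h | h
    · exact Or.inl h
    · exact Or.inr (lt_of_le_of_ne (Fin.le_last i) h)
  unfold par sg
  conv_lhs => rw [hset]
  rw [Finset.prod_insert (by simp), mul_comm]

theorem sg_zero (s : Cf N) : sg (0 : Fin (N + 1)) s = 1 := by
  unfold sg
  refine Finset.prod_eq_one fun i hi => ?_
  simp at hi

theorem AB_self (l : Fin (N + 1)) : Complex.I • (Ao l * Bo l) = -Zo l := by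
  rw [Ao_eq, Bo_eq, DX_mul, Xo_sq, Matrix.mul_one]
  unfold Zo
  ext s t
  by_cases h : s = t
  · subst h
    rw [Matrix.smul_apply, Matrix.neg_apply, Matrix.diagonal_apply_eq, Matrix.diagonal_apply_eq,
      fb_flip, if_pos le_rfl]
    unfold fb
    rw [smul_eq_mul]
    calc Complex.I * (sg l s * -(-(Complex.I * (sg l s * sgn (s l))))) =
        (Complex.I * Complex.I) * (sg l s * sg l s) * sgn (s l) := by ring
      _ = -sgn (s l) := by
        rw [Complex.I_mul_I, sg_mul_self]
        ring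
  · rw [Matrix.smul_apply, Matrix.neg_apply, Matrix.diagonal_apply_ne _ h,
      Matrix.diagonal_apply_ne _ h, smul_zero, neg_zero]

theorem AB_succ {l : Fin (N + 1)} (hl : l ≠ Fin.last N) :
    Complex.I • (Ao (l + 1) * Bo l) = Xo l * Xo (l + 1) := by
  have hlt : l < Fin.last N := lt_of_le_of_ne (Fin.le_last l) hl
  have hv : ((l + 1 : Fin (N + 1)) : ℕ) = l + 1 := Fin.val_add_one_of_lt hlt
  have hnle : ¬ l + 1 ≤ l := by
    rw [Fin.le_def, hv]
    omega
  rw [Ao_eq, Bo_eq, DX_mul, Xo_comm (l + 1) l, ← Matrix.smul_mul]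
  have : (Complex.I • Matrix.diagonal fun s => sg (l + 1) s * fb l (Pool.Agent.Q234.PL.flip (l + 1) s)) =
      (1 : Matrix (Cf N) (Cf N) ℂ) := by
    ext s t
    by_cases h : s = t
    · subst h
      rw [Matrix.smul_apply, Matrix.diagonal_apply_eq, Matrix.one_apply_eq, fb_flip, if_neg hnle,
        sg_succ hl]
      unfold fb
      rw [smul_eq_mul]
      calc Complex.I * (sg l s * sgn (s l) * -(Complex.I * (sg l s * sgn (s l)))) =
          -(Complex.I * Complex.I) * (sg l s * sg l s) * (sgn (s l) * sgn (s l)) := by ring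
        _ = 1 := by
          rw [Complex.I_mul_I, sg_mul_self, sgn_mul_self]
          ring
    · rw [Matrix.smul_apply, Matrix.diagonal_apply_ne _ h, Matrix.one_apply_ne h, smul_zero]
  rw [this, Matrix.one_mul]

theorem Po_eq : (Po : Matrix (Cf N) (Cf N) ℂ) = Matrix.diagonal par := rfl

theorem AB_last : Complex.I • (Ao (0 : Fin (N + 1)) * Bo (Fin.last N)) =
    -(Po * (Xo (Fin.last N) * Xo 0)) := by
  rw [Ao_eq, Bo_eq, DX_mul, Xo_comm 0 (Fin.last N), ← Matrix.smul_mul, ← Matrix.neg_mul]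
  congr 1
  rw [Po_eq]
  ext s t
  by_cases h : s = t
  · subst h
    rw [Matrix.smul_apply, Matrix.diagonal_apply_eq, Matrix.neg_apply, Matrix.diagonal_apply_eq,
      fb_flip, if_pos (Fin.zero_le _), sg_zero, par_eq]
    unfold fb
    rw [smul_eq_mul]
    calc Complex.I * (1 * -(-(Complex.I * (sg (Fin.last N) s * sgn (s (Fin.last N)))))) =
        (Complex.I * Complex.I) * (sg (Fin.last N) s * sgn (s (Fin.last N))) := by ring
      _ = _ := by
        rw [Complex.I_mul_I]
        ring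
  · rw [Matrix.smul_apply, Matrix.diagonal_apply_ne _ h, Matrix.neg_apply,
      Matrix.diagonal_apply_ne _ h, smul_zero, neg_zero]

/-- the Hamiltonian of the open chain -/
noncomputable def H0 (lam : ℝ) (N : ℕ) : Matrix (Cf N) (Cf N) ℂ :=
  ∑ l : Fin (N + 1), (-(Zo l) - if l = Fin.last N then 0 else (lam : ℂ) • (Xo l * Xo (l + 1)))

theorem ringH_eq (lam : ℝ) (N : ℕ) :
    ringH lam N = H0 lam N - (lam : ℂ) • (Xo (Fin.last N) * Xo 0) := by
  unfold ringH H0
  rw [eq_sub_iff_add_eq]
  have h1 : (lam : ℂ) • (Xo (Fin.last N) * Xo 0 : Matrix (Cf N) (Cf N) ℂ) =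
      ∑ l : Fin (N + 1), if l = Fin.last N then (lam : ℂ) • (Xo l * Xo (l + 1)) else 0 := by
    rw [Finset.sum_ite_eq' univ (Fin.last N) fun l => (lam : ℂ) • (Xo l * Xo (l + 1)),
      if_pos (Finset.mem_univ _), Fin.last_add_one]
  rw [h1, ← Finset.sum_add_distrib]
  refine Finset.sum_congr rfl fun l _ => ?_
  split_ifs
  · abel
  · abel

theorem qf_eq (hN : 1 ≤ N) (lam ε : ℝ) :
    qf (1 - lam • shiftM N ε) = H0 lam N +
      ((lam * ε : ℝ) : ℂ) • (Po * (Xo (Fin.last N) * Xo 0)) := by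
  have hne : ∀ l : Fin (N + 1), l + 1 ≠ l := by
    intro l h
    rcases eq_or_ne l (Fin.last N) with h1 | h1
    · rw [h1, Fin.last_add_one] at h
      have := congrArg Fin.val h
      simp at this
      omega
    · have hlt : l < Fin.last N := lt_of_le_of_ne (Fin.le_last l) h1
      have hv : ((l + 1 : Fin (N + 1)) : ℕ) = l + 1 := Fin.val_add_one_of_lt hlt
      rw [h] at hv
      omega
  have h0 : ∀ l : Fin (N + 1), l + 1 = 0 ↔ l = Fin.last N := by
    intro l
    constructor
    · intro h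
      by_contra h1
      have hlt : l < Fin.last N := lt_of_le_of_ne (Fin.le_last l) h1
      have hv : ((l + 1 : Fin (N + 1)) : ℕ) = l + 1 := Fin.val_add_one_of_lt hlt
      rw [h] at hv
      simp at hv
    · rintro rfl
      exact Fin.last_add_one N
  have hsc : ∀ (c : ℝ) (A : Matrix (Cf N) (Cf N) ℂ),
      (Complex.I * ((-(lam • c) : ℝ) : ℂ)) • A = -(((lam * c : ℝ) : ℂ) • (Complex.I • A)) := by
    intro c A
    rw [smul_eq_mul, smul_smul, Complex.ofReal_neg, mul_neg, neg_smul, mul_comm Complex.I]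
  unfold qf qfo
  rw [Finset.sum_comm]
  have hterm : ∀ l : Fin (N + 1), ∑ j : Fin (N + 1),
      (Complex.I * (((1 - lam • shiftM N ε : Matrix (Fin (N + 1)) (Fin (N + 1)) ℝ) j l : ℝ) : ℂ)) •
        (Ao j * Bo l) = -(Zo l) - (if l = Fin.last N then 0 else (lam : ℂ) • (Xo l * Xo (l + 1))) +
        if l = Fin.last N then ((lam * ε : ℝ) : ℂ) • (Po * (Xo (Fin.last N) * Xo 0)) else 0 := by
    intro l
    have hM : ∀ j, (Complex.I * (((1 - lam • shiftM N ε :
        Matrix (Fin (N + 1)) (Fin (N + 1)) ℝ) j l : ℝ) : ℂ)) • (Ao j * Bo l) =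
        (if j = l then Complex.I • (Ao j * Bo l) else 0) -
        (if j = l + 1 then (((lam * if j = 0 then ε else 1 : ℝ) : ℂ)) •
          (Complex.I • (Ao j * Bo l)) else 0) := by
      intro j
      rw [Matrix.sub_apply, Matrix.one_apply, Matrix.smul_apply]
      unfold shiftM
      by_cases h1 : j = l
      · have h2 : ¬ j = l + 1 := fun h => hne l (h.symm.trans h1)
        rw [if_pos h1, if_pos h1, if_neg h2, if_neg h2, smul_zero, sub_zero, sub_zero]
        simp
      · rw [if_neg h1, if_neg h1]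
        by_cases h2 : j = l + 1
        · rw [if_pos h2, if_pos h2, zero_sub, zero_sub]
          exact hsc _ _
        · rw [if_neg h2, if_neg h2]
          simp
    rw [Finset.sum_congr rfl fun j _ => hM j, Finset.sum_sub_distrib, Finset.sum_ite_eq',
      if_pos (Finset.mem_univ _), Finset.sum_ite_eq', if_pos (Finset.mem_univ _), AB_self]
    by_cases h1 : l = Fin.last N
    · rw [if_pos h1, if_pos h1, if_pos ((h0 l).2 h1)]
      subst h1
      rw [Fin.last_add_one, AB_last, smul_neg]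
      abel
    · rw [if_neg h1, if_neg h1, if_neg (fun h => h1 ((h0 l).1 h)), AB_succ h1, mul_one, add_zero]
  rw [Finset.sum_congr rfl fun l _ => hterm l, Finset.sum_add_distrib, Finset.sum_ite_eq',
    if_pos (Finset.mem_univ _)]
  rfl

theorem Po_XX : Po * (Xo (Fin.last N) * Xo 0) * Po =
    (Xo (Fin.last N) * Xo 0 : Matrix (Cf N) (Cf N) ℂ) := by
  have e1 : (Xo (Fin.last N) * Xo 0 : Matrix (Cf N) (Cf N) ℂ) * Po =
      Po * (Xo (Fin.last N) * Xo 0) := by
    rw [Po_eq, Matrix.mul_assoc, Xo_diag, ← Matrix.mul_assoc, Xo_diag, Matrix.mul_assoc]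
    congr 1
    congr 1
    funext s
    rw [par_flip, par_flip, neg_neg]
  rw [Matrix.mul_assoc, e1, ← Matrix.mul_assoc, (jw_main N).2.2.1, Matrix.one_mul]

theorem ringId_main : RingId := by
  intro N lam hN
  rw [ringH_eq, qf_eq hN, qf_eq hN]
  obtain ⟨W, hW⟩ : ∃ W : Matrix (Cf N) (Cf N) ℂ, W = Po * (Xo (Fin.last N) * Xo 0) := ⟨_, rfl⟩
  have h1 : W * Po = Xo (Fin.last N) * Xo 0 := by rw [hW]; exact Po_XX
  rw [← hW, ← h1]
  have e1 : (H0 lam N + ((lam * -1 : ℝ) : ℂ) • W) * (1 + Po) =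
      H0 lam N + H0 lam N * Po - (lam : ℂ) • W - (lam : ℂ) • (W * Po) := by
    push_cast
    rw [mul_neg_one, neg_smul, add_mul, mul_add, mul_one, neg_mul, mul_add, mul_one,
      Matrix.smul_mul]
    abel
  have e2 : (H0 lam N + ((lam * 1 : ℝ) : ℂ) • W) * (1 - Po) =
      H0 lam N - H0 lam N * Po + (lam : ℂ) • W - (lam : ℂ) • (W * Po) := by
    rw [mul_one, add_mul, mul_sub, mul_one, mul_sub, mul_one, Matrix.smul_mul]
    abel
  rw [e1, e2]
  module

end Pool.Agent.Q68.PL

namespace Pool.Agent.Q68.PL.RIjob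

theorem main (_ : Pool.Agent.Q234.PL.JW) : Pool.Agent.Q234.PL.RingId := Pool.Agent.Q68.PL.ringId_main

end Pool.Agent.Q68.PL.RIjob
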