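import Pool.Agent.Q234.PL.Stm

/-!
# Project PL, job TO: the lower bound for a block of the torus
-/

set_option autoImplicit false
set_option linter.unusedSectionVars false

open scoped BigOperators Matrix
open Finset Pool.Agent.TH235.PP

namespace Pool.Agent.Q68.PL.TOjob

open Pool.Agent.Q234.PL

/-- configurations of the torus are families of rows -/
def rowsE (N : ℕ) : (Fin (N + 1) → Cf N) ≃ (Site (N + 1) → Fin 2) where
  toFun T := fun u => T u.2 u.1
  invFun s := fun y x => s (x, y)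
  left_inv _ := rfl
  right_inv _ := rfl

/-- configurations of the block are families of rows -/
def blkE (m : ℕ) : (Fin m → Fin m → Fin 2) ≃ (Fin m × Fin m → Fin 2) where
  toFun T := fun u => T u.2 u.1
  invFun s := fun y x => s (x, y)
  left_inv _ := rfl
  right_inv _ := rfl

/-- the rows below `m` and the other rows -/
def splE {ι κ μ γ : Type} (e : ι ⊕ κ ≃ μ) : (ι → γ) × (κ → γ) ≃ (μ → γ) :=
  ((Equiv.sumArrowEquivProdArrow ι κ γ).symm).trans (Equiv.arrowCongr e (Equiv.refl γ))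

theorem splE_inl {ι κ μ γ : Type} (e : ι ⊕ κ ≃ μ) (T : (ι → γ) × (κ → γ)) (i : ι) :
    splE e T (e (Sum.inl i)) = T.1 i := by
  unfold splE
  simp [Equiv.arrowCongr]
  rfl

theorem splE_inr {ι κ μ γ : Type} (e : ι ⊕ κ ≃ μ) (T : (ι → γ) × (κ → γ)) (j : κ) :
    splE e T (e (Sum.inr j)) = T.2 j := by
  unfold splE
  simp [Equiv.arrowCongr]
  rfl

theorem aux (h1 : TensorBound) (N m r : ℕ) (hr : m + r = N + 1) (Ψ : Cf N → ℂ) (g : ℝ)
    (hg : 0 ≤ g) (hΨ : normSq Ψ = 1)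
    (hrow : ∀ v : (Fin m → Fin 2) → ℂ,
      g * ∑ p, ‖v p‖ ^ 2 ≤ ∑ t : Cf N, ‖∑ p, v p * Ψ (paste p t)‖ ^ 2)
    (v : (Fin m × Fin m → Fin 2) → ℂ) :
    g ^ m * ∑ p, ‖v p‖ ^ 2 ≤ ∑ t : Site (N + 1) → Fin 2, ‖∑ p, v p * rowProd Ψ (tpaste p t)‖ ^ 2 := by
  obtain ⟨e, he⟩ : ∃ e : Fin m ⊕ Fin r ≃ Fin (N + 1), e = finSumFinEquiv.trans (finCongr hr) :=
    ⟨_, rfl⟩
  have he1 : ∀ i : Fin m, ((e (Sum.inl i) : Fin (N + 1)) : ℕ) = i := by
    intro i
    rw [he]
    simp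
  have he2 : ∀ j : Fin r, m ≤ ((e (Sum.inr j) : Fin (N + 1)) : ℕ) := by
    intro i
    rw [he]
    simp
  -- the rows of a pasted configuration
  have hin : ∀ (a : Fin m → Fin m → Fin 2) (T : (Fin m → Cf N) × (Fin r → Cf N)) (i : Fin m),
      (fun x : Fin (N + 1) => tpaste (blkE m a) (rowsE N (splE e T)) (x, e (Sum.inl i))) =
        paste (a i) (T.1 i) := by
    intro a T i
    funext x
    unfold tpaste paste
    show (if h : (x : ℕ) < m ∧ ((e (Sum.inl i) : Fin (N + 1)) : ℕ) < m then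
      a ⟨((e (Sum.inl i) : Fin (N + 1)) : ℕ), h.2⟩ ⟨(x : ℕ), h.1⟩ else
        splE e T (e (Sum.inl i)) x) = _
    by_cases hx : (x : ℕ) < m
    · have h' : ((e (Sum.inl i) : Fin (N + 1)) : ℕ) < m := by rw [he1]; exact i.2
      rw [dif_pos ⟨hx, h'⟩, dif_pos hx]
      have hi : (⟨((e (Sum.inl i) : Fin (N + 1)) : ℕ), h'⟩ : Fin m) = i := Fin.ext (he1 i)
      rw [hi]
    · rw [dif_neg (fun h => hx h.1), dif_neg hx, splE_inl]
  have hout : ∀ (a : Fin m → Fin m → Fin 2) (T : (Fin m → Cf N) × (Fin r → Cf N)) (j : Fin r),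
      (fun x : Fin (N + 1) => tpaste (blkE m a) (rowsE N (splE e T)) (x, e (Sum.inr j))) =
        T.2 j := by
    intro a T j
    funext x
    unfold tpaste
    show (if h : (x : ℕ) < m ∧ ((e (Sum.inr j) : Fin (N + 1)) : ℕ) < m then
      a ⟨((e (Sum.inr j) : Fin (N + 1)) : ℕ), h.2⟩ ⟨(x : ℕ), h.1⟩ else
        splE e T (e (Sum.inr j)) x) = _
    rw [dif_neg (fun h => absurd h.2 (Nat.not_lt.2 (he2 j))), splE_inr]
  have hprod : ∀ (a : Fin m → Fin m → Fin 2) (T : (Fin m → Cf N) × (Fin r → Cf N)),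
      rowProd Ψ (tpaste (blkE m a) (rowsE N (splE e T))) =
        (∏ i, Ψ (paste (a i) (T.1 i))) * ∏ j, Ψ (T.2 j) := by
    intro a T
    unfold rowProd
    show (∏ y : Fin (N + 1), Ψ (fun x : Fin (N + 1) =>
      tpaste (blkE m a) (rowsE N (splE e T)) (x, y))) = _
    rw [← Equiv.prod_comp e, Fintype.prod_sum_type]
    congr 1
    · refine Finset.prod_congr rfl fun i _ => ?_
      rw [hin]
    · refine Finset.prod_congr rfl fun j _ => ?_
      rw [hout]
  have hT := h1 m (Fin m → Fin 2) (Cf N) (fun _ b a => Ψ (paste a b)) (fun _ => g) (fun _ => hg)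
    (fun _ w => by
      have := hrow w
      simpa only [mul_comm] using this) (fun a => v (blkE m a))
  rw [Finset.prod_const, Finset.card_univ, Fintype.card_fin] at hT
  have hL : ∑ p, ‖v p‖ ^ 2 = ∑ a : Fin m → Fin m → Fin 2, ‖v (blkE m a)‖ ^ 2 :=
    (Equiv.sum_comp (blkE m) fun p => ‖v p‖ ^ 2).symm
  have hR : ∑ t : Site (N + 1) → Fin 2, ‖∑ p, v p * rowProd Ψ (tpaste p t)‖ ^ 2 =
      ∑ b : Fin m → Cf N, ‖∑ a : Fin m → Fin m → Fin 2,
        (∏ y, Ψ (paste (a y) (b y))) * v (blkE m a)‖ ^ 2 := by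
    rw [← Equiv.sum_comp ((splE e).trans (rowsE N)), Fintype.sum_prod_type]
    refine Finset.sum_congr rfl fun T₁ _ => ?_
    have k1 : ∀ T₂ : Fin r → Cf N,
        ‖∑ p, v p * rowProd Ψ (tpaste p (((splE e).trans (rowsE N)) (T₁, T₂)))‖ ^ 2 =
        ‖∑ a : Fin m → Fin m → Fin 2, (∏ y, Ψ (paste (a y) (T₁ y))) * v (blkE m a)‖ ^ 2 *
          ∏ j, ‖Ψ (T₂ j)‖ ^ 2 := by
      intro T₂
      rw [← Equiv.sum_comp (blkE m)]
      have k2 : ∀ a : Fin m → Fin m → Fin 2, v (blkE m a) *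
          rowProd Ψ (tpaste (blkE m a) (((splE e).trans (rowsE N)) (T₁, T₂))) =
          ((∏ y, Ψ (paste (a y) (T₁ y))) * v (blkE m a)) * ∏ j, Ψ (T₂ j) := by
        intro a
        have := hprod a (T₁, T₂)
        rw [Equiv.trans_apply, this]
        ring
      rw [Finset.sum_congr rfl fun a _ => k2 a, ← Finset.sum_mul, norm_mul, mul_pow, norm_prod,
        ← Finset.prod_pow]
    rw [Finset.sum_congr rfl fun T₂ _ => k1 T₂, ← Finset.mul_sum]
    have k3 : ∑ T₂ : Fin r → Cf N, ∏ j, ‖Ψ (T₂ j)‖ ^ 2 = 1 := by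
      have k4 := Finset.prod_univ_sum (fun _ : Fin r => (Finset.univ : Finset (Cf N)))
        (fun _ t => ‖Ψ t‖ ^ 2)
      rw [Fintype.piFinset_univ] at k4
      rw [← k4]
      refine Finset.prod_eq_one fun j _ => ?_
      exact hΨ
    rw [k3, mul_one]
  rw [hL, hR]
  exact hT

theorem main (h1 : TensorBound) : TorusBlock := by
  intro N m Ψ g hm hg hΨ hrow v
  exact aux h1 N m (N + 1 - m) (by omega) Ψ g hg hΨ hrow v

end Pool.Agent.Q68.PL.TOjob
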