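import Pool.Agent.Q68.PL.PG
import Pool.Agent.Q68.PL.TO

/-!
# Project PL, job TH: the Hamiltonian of the torus as a sum over the rows
-/

set_option autoImplicit false
set_option linter.unusedSectionVars false

open scoped BigOperators Matrix
open Finset Pool.Agent.TH235.PP

namespace Pool.Agent.Q68.PL.THjob

open Pool.Agent.Q234.PL Pool.Agent.Q68.PL Pool.Agent.Q68.PL.TOjob

section gap

variable {n : Type} [Fintype n] [DecidableEq n]

theorem ip_adj {H : Matrix n n ℂ} (hH : H.IsHermitian) (a b : n → ℂ) :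
    ip a (H *ᵥ b) = ip (H *ᵥ a) b := by
  have h1 : star (H *ᵥ a) = star a ᵥ* H := by
    rw [Matrix.star_mulVec, hH.eq]
  show star a ⬝ᵥ (H *ᵥ b) = star (H *ᵥ a) ⬝ᵥ b
  rw [h1, Matrix.dotProduct_mulVec]

theorem normSq_eq_zero' {φ : n → ℂ} (h : normSq φ ≤ 0) : φ = 0 := by
  have h1 : normSq φ = 0 := le_antisymm h (normSq_nonneg' φ)
  unfold normSq at h1
  rw [Finset.sum_eq_zero_iff_of_nonneg (fun _ _ => by positivity)] at h1
  funext s
  have h2 := h1 s (Finset.mem_univ s)
  have h3 : ‖φ s‖ = 0 := by simpa using h2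
  simpa using h3

theorem gapped {H : Matrix n n ℂ} (hH : H.IsHermitian) {E Δ : ℝ} {Ψ : n → ℂ} (hΔ : 0 < Δ)
    (h : IsGround H E Δ Ψ) : IsGappedGround H Δ Ψ := by
  obtain ⟨h1, h2, h3⟩ := h
  refine ⟨E, h2, fun φ hφ => ⟨ip Ψ φ, ?_⟩, fun E' φ hφ0 hφ => ?_⟩
  · have k1 := h3 φ
    rw [hφ, ip_smul_right, ip_self] at k1
    have k2 : ((E : ℂ) * (normSq φ : ℂ)).re = E * normSq φ := by
      rw [← Complex.ofReal_mul, Complex.ofReal_re]
    rw [k2] at k1
    have k3 : normSq φ ≤ ‖ip Ψ φ‖ ^ 2 := by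
      by_contra hc
      push Not at hc
      have := mul_pos hΔ (sub_pos.2 hc)
      linarith
    have k4 : ((normSq (φ - ip Ψ φ • Ψ) : ℝ) : ℂ) = ((normSq φ - ‖ip Ψ φ‖ ^ 2 : ℝ) : ℂ) := by
      rw [← ip_self, ip_sub_left, ip_sub_right, ip_sub_right, ip_smul_left, ip_smul_left,
        ip_smul_right, ip_smul_right, ip_self, ip_self, h1, ← ip_conj Ψ φ, Complex.ofReal_sub,
        ← Complex.normSq_eq_norm_sq, ← Complex.mul_conj]
      push_cast
      ring
    have k5 := Complex.ofReal_injective k4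
    have k6 := normSq_eq_zero' (φ := φ - ip Ψ φ • Ψ) (by rw [k5]; linarith)
    exact sub_eq_zero.1 k6
  · by_cases hE : E' = E
    · exact Or.inl hE
    · right
      have k1 := ip_adj hH Ψ φ
      rw [hφ, h2, ip_smul_right, ip_smul_left, Complex.conj_ofReal] at k1
      have k2 : ((E' : ℂ) - E) * ip Ψ φ = 0 := by linear_combination k1
      have k3 : ip Ψ φ = 0 := by
        rcases mul_eq_zero.1 k2 with h | h
        · exfalso
          apply hE
          have := sub_eq_zero.1 h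
          exact_mod_cast this
        · exact h
      have k4 := h3 φ
      rw [hφ, ip_smul_right, ip_self, k3, norm_zero] at k4
      have k5 : ((E' : ℂ) * (normSq φ : ℂ)).re = E' * normSq φ := by
        rw [← Complex.ofReal_mul, Complex.ofReal_re]
      rw [k5] at k4
      have k6 : 0 < normSq φ := by
        by_contra hc
        push Not at hc
        exact hφ0 (normSq_eq_zero' hc)
      have k7 : (E + Δ) * normSq φ ≤ E' * normSq φ := by nlinarith
      exact le_of_mul_le_mul_right k7 k6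

end gap

section flips

variable {α β : Type}

theorem flip_row {i1 : DecidableEq (α × β)} {i2 : DecidableEq α} (x a : α) (y : β)
    (s : α × β → Fin 2) :
    @Pool.Agent.Q234.PL.flip (α × β) i1 (x, y) s (a, y) =
      @Pool.Agent.Q234.PL.flip α i2 x (fun a => s (a, y)) a := by
  unfold Pool.Agent.Q234.PL.flip
  rw [Function.update_apply, Function.update_apply]
  by_cases h : a = x
  · rw [if_pos (by rw [h]), if_pos h]
  · rw [if_neg (fun h' => h (congrArg Prod.fst h')), if_neg h]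

theorem flip_row_ne {i1 : DecidableEq (α × β)} (x a : α) {y b : β} (h : b ≠ y)
    (s : α × β → Fin 2) :
    @Pool.Agent.Q234.PL.flip (α × β) i1 (x, y) s (a, b) = s (a, b) := by
  unfold Pool.Agent.Q234.PL.flip
  rw [Function.update_apply, if_neg (fun h' => h (congrArg Prod.snd h'))]

end flips

/-- the normal form of the local term -/
noncomputable def nf (lam : ℝ) {N : ℕ} (u : Site (N + 1)) (s t : Site (N + 1) → Fin 2) : ℂ :=
  (if s = t then -(sgn (s u)) else 0) -
    if t = Pool.Agent.Q234.PL.flip (u.1 + 1, u.2) (Pool.Agent.Q234.PL.flip u s) then (lam : ℂ) else 0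

theorem term_nf (lam : ℝ) {N : ℕ} (hN : 1 ≤ N) (u : Site (N + 1)) (s t : Site (N + 1) → Fin 2) :
    term (ising lam) u s t = nf lam u s t := by
  classical
  have : Fact (1 < N + 1) := ⟨by omega⟩
  have h00 : sh u ((0 : Fin 2), (0 : Fin 2)) = u := by
    unfold sh
    ext <;> simp
  have h10 : sh u ((1 : Fin 2), (0 : Fin 2)) = (u.1 + 1, u.2) := by
    unfold sh
    ext <;> simp
  have h01 : sh u ((0 : Fin 2), (1 : Fin 2)) = (u.1, u.2 + 1) := by
    unfold sh
    ext <;> simp
  have h11 : sh u ((1 : Fin 2), (1 : Fin 2)) = (u.1 + 1, u.2 + 1) := by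
    unfold sh
    ext <;> simp
  have hne1 : u.1 + 1 ≠ u.1 := by simp
  have hne2 : u.2 + 1 ≠ u.2 := by simp
  have d1 : (u.1 + 1, u.2) ≠ u := fun h => hne1 (congrArg Prod.fst h)
  have d2 : (u.1, u.2 + 1) ≠ u := fun h => hne2 (congrArg Prod.snd h)
  have d3 : (u.1 + 1, u.2 + 1) ≠ u := fun h => hne2 (congrArg Prod.snd h)
  have d4 : (u.1, u.2 + 1) ≠ (u.1 + 1, u.2) := fun h => hne2 (congrArg Prod.snd h)
  have d5 : (u.1 + 1, u.2 + 1) ≠ (u.1 + 1, u.2) := fun h => hne2 (congrArg Prod.snd h)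
  have houts : ∀ v : Site (N + 1), v ≠ u → v ≠ (u.1 + 1, u.2) → v ≠ (u.1, u.2 + 1) →
      v ≠ (u.1 + 1, u.2 + 1) → ∀ x : Fin 2 × Fin 2, sh u x ≠ v := by
    rintro v v1 v2 v3 v4 ⟨a, b⟩ h
    fin_cases a <;> fin_cases b
    · exact v1 (by rw [← h]; exact h00)
    · exact v3 (by rw [← h]; exact h01)
    · exact v2 (by rw [← h]; exact h10)
    · exact v4 (by rw [← h]; exact h11)
  have hinn : ∀ v : Site (N + 1), (∀ x : Fin 2 × Fin 2, sh u x ≠ v) → v ≠ u ∧ v ≠ (u.1 + 1, u.2) := by
    intro v hv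
    exact ⟨fun h => hv (0, 0) (by rw [h00, h]), fun h => hv (1, 0) (by rw [h10, h])⟩
  have k1 : s = t ↔ (∀ v, (∀ x : Fin 2 × Fin 2, sh u x ≠ v) → s v = t v) ∧
      (fun x : Fin 2 × Fin 2 => s (sh u x)) = (fun x : Fin 2 × Fin 2 => t (sh u x)) := by
    constructor
    · rintro rfl
      exact ⟨fun _ _ => rfl, rfl⟩
    · rintro ⟨a1, a2⟩
      funext v
      by_cases hv : ∀ x : Fin 2 × Fin 2, sh u x ≠ v
      · exact a1 v hv
      · push Not at hv
        obtain ⟨x, hx⟩ := hv
        rw [← hx]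
        exact congrFun a2 x
  have k2 : t = Pool.Agent.Q234.PL.flip (u.1 + 1, u.2) (Pool.Agent.Q234.PL.flip u s) ↔
      (∀ v, (∀ x : Fin 2 × Fin 2, sh u x ≠ v) → s v = t v) ∧
      (t (sh u ((0 : Fin 2), (0 : Fin 2))) = s (sh u ((0 : Fin 2), (0 : Fin 2))) + 1 ∧
        t (sh u ((1 : Fin 2), (0 : Fin 2))) = s (sh u ((1 : Fin 2), (0 : Fin 2))) + 1 ∧
        t (sh u ((0 : Fin 2), (1 : Fin 2))) = s (sh u ((0 : Fin 2), (1 : Fin 2))) ∧
        t (sh u ((1 : Fin 2), (1 : Fin 2))) = s (sh u ((1 : Fin 2), (1 : Fin 2)))) := by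
    rw [h00, h10, h01, h11]
    constructor
    · rintro rfl
      refine ⟨fun v hv => ?_, ?_, ?_, ?_, ?_⟩
      · rw [flip_ne (hinn v hv).2, flip_ne (hinn v hv).1]
      · rw [flip_ne (Ne.symm d1), flip_self]
      · rw [flip_self, flip_ne d1]
      · rw [flip_ne d4, flip_ne d2]
      · rw [flip_ne d5, flip_ne d3]
    · rintro ⟨a1, a2, a3, a4, a5⟩
      funext v
      by_cases v1 : v = u
      · rw [v1, flip_ne (Ne.symm d1), flip_self, a2]
      · by_cases v2 : v = (u.1 + 1, u.2)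
        · rw [v2, flip_self, flip_ne d1, a3]
        · rw [flip_ne v2, flip_ne v1]
          by_cases v3 : v = (u.1, u.2 + 1)
          · rw [v3, a4]
          · by_cases v4 : v = (u.1 + 1, u.2 + 1)
            · rw [v4, a5]
            · exact (a1 v (houts v v1 v2 v3 v4)).symm
  unfold nf term ising
  by_cases hP : ∀ v, (∀ x : Fin 2 × Fin 2, sh u x ≠ v) → s v = t v
  · rw [if_pos hP]
    congr 1
    · by_cases h : s = t
      · rw [if_pos h, if_pos (k1.1 h).2]
        show -sgn (s (sh u ((0 : Fin 2), (0 : Fin 2)))) = _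
        rw [h00]
      · rw [if_neg h, if_neg (fun h' => h (k1.2 ⟨hP, h'⟩))]
    · by_cases h : t = Pool.Agent.Q234.PL.flip (u.1 + 1, u.2) (Pool.Agent.Q234.PL.flip u s)
      · rw [if_pos h, if_pos (k2.1 h).2]
      · rw [if_neg h, if_neg (fun h' => h (k2.2 ⟨hP, h'⟩))]
  · rw [if_neg hP, if_neg (fun h => hP (k1.1 h).1), if_neg (fun h => hP (k2.1 h).1), sub_zero]

theorem row_nf (lam : ℝ) {N : ℕ} (x y : Fin (N + 1)) (s t : Site (N + 1) → Fin 2) :
    (if (∀ z, z ≠ y → (rowsE N).symm s z = (rowsE N).symm t z) then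
      (-(Zo x) - (lam : ℂ) • (Xo x * Xo (x + 1)) : Matrix (Cf N) (Cf N) ℂ)
        ((rowsE N).symm s y) ((rowsE N).symm t y)
      else 0) = nf lam ((x, y) : Site (N + 1)) s t := by
  have k1 : s = t ↔ (∀ z, z ≠ y → (rowsE N).symm s z = (rowsE N).symm t z) ∧
      (rowsE N).symm s y = (rowsE N).symm t y := by
    constructor
    · rintro rfl
      exact ⟨fun _ _ => rfl, rfl⟩
    · rintro ⟨a1, a2⟩
      apply (rowsE N).symm.injective
      funext z
      by_cases hz : z = y
      · rw [hz, a2]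
      · exact a1 z hz
  have k2 : t = Pool.Agent.Q234.PL.flip (((x, y) : Site (N + 1)).1 + 1, ((x, y) : Site (N + 1)).2)
        (Pool.Agent.Q234.PL.flip ((x, y) : Site (N + 1)) s) ↔
      (∀ z, z ≠ y → (rowsE N).symm s z = (rowsE N).symm t z) ∧
      (rowsE N).symm t y = Pool.Agent.Q234.PL.flip (x + 1)
        (Pool.Agent.Q234.PL.flip x ((rowsE N).symm s y)) := by
    constructor
    · intro h
      refine ⟨fun z hz => ?_, ?_⟩
      · funext a
        show s (a, z) = t (a, z)
        rw [h]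
        refine Eq.symm (Eq.trans (flip_row_ne _ _ hz _) (flip_row_ne _ _ hz _))
      · funext a
        show t (a, y) = _
        rw [h]
        refine (flip_row (i2 := inferInstance) _ _ _ _).trans ?_
        refine congrArg (fun f : Cf N => Pool.Agent.Q234.PL.flip (x + 1) f a) ?_
        funext b
        exact flip_row (i2 := inferInstance) _ _ _ _
    · rintro ⟨a1, a2⟩
      funext v
      obtain ⟨a, z⟩ := v
      by_cases hz : z = y
      · subst hz
        have h2 := congrFun a2 a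
        refine Eq.trans h2 (Eq.symm ?_)
        refine (flip_row (i2 := inferInstance) _ _ _ _).trans ?_
        refine congrArg (fun f : Cf N => Pool.Agent.Q234.PL.flip (x + 1) f a) ?_
        funext b
        exact flip_row (i2 := inferInstance) _ _ _ _
      · have h2 := congrFun (a1 z hz) a
        refine Eq.trans (Eq.symm h2) (Eq.symm ?_)
        exact Eq.trans (flip_row_ne _ _ hz _) (flip_row_ne _ _ hz _)
  unfold nf
  have e1 : ((-(Zo x) - (lam : ℂ) • (Xo x * Xo (x + 1)) : Matrix (Cf N) (Cf N) ℂ))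
      ((rowsE N).symm s y) ((rowsE N).symm t y) =
      (if (rowsE N).symm s y = (rowsE N).symm t y then -(sgn (s (x, y))) else 0) -
        if (rowsE N).symm t y = Pool.Agent.Q234.PL.flip (x + 1)
          (Pool.Agent.Q234.PL.flip x ((rowsE N).symm s y)) then (lam : ℂ) else 0 := by
    rw [Matrix.sub_apply, Matrix.neg_apply, Matrix.smul_apply, Xo_mul_apply]
    congr 1
    · unfold Zo
      rw [Matrix.diagonal_apply]
      split_ifs
      · rfl
      · rw [neg_zero]
    · rw [smul_eq_mul]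
      split_ifs
      · rw [mul_one]
      · rw [mul_zero]
  by_cases hP : ∀ z, z ≠ y → (rowsE N).symm s z = (rowsE N).symm t z
  · rw [if_pos hP, e1]
    congr 1
    · by_cases h : s = t
      · rw [if_pos h, if_pos (k1.1 h).2]
      · rw [if_neg h, if_neg (fun h' => h (k1.2 ⟨hP, h'⟩))]
    · by_cases h : (rowsE N).symm t y = Pool.Agent.Q234.PL.flip (x + 1)
          (Pool.Agent.Q234.PL.flip x ((rowsE N).symm s y))
      · rw [if_pos h, if_pos (k2.2 ⟨hP, h⟩)]
      · rw [if_neg h, if_neg (fun h' => h (k2.1 h').2)]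
  · rw [if_neg hP, if_neg (fun h => hP (k1.1 h).1), if_neg (fun h => hP (k2.1 h).1), sub_zero]

theorem row_sum (lam : ℝ) {N : ℕ} (y : Fin (N + 1)) (s t : Site (N + 1) → Fin 2) :
    (∑ x : Fin (N + 1), nf lam ((x, y) : Site (N + 1)) s t) =
      Hy (ringH lam N) y ((rowsE N).symm s) ((rowsE N).symm t) := by
  rw [← Finset.sum_congr rfl fun x _ => row_nf lam x y s t]
  unfold Hy ringH
  by_cases hP : ∀ z, z ≠ y → (rowsE N).symm s z = (rowsE N).symm t z
  · rw [if_pos hP, Matrix.sum_apply]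
    refine Finset.sum_congr rfl fun x _ => ?_
    rw [if_pos hP]
  · rw [if_neg hP]
    refine Finset.sum_eq_zero fun x _ => ?_
    rw [if_neg hP]

theorem ham_eq (lam : ℝ) {N : ℕ} (hN : 1 ≤ N) :
    ham (ising lam) (N + 1) =
      (∑ y : Fin (N + 1), Hy (ringH lam N) y).submatrix (rowsE N).symm (rowsE N).symm := by
  ext s t
  rw [Matrix.submatrix_apply, Matrix.sum_apply]
  unfold ham
  rw [Matrix.sum_apply, Finset.sum_congr rfl fun u _ => term_nf lam hN u s t,
    Fintype.sum_prod_type_right]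
  exact Finset.sum_congr rfl fun y _ => row_sum lam y s t

theorem ham_herm (lam : ℝ) {N : ℕ} (hN : 1 ≤ N) : (ham (ising lam) (N + 1)).IsHermitian := by
  ext s t
  rw [Matrix.conjTranspose_apply]
  unfold ham
  rw [Matrix.sum_apply, Matrix.sum_apply, star_sum]
  refine Finset.sum_congr rfl fun u _ => ?_
  rw [term_nf lam hN, term_nf lam hN]
  unfold nf
  rw [star_sub]
  congr 1
  · by_cases h : s = t
    · rw [if_pos h, if_pos h.symm, star_neg, h]
      congr 1
      exact sgn_conj _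
    · rw [if_neg h, if_neg (Ne.symm h), star_zero]
  · have h1 : (s = Pool.Agent.Q234.PL.flip (u.1 + 1, u.2) (Pool.Agent.Q234.PL.flip u t)) ↔
        (t = Pool.Agent.Q234.PL.flip (u.1 + 1, u.2) (Pool.Agent.Q234.PL.flip u s)) := by
      constructor
      · intro h
        rw [h, flip_comm u, flip_flip, flip_flip]
      · intro h
        rw [h, flip_comm u, flip_flip, flip_flip]
    by_cases h : t = Pool.Agent.Q234.PL.flip (u.1 + 1, u.2) (Pool.Agent.Q234.PL.flip u s)
    · rw [if_pos h, if_pos (h1.2 h)]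
      exact Complex.conj_ofReal _
    · rw [if_neg h, if_neg (fun h' => h (h1.1 h')), star_zero]

theorem main (_ : Pool.Agent.Q234.PL.JW) (_ : Pool.Agent.Q234.PL.ProdGap) :
    Pool.Agent.Q234.PL.TorusHam := by
  intro N lam E Δ Ψ hN hΔ h
  have h1 := prodGap_aux (Cf N) (ringH lam N) E Δ Ψ hΔ.le h (N + 1)
  have h2 := isGround_equiv (rowsE N).symm h1
  rw [← ham_eq lam hN] at h2
  exact ⟨gapped (ham_herm lam hN) hΔ h2, h2.1⟩

end Pool.Agent.Q68.PL.THjob
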