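import Pool.Agent.Q68.PL.CO

/-!
# Project PL, job PG: the gap of a sum over independent factors
-/

set_option autoImplicit false
set_option linter.unusedSectionVars false

open scoped BigOperators Matrix
open Finset Pool.Agent.TH235.PP

namespace Pool.Agent.Q68.PL

open Pool.Agent.Q234.PL

theorem normSq_nonneg' {n : Type} [Fintype n] (φ : n → ℂ) : 0 ≤ normSq φ :=
  Finset.sum_nonneg fun _ _ => by positivity

/-- transport along an equivalence -/
theorem isGround_equiv {n m : Type} [Fintype n] [Fintype m] (e : n ≃ m) {H : Matrix m m ℂ}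
    {E Δ : ℝ} {Ψ : m → ℂ} (h : IsGround H E Δ Ψ) :
    IsGround (H.submatrix e e) E Δ (fun s => Ψ (e s)) := by
  obtain ⟨h1, h2, h3⟩ := h
  have hn : ∀ φ : m → ℂ, normSq (fun s => φ (e s)) = normSq φ := by
    intro φ
    unfold normSq
    exact Equiv.sum_comp e fun s => ‖φ s‖ ^ 2
  have hip : ∀ φ ψ : m → ℂ, ip (fun s => φ (e s)) (fun s => ψ (e s)) = ip φ ψ := by
    intro φ ψ
    unfold ip
    exact Equiv.sum_comp e fun s => (starRingEnd ℂ) (φ s) * ψ s
  have hmv : ∀ φ : m → ℂ, (H.submatrix e e) *ᵥ (fun s => φ (e s)) = fun s => (H *ᵥ φ) (e s) := by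
    intro φ
    funext s
    unfold Matrix.mulVec dotProduct
    exact Equiv.sum_comp e fun t => H (e s) t * φ t
  refine ⟨?_, ?_, fun φ => ?_⟩
  · rw [hn, h1]
  · rw [hmv, h2]
    rfl
  · obtain ⟨ψ, rfl⟩ : ∃ ψ : m → ℂ, φ = fun s => ψ (e s) :=
      ⟨fun t => φ (e.symm t), by funext s; show φ s = φ (e.symm (e s)); rw [e.symm_apply_apply]⟩
    rw [hn, hip, hmv, hip]
    exact h3 ψ

section two

variable {α β : Type} [Fintype α] [DecidableEq α] [Fintype β] [DecidableEq β]

/-- `H₁ ⊗ 1` -/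
def T1 (H : Matrix α α ℂ) : Matrix (α × β) (α × β) ℂ := fun x y =>
  if x.2 = y.2 then H x.1 y.1 else 0

/-- `1 ⊗ H₂` -/
def T2 (H : Matrix β β ℂ) : Matrix (α × β) (α × β) ℂ := fun x y =>
  if x.1 = y.1 then H x.2 y.2 else 0

theorem T1_mulVec (H : Matrix α α ℂ) (φ : α × β → ℂ) (x : α × β) :
    ((T1 H : Matrix (α × β) (α × β) ℂ) *ᵥ φ) x = (H *ᵥ fun a => φ (a, x.2)) x.1 := by
  unfold Matrix.mulVec dotProduct T1
  rw [Fintype.sum_prod_type]
  refine Finset.sum_congr rfl fun a _ => ?_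
  rw [Finset.sum_eq_single x.2]
  · show (if x.2 = x.2 then H x.1 a else 0) * φ (a, x.2) = _
    rw [if_pos rfl]
  · intro b _ hb
    show (if x.2 = b then H x.1 a else 0) * φ (a, b) = 0
    rw [if_neg (Ne.symm hb), zero_mul]
  · intro h
    exact absurd (Finset.mem_univ _) h

theorem T2_mulVec (H : Matrix β β ℂ) (φ : α × β → ℂ) (x : α × β) :
    ((T2 H : Matrix (α × β) (α × β) ℂ) *ᵥ φ) x = (H *ᵥ fun b => φ (x.1, b)) x.2 := by
  unfold Matrix.mulVec dotProduct T2
  rw [Fintype.sum_prod_type_right]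
  refine Finset.sum_congr rfl fun b _ => ?_
  rw [Finset.sum_eq_single x.1]
  · show (if x.1 = x.1 then H x.2 b else 0) * φ (x.1, b) = _
    rw [if_pos rfl]
  · intro a _ ha
    show (if x.1 = a then H x.2 b else 0) * φ (a, b) = 0
    rw [if_neg (Ne.symm ha), zero_mul]
  · intro h
    exact absurd (Finset.mem_univ _) h

theorem normSq_prod (φ : α × β → ℂ) : normSq φ = ∑ b, normSq (fun a => φ (a, b)) := by
  unfold normSq
  rw [Fintype.sum_prod_type_right]

theorem normSq_prod' (φ : α × β → ℂ) : normSq φ = ∑ a, normSq (fun b => φ (a, b)) := by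
  unfold normSq
  rw [Fintype.sum_prod_type]

theorem ip_prod (φ ψ : α × β → ℂ) : ip φ ψ = ∑ b, ip (fun a => φ (a, b)) (fun a => ψ (a, b)) := by
  unfold ip
  rw [Fintype.sum_prod_type_right]

theorem ip_prod' (φ ψ : α × β → ℂ) : ip φ ψ = ∑ a, ip (fun b => φ (a, b)) (fun b => ψ (a, b)) := by
  unfold ip
  rw [Fintype.sum_prod_type]

theorem ip_sum_left {n ι : Type} [Fintype n] (S : Finset ι) (c : ι → ℂ) (v : ι → n → ℂ)
    (w : n → ℂ) : ip (∑ i ∈ S, c i • v i) w = ∑ i ∈ S, (starRingEnd ℂ) (c i) * ip (v i) w := by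
  classical
  induction S using Finset.induction_on with
  | empty =>
    rw [Finset.sum_empty, Finset.sum_empty, ← ip_conj, ip_zero_right, map_zero]
  | insert i S hi ih => rw [Finset.sum_insert hi, Finset.sum_insert hi, ip_add_left, ih, ip_smul_left]

theorem two_factors {H₁ : Matrix α α ℂ} {H₂ : Matrix β β ℂ} {E₁ E₂ Δ : ℝ} {Ψ₁ : α → ℂ}
    {Ψ₂ : β → ℂ} (hΔ : 0 ≤ Δ) (h₁ : IsGround H₁ E₁ Δ Ψ₁) (h₂ : IsGround H₂ E₂ Δ Ψ₂) :
    IsGround (T1 H₁ + T2 H₂ : Matrix (α × β) (α × β) ℂ) (E₁ + E₂) Δ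
      (fun x => Ψ₁ x.1 * Ψ₂ x.2) := by
  obtain ⟨a1, a2, a3⟩ := h₁
  obtain ⟨b1, b2, b3⟩ := h₂
  refine ⟨?_, ?_, fun φ => ?_⟩
  · unfold normSq at a1 b1 ⊢
    rw [Fintype.sum_prod_type]
    simp only [norm_mul, mul_pow]
    simp only [← Finset.mul_sum, b1, mul_one, a1]
  · funext x
    rw [Matrix.add_mulVec, Pi.add_apply, T1_mulVec, T2_mulVec]
    have e1 : (fun a => Ψ₁ (a, x.2).1 * Ψ₂ (a, x.2).2) = Ψ₂ x.2 • Ψ₁ := by
      funext a
      rw [Pi.smul_apply, smul_eq_mul, mul_comm]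
    have e2 : (fun b => Ψ₁ (x.1, b).1 * Ψ₂ (x.1, b).2) = Ψ₁ x.1 • Ψ₂ := by
      funext b
      rw [Pi.smul_apply, smul_eq_mul]
    rw [e1, e2, Matrix.mulVec_smul, Matrix.mulVec_smul, a2, b2]
    simp only [Pi.smul_apply, smul_eq_mul, Complex.ofReal_add]
    ring
  · obtain ⟨χ, hχ⟩ : ∃ χ : β → ℂ, χ = fun b => ip Ψ₁ (fun a => φ (a, b)) := ⟨_, rfl⟩
    -- the first factor
    have f1 : E₁ * normSq φ + Δ * (normSq φ - normSq χ) ≤ (ip φ (T1 H₁ *ᵥ φ)).re := by
      have g1 : (ip φ (T1 H₁ *ᵥ φ)).re =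
          ∑ b, (ip (fun a => φ (a, b)) (H₁ *ᵥ fun a => φ (a, b))).re := by
        rw [ip_prod, Complex.re_sum]
        refine Finset.sum_congr rfl fun b _ => ?_
        congr 2
        funext a
        exact T1_mulVec H₁ φ (a, b)
      have g2 : normSq χ = ∑ b, ‖ip Ψ₁ (fun a => φ (a, b))‖ ^ 2 := by
        rw [hχ]
        rfl
      rw [g1, g2, normSq_prod, Finset.mul_sum, ← Finset.sum_sub_distrib, Finset.mul_sum,
        ← Finset.sum_add_distrib]
      exact Finset.sum_le_sum fun b _ => a3 _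
    -- the decomposition
    obtain ⟨φ', hφ'⟩ : ∃ φ' : α × β → ℂ, φ' = fun x => φ x - Ψ₁ x.1 * χ x.2 := ⟨_, rfl⟩
    have horth : ∑ a, (starRingEnd ℂ) (Ψ₁ a) • (fun b => φ' (a, b)) = 0 := by
      funext b
      rw [Finset.sum_apply, Pi.zero_apply]
      have g1 : ∀ a, ((starRingEnd ℂ) (Ψ₁ a) • fun b => φ' (a, b)) b =
          (starRingEnd ℂ) (Ψ₁ a) * φ (a, b) - (starRingEnd ℂ) (Ψ₁ a) * Ψ₁ a * χ b := by
        intro a
        rw [Pi.smul_apply, smul_eq_mul, hφ']
        ring
      rw [Finset.sum_congr rfl fun a _ => g1 a, Finset.sum_sub_distrib, ← Finset.sum_mul]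
      have g2 : ∑ a, (starRingEnd ℂ) (Ψ₁ a) * Ψ₁ a = 1 := by
        have := ip_self Ψ₁
        rw [a1] at this
        unfold ip at this
        rw [this]
        simp
      rw [g2, one_mul, hχ]
      exact sub_self _
    have hdec : ∀ a, (fun b => φ (a, b)) = Ψ₁ a • χ + fun b => φ' (a, b) := by
      intro a
      funext b
      rw [Pi.add_apply, Pi.smul_apply, smul_eq_mul, hφ']
      ring
    -- sum of the forms over `a` for a bilinear expression
    have cross : ∀ (v : β → ℂ), ∑ a, Ψ₁ a * ip (fun b => φ' (a, b)) v = 0 := by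
      intro v
      have g1 := ip_sum_left Finset.univ (fun a => (starRingEnd ℂ) (Ψ₁ a))
        (fun a => fun b => φ' (a, b)) v
      rw [horth] at g1
      have g2 : ip (0 : β → ℂ) v = 0 := by rw [← ip_conj, ip_zero_right, map_zero]
      rw [g2] at g1
      rw [g1]
      refine Finset.sum_congr rfl fun a _ => ?_
      rw [Complex.conj_conj]
    have hΨn : ∑ a, ‖Ψ₁ a‖ ^ 2 = 1 := a1
    have expand : ∀ (B : Matrix β β ℂ), ∑ a, ip (fun b => φ (a, b)) (B *ᵥ fun b => φ (a, b)) =
        ip χ (B *ᵥ χ) + ∑ a, ip (fun b => φ' (a, b)) (B *ᵥ fun b => φ' (a, b)) := by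
      intro B
      have g1 : ∀ a, ip (fun b => φ (a, b)) (B *ᵥ fun b => φ (a, b)) =
          ((‖Ψ₁ a‖ ^ 2 : ℝ) : ℂ) * ip χ (B *ᵥ χ) +
          ip (fun b => φ' (a, b)) (B *ᵥ fun b => φ' (a, b)) +
          Ψ₁ a * ip (fun b => φ' (a, b)) (B *ᵥ χ) +
          (starRingEnd ℂ) (Ψ₁ a) * ip χ (B *ᵥ fun b => φ' (a, b)) := by
        intro a
        rw [hdec a, Matrix.mulVec_add, Matrix.mulVec_smul, ip_add_left, ip_add_right, ip_add_right,
          ip_smul_left, ip_smul_left, ip_smul_right, ip_smul_right, ← Complex.normSq_eq_norm_sq,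
          ← Complex.mul_conj]
        ring
      rw [Finset.sum_congr rfl fun a _ => g1 a, Finset.sum_add_distrib, Finset.sum_add_distrib,
        Finset.sum_add_distrib, ← Finset.sum_mul, ← Complex.ofReal_sum, hΨn, Complex.ofReal_one,
        one_mul, cross, add_zero]
      have g2 : ∑ a, (starRingEnd ℂ) (Ψ₁ a) * ip χ (B *ᵥ fun b => φ' (a, b)) = 0 := by
        have g3 : ∀ a, (starRingEnd ℂ) (Ψ₁ a) * ip χ (B *ᵥ fun b => φ' (a, b)) =
            ip χ (B *ᵥ ((starRingEnd ℂ) (Ψ₁ a) • fun b => φ' (a, b))) := by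
          intro a
          rw [Matrix.mulVec_smul, ip_smul_right]
        rw [Finset.sum_congr rfl fun a _ => g3 a]
        have g4 : ∀ S : Finset α, ∑ a ∈ S, ip χ (B *ᵥ ((starRingEnd ℂ) (Ψ₁ a) • fun b => φ' (a, b))) =
            ip χ (B *ᵥ ∑ a ∈ S, ((starRingEnd ℂ) (Ψ₁ a) • fun b => φ' (a, b))) := by
          intro S
          induction S using Finset.induction_on with
          | empty => rw [Finset.sum_empty, Finset.sum_empty, Matrix.mulVec_zero, ip_zero_right]
          | insert i S hi ih =>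
            rw [Finset.sum_insert hi, Finset.sum_insert hi, Matrix.mulVec_add, ip_add_right, ih]
        rw [g4, horth, Matrix.mulVec_zero, ip_zero_right]
      rw [g2, add_zero]
    have hnorm : normSq φ = normSq χ + normSq φ' := by
      have g1 := expand 1
      simp only [Matrix.one_mulVec, ip_self] at g1
      rw [← Complex.ofReal_sum, ← Complex.ofReal_sum, ← Complex.ofReal_add] at g1
      have g2 := Complex.ofReal_injective g1
      rw [normSq_prod' φ, normSq_prod' φ']
      exact g2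
    have f2 : E₂ * normSq φ + Δ * (normSq χ - ‖ip Ψ₂ χ‖ ^ 2) ≤ (ip φ (T2 H₂ *ᵥ φ)).re := by
      have g1 : ip φ (T2 H₂ *ᵥ φ) =
          ∑ a, ip (fun b => φ (a, b)) (H₂ *ᵥ fun b => φ (a, b)) := by
        rw [ip_prod']
        refine Finset.sum_congr rfl fun a _ => ?_
        congr 1
        funext b
        exact T2_mulVec H₂ φ (a, b)
      rw [g1, expand, Complex.add_re, Complex.re_sum, hnorm]
      have g2 := b3 χ
      have g3 : E₂ * normSq φ' ≤
          ∑ a, (ip (fun b => φ' (a, b)) (H₂ *ᵥ fun b => φ' (a, b))).re := by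
        rw [normSq_prod' φ', Finset.mul_sum]
        refine Finset.sum_le_sum fun a _ => ?_
        have g4 := b3 (fun b => φ' (a, b))
        have g5 := norm_ip_le Ψ₂ (fun b => φ' (a, b))
        rw [b1, one_mul] at g5
        have g6 := mul_nonneg hΔ (sub_nonneg.2 g5)
        linarith
      linarith
    have f3 : ip (fun x : α × β => Ψ₁ x.1 * Ψ₂ x.2) φ = ip Ψ₂ χ := by
      rw [ip_prod]
      unfold ip at hχ ⊢
      rw [hχ]
      refine Finset.sum_congr rfl fun b _ => ?_
      rw [Finset.mul_sum]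
      refine Finset.sum_congr rfl fun a _ => ?_
      rw [map_mul]
      ring
    rw [f3, Matrix.add_mulVec, ip_add_right, Complex.add_re]
    linarith

end two

/-- the operator `H` on the variable `y` -/
def Hy {α : Type} [DecidableEq α] {k : ℕ} (H : Matrix α α ℂ) (y : Fin k) :
    Matrix (Fin k → α) (Fin k → α) ℂ :=
  fun s t => if (∀ z, z ≠ y → s z = t z) then H (s y) (t y) else 0

theorem prodGap_aux (α : Type) [Fintype α] [DecidableEq α] (H : Matrix α α ℂ) (E Δ : ℝ)
    (Ψ : α → ℂ) (hΔ : 0 ≤ Δ) (h : IsGround H E Δ Ψ) (k : ℕ) :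
    IsGround (∑ y : Fin k, Hy H y) (k * E) Δ (fun s => ∏ y, Ψ (s y)) := by
  induction k with
  | zero =>
    refine ⟨?_, ?_, fun φ => ?_⟩
    · unfold normSq
      simp
    · simp
    · unfold normSq ip
      simp
  | succ k ih =>
    have h1 := two_factors hΔ h ih
    have h2 := isGround_equiv (Fin.consEquiv (fun _ : Fin (k + 1) => α)).symm h1
    have e1 : (fun s => (fun x : α × (Fin k → α) => Ψ x.1 * ∏ y, Ψ (x.2 y))
        ((Fin.consEquiv (fun _ : Fin (k + 1) => α)).symm s)) =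
        fun s : Fin (k + 1) → α => ∏ y, Ψ (s y) := by
      funext s
      rw [Fin.prod_univ_succ]
      rfl
    have e2 : E + (k : ℝ) * E = ((k + 1 : ℕ) : ℝ) * E := by
      push_cast
      ring
    rw [e1, e2] at h2
    convert! h2 using 1
    ext s t
    rw [Fin.sum_univ_succ, Matrix.submatrix_apply, Matrix.add_apply, Matrix.add_apply]
    congr 1
    · unfold Hy T1
      have h3 : (∀ z : Fin (k + 1), z ≠ 0 → s z = t z) ↔ Fin.tail s = Fin.tail t := by
        constructor
        · intro h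
          funext i
          exact h i.succ (Fin.succ_ne_zero i)
        · intro h z hz
          obtain ⟨i, rfl⟩ := Fin.exists_succ_eq.2 hz
          exact congrFun h i
      show (if (∀ z : Fin (k + 1), z ≠ 0 → s z = t z) then H (s 0) (t 0) else 0) =
        if Fin.tail s = Fin.tail t then H (s 0) (t 0) else 0
      by_cases h4 : Fin.tail s = Fin.tail t
      · rw [if_pos h4, if_pos (h3.2 h4)]
      · rw [if_neg h4, if_neg (fun h => h4 (h3.1 h))]
    · show (∑ y : Fin k, Hy H y.succ) s t = if s 0 = t 0 then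
        (∑ y : Fin k, Hy H y) (Fin.tail s) (Fin.tail t) else 0
      rw [Matrix.sum_apply, Matrix.sum_apply]
      by_cases h4 : s 0 = t 0
      · rw [if_pos h4]
        refine Finset.sum_congr rfl fun y _ => ?_
        unfold Hy
        have h3 : (∀ z : Fin (k + 1), z ≠ y.succ → s z = t z) ↔
            ∀ z : Fin k, z ≠ y → Fin.tail s z = Fin.tail t z := by
          constructor
          · intro h z hz
            exact h z.succ (fun h' => hz (Fin.succ_injective k h'))
          · intro h z hz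
            rcases Fin.eq_zero_or_eq_succ z with rfl | ⟨i, rfl⟩
            · exact h4
            · exact h i (fun h' => hz (by rw [h']))
        by_cases h5 : ∀ z : Fin k, z ≠ y → Fin.tail s z = Fin.tail t z
        · rw [if_pos h5, if_pos (h3.2 h5)]
          rfl
        · rw [if_neg h5, if_neg (fun h => h5 (h3.1 h))]
      · rw [if_neg h4]
        refine Finset.sum_eq_zero fun y _ => ?_
        unfold Hy
        rw [if_neg]
        intro h
        exact h4 (h 0 (Fin.succ_ne_zero y).symm)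

theorem prodGap_main : ProdGap := by
  intro k α _ _ H E Δ Ψ _ hΔ h
  exact prodGap_aux α H E Δ Ψ hΔ h k

end Pool.Agent.Q68.PL

namespace Pool.Agent.Q68.PL.PGjob

theorem main : Pool.Agent.Q234.PL.ProdGap := Pool.Agent.Q68.PL.prodGap_main

end Pool.Agent.Q68.PL.PGjob
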