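import Pool.Agent.Q276.PL.Stm3
import Pool.Agent.Q149.PL.CLN
import Pool.Agent.Y892.UF.N1

/-!
# Project PL (helper276), job CLC: the class numbers in the two families
-/

set_option autoImplicit false
set_option linter.all false

namespace Pool.Agent.Q68.PL

open Finset Filter NumberField Pool.Agent.H38R2.CG Pool.Agent.Q276.PL Pool.Agent.Q149.PL
open scoped Classical

noncomputable section

/-- the general step -/
theorem rare_of (hRGB : StmtRGB) (hCNF : StmtCNF) (hREG : StmtREG) (F : ℕ → Prop)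
    (hF : ∀ d, F d → 2 ≤ d ∧ Squarefree d) (c : ℝ) (hc : 0 < c)
    (hlow : ∀ᶠ X : ℕ in atTop,
      c * ((X : ℝ) / Real.log X) ≤ (((Finset.Ioc 0 X).filter F).card : ℝ))
    (hLS : ∀ η : ℝ, 0 < η → Rare F (fun d => Real.log d ^ η < Lone (dsc d)))
    (δ : ℝ) (hδ : 0 < δ) : Rare F (fun d => ¬ GoodC δ d) := by
  set δ' : ℝ := min δ (1 / 4) with hδ'
  have h0 : 0 < δ' := lt_min hδ (by norm_num)
  have h14 : δ' ≤ 1 / 4 := min_le_right _ _
  obtain ⟨X1, hX1⟩ := good_of hCNF hREG h0 h14 (min_le_left δ (1 / 4))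
  obtain ⟨M, hM⟩ := hRGB (δ' / 2) (by positivity) (by linarith)
  obtain ⟨G, hG⟩ : ∃ G : ℕ → Prop, G = fun d => ¬ GoodC δ d := ⟨_, rfl⟩
  obtain ⟨E, hE⟩ : ∃ E : ℕ → Prop, E = fun d : ℕ => Real.log d ^ (δ' / 4) < Lone (dsc d) := ⟨_, rfl⟩
  have hl : Rare F E := by
    rw [hE]
    exact hLS (δ' / 4) (by positivity)
  rw [← hG]
  unfold Rare at hl ⊢
  have hlim : Tendsto (fun X : ℕ => (1 / c) * (√(X : ℝ) * Real.log X / X +
      M * (Real.log X * Real.exp (-(Real.log X ^ (δ' / 2 / 8))))) +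
      (((Finset.Ioc 0 X).filter (fun d => F d ∧ E d)).card : ℝ) /
        (((Finset.Ioc 0 X).filter F).card : ℝ)) atTop (nhds ((1 / c) * (0 + M * 0) + 0)) :=
    ((sqrt_log_tend.add ((exp_tend (by positivity)).const_mul M)).const_mul (1 / c)).add hl
  rw [mul_zero, add_zero, add_zero, mul_zero] at hlim
  refine squeeze_zero' (Eventually.of_forall fun X => by positivity) ?_ hlim
  filter_upwards [eventually_ge_atTop X1, eventually_ge_atTop 2, hlow] with X hX hX2 hlowX
  have hX2' : (2 : ℝ) ≤ X := by exact_mod_cast hX2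
  have hX0 : (0 : ℝ) < X := by linarith
  have hl0 : 0 < Real.log X := Real.log_pos (by linarith)
  have hN0 : 0 < c * ((X : ℝ) / Real.log X) := by positivity
  have hsub : (Finset.Ioc 0 X).filter (fun d => F d ∧ G d) ⊆
      (Finset.Icc 1 ⌊√(X : ℝ)⌋₊ ∪ (Finset.Icc 2 X).filter (fun d => Squarefree d ∧
        SmallUnit (dsc d) (Real.exp (Real.log X ^ (3 / 2 - δ' / 2))))) ∪
      (Finset.Ioc 0 X).filter (fun d => F d ∧ E d) := by
    intro d hd
    rw [mem_filter, Finset.mem_Ioc] at hd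
    obtain ⟨⟨hd0, hdX⟩, hFd, hgood⟩ := hd
    obtain ⟨hd2, hsq⟩ := hF d hFd
    rw [hG] at hgood
    rw [mem_union, mem_union]
    by_cases c1 : (d : ℝ) ≤ √(X : ℝ)
    · left; left
      rw [Finset.mem_Icc]
      exact ⟨by omega, Nat.le_floor c1⟩
    · by_cases c2 : SmallUnit (dsc d) (Real.exp (Real.log X ^ (3 / 2 - δ' / 2)))
      · left; right
        rw [mem_filter, Finset.mem_Icc]
        exact ⟨⟨hd2, hdX⟩, hsq, c2⟩
      · right
        rw [mem_filter, Finset.mem_Ioc]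
        refine ⟨⟨hd0, hdX⟩, hFd, ?_⟩
        rw [hE]
        by_contra c3
        apply hgood
        refine hX1 X hX d hdX (not_le.1 c1) hsq c2 ((not_lt.1 c3).trans ?_)
        have hd1 : (1 : ℝ) ≤ d := by exact_mod_cast (by omega : 1 ≤ d)
        refine Real.rpow_le_rpow (Real.log_nonneg hd1) ?_ (by positivity)
        exact Real.log_le_log (by linarith) (by exact_mod_cast le_dsc d)
  have hcard := (card_le_card hsub).trans ((card_union_le _ _).trans
    (Nat.add_le_add_right (card_union_le _ _) _))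
  have hcard' : (((Finset.Ioc 0 X).filter (fun d => F d ∧ G d)).card : ℝ) ≤
      (((Finset.Icc 1 ⌊√(X : ℝ)⌋₊).card : ℝ) + (((Finset.Icc 2 X).filter (fun d => Squarefree d ∧
        SmallUnit (dsc d) (Real.exp (Real.log X ^ (3 / 2 - δ' / 2))))).card : ℝ)) +
      (((Finset.Ioc 0 X).filter (fun d => F d ∧ E d)).card : ℝ) := by exact_mod_cast hcard
  have hfl : (((Finset.Icc 1 ⌊√(X : ℝ)⌋₊).card : ℕ) : ℝ) ≤ √(X : ℝ) := by
    rw [Nat.card_Icc, Nat.add_sub_cancel]
    exact Nat.floor_le (Real.sqrt_nonneg _)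
  have hMX := hM X hX2
  have hMX0 : 0 ≤ M * X * Real.exp (-(Real.log X ^ (δ' / 2 / 8))) :=
    le_trans (Nat.cast_nonneg _) hMX
  have hfin : (((Finset.Ioc 0 X).filter (fun d => F d ∧ G d)).card : ℝ) ≤
      (√(X : ℝ) + M * X * Real.exp (-(Real.log X ^ (δ' / 2 / 8)))) +
      (((Finset.Ioc 0 X).filter (fun d => F d ∧ E d)).card : ℝ) := by linarith
  have hNpos : (0 : ℝ) < (((Finset.Ioc 0 X).filter F).card : ℝ) := lt_of_lt_of_le hN0 hlowX
  calc (((Finset.Ioc 0 X).filter (fun d => F d ∧ G d)).card : ℝ) /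
        (((Finset.Ioc 0 X).filter F).card : ℝ)
      ≤ ((√(X : ℝ) + M * X * Real.exp (-(Real.log X ^ (δ' / 2 / 8)))) +
      (((Finset.Ioc 0 X).filter (fun d => F d ∧ E d)).card : ℝ)) /
        (((Finset.Ioc 0 X).filter F).card : ℝ) := div_le_div_of_nonneg_right hfin hNpos.le
    _ = (√(X : ℝ) + M * X * Real.exp (-(Real.log X ^ (δ' / 2 / 8)))) /
        (((Finset.Ioc 0 X).filter F).card : ℝ) +
        (((Finset.Ioc 0 X).filter (fun d => F d ∧ E d)).card : ℝ) /
        (((Finset.Ioc 0 X).filter F).card : ℝ) := add_div _ _ _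
    _ ≤ _ := by
        refine add_le_add ?_ le_rfl
        calc (√(X : ℝ) + M * X * Real.exp (-(Real.log X ^ (δ' / 2 / 8)))) /
              (((Finset.Ioc 0 X).filter F).card : ℝ)
            ≤ (√(X : ℝ) + M * X * Real.exp (-(Real.log X ^ (δ' / 2 / 8)))) /
              (c * ((X : ℝ) / Real.log X)) :=
              div_le_div_of_nonneg_left (by positivity) hN0 hlowX
          _ = 1 / c * (√(X : ℝ) * Real.log X / X +
              M * (Real.log X * Real.exp (-(Real.log X ^ (δ' / 2 / 8))))) := by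
              field_simp

/-- the number of the primes 3 mod 4 up to `X / k` -/
theorem p3_div (k : ℕ) (hk : 1 ≤ k) : ∀ᶠ X : ℕ in atTop,
    1 / (16 * (k : ℝ)) * ((X : ℝ) / Real.log X) ≤ ((Pool.Agent.Y892.UF.P3 (X / k)).card : ℝ) := by
  obtain ⟨x0, hx0⟩ := eventually_atTop.1 Pool.Agent.Y892.UF.P3_lower
  filter_upwards [eventually_ge_atTop (k * (x0 + 2))] with X hX
  obtain ⟨x, hx⟩ : ∃ x, x = X / k := ⟨_, rfl⟩
  have hx2 : x0 + 2 ≤ x := by
    rw [hx, Nat.le_div_iff_mul_le (by omega), mul_comm]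
    exact hX
  have h1 := hx0 x (by omega)
  rw [← hx]
  refine le_trans ?_ h1
  have hxr : (2 : ℝ) ≤ x := by exact_mod_cast (by omega : 2 ≤ x)
  have hkr : (1 : ℝ) ≤ k := by exact_mod_cast hk
  have hXx : (X : ℝ) ≤ 2 * k * x := by
    have h2 : X < k * (x + 1) := by
      rw [hx]
      exact Nat.lt_mul_div_succ X (by omega)
    have h3 : (X : ℝ) < k * ((x : ℝ) + 1) := by exact_mod_cast h2
    nlinarith
  have hxX : (x : ℝ) ≤ X := by
    have : x ≤ X := by
      rw [hx]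
      exact Nat.div_le_self X k
    exact_mod_cast this
  have hlx : 0 < Real.log x := Real.log_pos (by linarith)
  have hlX : Real.log x ≤ Real.log X := Real.log_le_log (by linarith) hxX
  have hlX0 : 0 < Real.log X := lt_of_lt_of_le hlx hlX
  have h4 : (X : ℝ) / Real.log X ≤ 2 * k * (x / Real.log x) := by
    calc (X : ℝ) / Real.log X ≤ (2 * k * x) / Real.log x :=
          div_le_div₀ (by positivity) hXx hlx hlX
      _ = 2 * k * (x / Real.log x) := by ring
  calc 1 / (16 * (k : ℝ)) * ((X : ℝ) / Real.log X)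
      ≤ 1 / (16 * (k : ℝ)) * (2 * k * (x / Real.log x)) :=
        mul_le_mul_of_nonneg_left h4 (by positivity)
    _ = 1 / 8 * ((x : ℝ) / Real.log x) := by
        field_simp
        ring

theorem two_low : ∀ᶠ X : ℕ in atTop,
    1 / 32 * ((X : ℝ) / Real.log X) ≤ (((Finset.Ioc 0 X).filter TwoC).card : ℝ) := by
  filter_upwards [p3_div 2 (by norm_num)] with X hX
  have h1 : (Pool.Agent.Y892.UF.P3 (X / 2)).card ≤ ((Finset.Ioc 0 X).filter TwoC).card := by
    refine Finset.card_le_card_of_injOn (fun p => 2 * p) ?_ (fun a _ b _ hab => by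
      simp only at hab
      omega)
    intro p hp
    rw [Finset.mem_coe, Pool.Agent.Y892.UF.mem_P3] at hp
    rw [Finset.mem_coe, mem_filter, Finset.mem_Ioc]
    have h2 := hp.2.1.two_le
    have h3 := hp.1
    refine ⟨?_, p, hp.2.1, hp.2.2, rfl⟩
    show 0 < 2 * p ∧ 2 * p ≤ X
    omega
  have h2 : ((Pool.Agent.Y892.UF.P3 (X / 2)).card : ℝ) ≤
      (((Finset.Ioc 0 X).filter TwoC).card : ℝ) := by exact_mod_cast h1
  refine le_trans (le_of_eq ?_) (hX.trans h2)
  norm_num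

theorem semi_low : ∀ᶠ X : ℕ in atTop,
    1 / 96 * ((X : ℝ) / Real.log X) ≤ (((Finset.Ioc 0 X).filter SemiC).card : ℝ) := by
  have h96 : ∀ᶠ X : ℕ in atTop, ‖Real.log (X : ℝ)‖ ≤ 1 / 96 * ‖(X : ℝ)‖ :=
    tendsto_natCast_atTop_atTop.eventually
      (Real.isLittleO_log_id_atTop.bound (by norm_num : (0 : ℝ) < 1 / 96))
  filter_upwards [p3_div 3 (by norm_num), h96, eventually_ge_atTop 2] with X hX h96X hX2
  have h1 : ((Pool.Agent.Y892.UF.P3 (X / 3)).erase 3).card ≤
      ((Finset.Ioc 0 X).filter SemiC).card := by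
    refine Finset.card_le_card_of_injOn (fun p => 3 * p) ?_ (fun a _ b _ hab => by
      simp only at hab
      omega)
    intro p hp
    rw [Finset.mem_coe, Finset.mem_erase, Pool.Agent.Y892.UF.mem_P3] at hp
    rw [Finset.mem_coe, mem_filter, Finset.mem_Ioc]
    have h2 := hp.2.2.1.two_le
    have h3 : p % 4 = 3 := hp.2.2.2
    have h4 : p ≠ 3 := hp.1
    have h5 : p ≤ X / 3 := hp.2.1
    refine ⟨?_, 3, p, Nat.prime_three, hp.2.2.1, by omega, by norm_num, h3, rfl⟩
    show 0 < 3 * p ∧ 3 * p ≤ X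
    omega
  have h2 : (Pool.Agent.Y892.UF.P3 (X / 3)).card ≤
      ((Pool.Agent.Y892.UF.P3 (X / 3)).erase 3).card + 1 := by
    have := Finset.pred_card_le_card_erase (s := Pool.Agent.Y892.UF.P3 (X / 3)) (a := 3)
    omega
  have h3 : ((Pool.Agent.Y892.UF.P3 (X / 3)).card : ℝ) ≤
      (((Finset.Ioc 0 X).filter SemiC).card : ℝ) + 1 := by exact_mod_cast h2.trans (by omega)
  have hX2' : (2 : ℝ) ≤ X := by exact_mod_cast hX2
  have hl0 : 0 < Real.log X := Real.log_pos (by linarith)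
  rw [Real.norm_of_nonneg hl0.le, Real.norm_of_nonneg (by linarith)] at h96X
  have h4 : 1 ≤ 1 / 96 * ((X : ℝ) / Real.log X) := by
    rw [← mul_div_assoc, le_div_iff₀ hl0, one_mul]
    exact h96X
  have h5 : 1 / (16 * ((3 : ℕ) : ℝ)) * ((X : ℝ) / Real.log X) =
      2 * (1 / 96 * ((X : ℝ) / Real.log X)) := by
    push_cast
    ring
  rw [h5] at hX
  linarith

/-- **JOB CLC** -/
theorem clc (hRGB : StmtRGB) (hCNF : StmtCNF) (hREG : StmtREG) (hLS2 : StmtLS2) : StmtCLC := by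
  intro δ hδ
  constructor
  · refine rare_of hRGB hCNF hREG SemiC ?_ (1 / 96) (by norm_num) semi_low
      (fun η hη => (hLS2 η hη).1) δ hδ
    rintro d ⟨p, q, hp, hq, hpq, -, -, rfl⟩
    refine ⟨?_, ?_⟩
    · calc 2 ≤ p := hp.two_le
        _ = p * 1 := (mul_one p).symm
        _ ≤ p * q := Nat.mul_le_mul_left p hq.one_lt.le
    · rw [Nat.squarefree_mul ((Nat.coprime_primes hp hq).2 hpq.ne)]
      exact ⟨(Nat.Prime.prime hp).squarefree, (Nat.Prime.prime hq).squarefree⟩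
  · refine rare_of hRGB hCNF hREG TwoC ?_ (1 / 32) (by norm_num) two_low
      (fun η hη => (hLS2 η hη).2) δ hδ
    rintro d ⟨p, hp, hp4, rfl⟩
    have h2 := hp.two_le
    refine ⟨by omega, ?_⟩
    rw [Nat.squarefree_mul ((Nat.coprime_primes Nat.prime_two hp).2 (by omega))]
    exact ⟨(Nat.Prime.prime Nat.prime_two).squarefree, (Nat.Prime.prime hp).squarefree⟩

end

end Pool.Agent.Q68.PL
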