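import Pool.Agent.Q68.PL.SizL
import Pool.Agent.Q294.Av5

set_option autoImplicit false

/-!
# The three lattices
-/

namespace Q68.PL

open Finset Filter Topology TH966.KS TH966.KO TH966.AK Q294.Rs Q38.RL
open scoped Classical

noncomputable section

/-- the square lattice in the plane -/
def posS (p : ℤ × ℤ) : ℂ := ⟨p.1, p.2⟩

theorem normS (p q : ℤ × ℤ) :
    ‖posS q - posS p‖ ^ 2 = (((q.1 - p.1) ^ 2 + (q.2 - p.2) ^ 2 : ℤ) : ℝ) := by
  rw [Complex.sq_norm, Complex.normSq_apply]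
  unfold posS
  simp only [Complex.sub_re, Complex.sub_im]
  push_cast
  ring

theorem adjS (p q : ℤ × ℤ) : Q78.UR.Sq.A p q ↔ ‖posS q - posS p‖ = 1 := by
  have h1 : ‖posS q - posS p‖ = 1 ↔ ‖posS q - posS p‖ ^ 2 = 1 := by
    constructor
    · intro h; rw [h]; norm_num
    · intro h
      have := norm_nonneg (posS q - posS p)
      nlinarith
  rw [h1, normS, Q78.UR.Sq.A_iff]
  obtain ⟨a, ha⟩ : ∃ a, a = q.1 - p.1 := ⟨_, rfl⟩
  obtain ⟨b, hb⟩ : ∃ b, b = q.2 - p.2 := ⟨_, rfl⟩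
  rw [← ha, ← hb]
  have h2 : (((a ^ 2 + b ^ 2 : ℤ) : ℝ) = 1) ↔ a ^ 2 + b ^ 2 = 1 := by
    norm_cast
  rw [h2]
  constructor
  · rintro (h | h | h | h)
    · have h3 : a = 1 := by omega
      have h4 : b = 0 := by omega
      rw [h3, h4]; norm_num
    · have h3 : a = -1 := by omega
      have h4 : b = 0 := by omega
      rw [h3, h4]; norm_num
    · have h3 : a = 0 := by omega
      have h4 : b = 1 := by omega
      rw [h3, h4]; norm_num
    · have h3 : a = 0 := by omega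
      have h4 : b = -1 := by omega
      rw [h3, h4]; norm_num
  · intro h
    have ha1 : -1 ≤ a := by nlinarith [sq_nonneg b]
    have ha2 : a ≤ 1 := by nlinarith [sq_nonneg b]
    have hb1 : -1 ≤ b := by nlinarith [sq_nonneg a]
    have hb2 : b ≤ 1 := by nlinarith [sq_nonneg a]
    interval_cases a <;> interval_cases b <;> first | omega | norm_num at h

theorem sepS (x y : ℤ × ℤ) (h : x ≠ y) : 1 ≤ ‖posS x - posS y‖ := by
  have h1 := normS y x
  have h2 : (1 : ℝ) ≤ (((x.1 - y.1) ^ 2 + (x.2 - y.2) ^ 2 : ℤ) : ℝ) := by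
    have h3 : 1 ≤ (x.1 - y.1) ^ 2 + (x.2 - y.2) ^ 2 := by
      by_contra hc
      have h4 : (x.1 - y.1) ^ 2 = 0 := by nlinarith [sq_nonneg (x.1 - y.1), sq_nonneg (x.2 - y.2)]
      have h5 : (x.2 - y.2) ^ 2 = 0 := by nlinarith [sq_nonneg (x.1 - y.1), sq_nonneg (x.2 - y.2)]
      apply h
      have h6 := pow_eq_zero_iff (two_ne_zero) |>.1 h4
      have h7 := pow_eq_zero_iff (two_ne_zero) |>.1 h5
      apply Prod.ext <;> omega
    exact_mod_cast h3
  rw [← h1] at h2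
  have := norm_nonneg (posS x - posS y)
  nlinarith

theorem place_sq : Place Q78.UR.Sq.A posS :=
  ⟨sepS, fun x y h => (adjS x y).1 h⟩

theorem place_tri : Place Tri.A Q294.Av.posT :=
  ⟨Q294.Av.sepT, fun x y h => (Q294.Av.adjT x y).1 h⟩

theorem place_hex : Place Hex.A Q294.Av.posH :=
  ⟨Q294.Av.sepH, fun x y h => (Q294.Av.adjH x y).1 h⟩

theorem growth_tri : ∃ μ K : ℝ, Growth Tri.rule μ K := by
  obtain ⟨_, K, G⟩ := TH966.AK.tri_growth _ (fun n => rfl) _ rfl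
  exact ⟨_, K, G⟩

theorem growth_hex : ∃ μ K : ℝ, Growth Hex.rule μ K := by
  obtain ⟨_, K, G⟩ := TH966.AK.hex_growth _ (fun n => rfl)
  exact ⟨_, K, G⟩

end

end Q68.PL
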