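import Pool.Agent.Q38.RL.Abs

set_option autoImplicit false

/-!
# Walks on planar lattices: the two end pieces and the middle piece
-/

namespace Q68.PL

open Finset Filter Topology TH966.AK Q294.Rs Q38.RL
open scoped Classical

variable {A : P → P → Prop}

/-- the relation for the middle piece, moved back by `φ` -/
def Rm (D : Set P) (η σ : List P) (φ : P ≃ P) (e x : P) : Prop :=
  σ.head? = some (φ e) ∧ φ x ∈ D ∧ φ x ∉ η.dropLast ∧ φ x ∉ σ.tail ∧
    (∀ y ∈ η, y ∈ D) ∧ (∀ y ∈ σ, y ∈ D) ∧ ∀ y ∈ η.dropLast, y ∉ σ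

/-- the last piece -/
noncomputable def sg (H : Hom A) (x : List P × P × List P) : List P := x.2.2.map (mot H x.2.1)

/-- concatenation -/
noncomputable def cat (H : Hom A) (x : List P × P × List P) (u : List P) : List P :=
  x.1.dropLast ++ (u.map (mot H (lst x.1)) ++ (sg H x).tail)

theorem cat_props (Z : Rule A) (H : Hom A) (D : Set P) {k j k' : ℕ} {x : List P × P × List P}
    {u : List P} (hη : x.1 ∈ Kw A k) (hτ : x.2.2 ∈ Kw A k')
    (hu : u ∈ KR A (Rm D x.1 (sg H x) (mot H (lst x.1))) j) :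
    cat H x u ∈ KD A D (k + (j + k')) ∧ (cat H x u).take (k + 1) = x.1 ∧
      (cat H x u).drop (k + j) = sg H x ∧
      ((cat H x u).drop k).take (j + 1) = u.map (mot H (lst x.1)) := by
  obtain ⟨η, e, τ⟩ := x
  simp only at hη hτ hu ⊢
  obtain ⟨φ, hφ⟩ : ∃ φ, φ = mot H (lst η) := ⟨_, rfl⟩
  obtain ⟨ψ, hψ⟩ : ∃ ψ, ψ = mot H e := ⟨_, rfl⟩
  have hφ0 : φ 0 = lst η := by rw [hφ]; exact mot_zero H _
  have hψ0 : ψ 0 = e := by rw [hψ]; exact mot_zero H _
  have hφA : ∀ p q, A (φ p) (φ q) ↔ A p q := by rw [hφ]; exact mot_adj H _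
  have hψA : ∀ p q, A (ψ p) (ψ q) ↔ A p q := by rw [hψ]; exact mot_adj H _
  have hsg : sg H (η, e, τ) = τ.map ψ := by unfold sg; rw [hψ]
  have hcat : cat H (η, e, τ) u = η.dropLast ++ (u.map φ ++ (τ.map ψ).tail) := by
    unfold cat
    rw [hsg, hφ]
  rw [hcat, hsg, ← hφ]
  rw [hsg, ← hφ] at hu
  rw [mem_KR, Z.mem_K] at hu
  rw [Z.mem_K] at hη hτ
  obtain ⟨⟨u1, u2, u3, u4⟩, hR⟩ := hu
  obtain ⟨e1, e2, e3, e4⟩ := hη
  obtain ⟨t1, t2, t3, t4⟩ := hτ
  have hηne : η ≠ [] := by rintro rfl; simp at e1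
  have hune : u ≠ [] := by rintro rfl; simp at u1
  obtain ⟨a, ha⟩ : ∃ a, a = η.dropLast := ⟨_, rfl⟩
  obtain ⟨p, hp⟩ : ∃ p, p = lst η := ⟨_, rfl⟩
  have hηd : η = a ++ [p] := by rw [ha, hp]; exact dropLast_lst hηne
  have hal : a.length = k := by
    have := congrArg List.length hηd
    rw [List.length_append, List.length_singleton] at this
    omega
  obtain ⟨v, hv⟩ : ∃ v, v = u.dropLast := ⟨_, rfl⟩
  obtain ⟨z, hz⟩ : ∃ z, z = lst u := ⟨_, rfl⟩
  have hud : u = v ++ [z] := by rw [hv, hz]; exact dropLast_lst hune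
  have hvl : v.length = j := by
    have := congrArg List.length hud
    rw [List.length_append, List.length_singleton] at this
    omega
  obtain ⟨x0, t, hut⟩ := List.exists_cons_of_length_eq_add_one u1
  have hx0 : x0 = 0 := by
    rw [hut, List.head?_cons, Option.some.injEq] at u2
    exact u2
  rw [hx0] at hut
  obtain ⟨y0, b, hτb⟩ := List.exists_cons_of_length_eq_add_one t1
  have hy0 : y0 = 0 := by
    rw [hτb, List.head?_cons, Option.some.injEq] at t2
    exact t2
  rw [hy0] at hτb
  have hbl : b.length = k' := by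
    rw [hτb, List.length_cons] at t1
    omega
  have hσ : τ.map ψ = e :: b.map ψ := by rw [hτb, List.map_cons, hψ0]
  have hum : u.map φ = p :: t.map φ := by rw [hut, List.map_cons, hφ0, ← hp]
  have hum2 : u.map φ = v.map φ ++ [φ z] := by rw [hud, List.map_append]; rfl
  have h0u : (0 : P) ∈ u := by rw [hut]; simp
  have hze : φ z = e := by
    have := (hR 0 h0u).1
    rw [hσ, List.head?_cons, Option.some.injEq, ← hz] at this
    exact this.symm
  rw [← ha, hσ, List.tail_cons]
  have hw1 : a ++ (u.map φ ++ b.map ψ) = η ++ (t.map φ ++ b.map ψ) := by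
    rw [hum, hηd]; simp
  have hw2 : a ++ (u.map φ ++ b.map ψ) = (a ++ v.map φ) ++ (e :: b.map ψ) := by
    rw [hum2, hze]; simp
  refine ⟨?_, ?_, ?_, ?_⟩
  · unfold KD
    rw [mem_filter, Z.mem_K]
    refine ⟨⟨?_, ?_, ?_, ?_⟩, ?_⟩
    · rw [List.length_append, List.length_append, List.length_map, List.length_map, hal, u1, hbl]
      omega
    · rw [hw1, List.head?_append_of_ne_nil _ hηne, e2]
    · have n1 : a.Nodup := e3.sublist (by rw [hηd]; exact List.sublist_append_left _ _)
      have n2 : (u.map φ).Nodup := (List.nodup_map_iff φ.injective).2 u3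
      have n3 : (b.map ψ).Nodup := by
        have : (τ.map ψ).Nodup := (List.nodup_map_iff ψ.injective).2 t3
        rw [hσ] at this
        exact (List.nodup_cons.1 this).2
      rw [List.nodup_append, List.nodup_append]
      refine ⟨n1, ⟨n2, n3, ?_⟩, ?_⟩
      · intro c hc d hd hcd
        subst hcd
        rw [List.mem_map] at hc
        obtain ⟨y, hy, rfl⟩ := hc
        have := (hR y hy).2.2.2.1
        rw [hσ, List.tail_cons] at this
        exact this hd
      · intro c hc d hd hcd
        subst hcd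
        rw [List.mem_append] at hd
        rcases hd with hd | hd
        · rw [List.mem_map] at hd
          obtain ⟨y, hy, rfl⟩ := hd
          have := (hR y hy).2.2.1
          rw [← ha] at this
          exact this hc
        · have := (hR 0 h0u).2.2.2.2.2.2 c (by rw [← ha]; exact hc)
          rw [hσ] at this
          exact this (List.mem_cons_of_mem _ hd)
    · have c1 : (a ++ [p]).IsChain A := by rw [← hηd]; exact e4
      have c2 : (u.map φ).IsChain A := by
        rw [List.isChain_map]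
        exact u4.imp fun a b hab => (hφA a b).2 hab
      have c3 : (τ.map ψ).IsChain A := by
        rw [List.isChain_map]
        exact t4.imp fun a b hab => (hψA a b).2 hab
      have e5 : a ++ (u.map φ ++ b.map ψ) = a ++ p :: (t.map φ ++ b.map ψ) := by
        rw [hum]; simp
      rw [e5, List.isChain_split]
      refine ⟨c1, ?_⟩
      have e6 : p :: (t.map φ ++ b.map ψ) = v.map φ ++ e :: b.map ψ := by
        have : p :: (t.map φ ++ b.map ψ) = u.map φ ++ b.map ψ := by rw [hum]; simp
        rw [this, hum2, hze]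
        simp
      rw [e6, List.isChain_split]
      refine ⟨?_, by rw [← hσ]; exact c3⟩
      rw [← hze, ← hum2]
      exact c2
    · intro y hy
      rw [List.mem_append, List.mem_append] at hy
      rcases hy with hy | hy | hy
      · refine (hR 0 h0u).2.2.2.2.1 y ?_
        rw [hηd]
        exact List.mem_append_left _ hy
      · rw [List.mem_map] at hy
        obtain ⟨y', hy', rfl⟩ := hy
        exact (hR y' hy').2.1
      · refine (hR 0 h0u).2.2.2.2.2.1 y ?_
        rw [hσ]
        exact List.mem_cons_of_mem _ hy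
  · rw [hw1, ← e1, List.take_left']
    rfl
  · rw [hw2]
    have : (a ++ v.map φ).length = k + j := by
      rw [List.length_append, List.length_map, hal, hvl]
    rw [← this, List.drop_left']
    rfl
  · rw [← hal, List.drop_left', List.take_left']
    · rw [List.length_map, u1]
    · rfl

theorem take_eq {w : List P} {k : ℕ} (h : k < w.length) :
    w.take (k + 1) = w.take k ++ [w[k]] := by
  rw [List.take_add_one, List.getElem?_eq_getElem h]
  rfl

/-- the pieces of a walk -/
noncomputable def pcs (H : Hom A) (k j : ℕ) (w : List P) : (List P × P × List P) × List P :=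
  ((w.take (k + 1), w.getD (k + j) 0, (w.drop (k + j)).map (mot H (w.getD (k + j) 0)).symm),
    ((w.drop k).take (j + 1)).map (mot H (lst (w.take (k + 1)))).symm)

theorem pcs_props (Z : Rule A) (H : Hom A) (D : Set P) {k j k' : ℕ} {w : List P}
    (hw : w ∈ KD A D (k + (j + k'))) :
    (pcs H k j w).1.1 ∈ Kw A k ∧ (pcs H k j w).1.2.1 ∈ box 0 (k + j) ∧
      (pcs H k j w).1.2.2 ∈ Kw A k' ∧ sg H (pcs H k j w).1 = w.drop (k + j) ∧
      (pcs H k j w).2 ∈ KR A (Rm D (pcs H k j w).1.1 (sg H (pcs H k j w).1)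
        (mot H (lst (pcs H k j w).1.1))) j ∧ cat H (pcs H k j w).1 (pcs H k j w).2 = w := by
  unfold KD at hw
  rw [mem_filter] at hw
  obtain ⟨hwK, hD⟩ := hw
  have hwK' := hwK
  rw [Z.mem_K] at hwK'
  obtain ⟨l1, l2, l3, l4⟩ := hwK'
  have hk : k < w.length := by omega
  have hkj : k + j < w.length := by omega
  obtain ⟨p, hp⟩ : ∃ p, p = w[k] := ⟨_, rfl⟩
  obtain ⟨q, hq⟩ : ∃ q, q = w[k + j] := ⟨_, rfl⟩
  have hgd : w.getD (k + j) 0 = q := by rw [List.getD_eq_getElem _ _ hkj, hq]
  obtain ⟨η, hη⟩ : ∃ η, η = w.take (k + 1) := ⟨_, rfl⟩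
  have hηd : η = w.take k ++ [p] := by rw [hη, hp]; exact take_eq hk
  have hlst : lst η = p := by rw [hηd, lst_concat]
  have hdl : η.dropLast = w.take k := by rw [hηd, List.dropLast_concat]
  obtain ⟨φ, hφ⟩ : ∃ φ, φ = mot H p := ⟨_, rfl⟩
  obtain ⟨ψ, hψ⟩ : ∃ ψ, ψ = mot H q := ⟨_, rfl⟩
  have hφ0 : φ 0 = p := by rw [hφ]; exact mot_zero H _
  have hψ0 : ψ 0 = q := by rw [hψ]; exact mot_zero H _
  have hφA : ∀ p q, A (φ p) (φ q) ↔ A p q := by rw [hφ]; exact mot_adj H _
  have hψA : ∀ p q, A (ψ p) (ψ q) ↔ A p q := by rw [hψ]; exact mot_adj H _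
  have hpcs : pcs H k j w = ((η, q, (w.drop (k + j)).map ψ.symm),
      ((w.drop k).take (j + 1)).map φ.symm) := by
    unfold pcs
    rw [← hη, hgd, hlst, hφ, hψ]
  have hmapψ : ∀ l : List P, (l.map ψ.symm).map ψ = l := by
    intro l; rw [List.map_map]; simp
  have hmapφ : ∀ l : List P, (l.map φ.symm).map φ = l := by
    intro l; rw [List.map_map]; simp
  have hsg : sg H (η, q, (w.drop (k + j)).map ψ.symm) = w.drop (k + j) := by
    unfold sg
    simp only
    rw [← hψ, hmapψ]
  rw [hpcs]
  simp only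
  rw [hsg, hlst, ← hφ]
  obtain ⟨m, hm⟩ : ∃ m, m = (w.drop k).take (j + 1) := ⟨_, rfl⟩
  have hml : m.length = j + 1 := by rw [hm, List.length_take, List.length_drop]; omega
  have hdk : w.drop k = m ++ w.drop (k + j + 1) := by
    rw [hm]
    conv_lhs => rw [← List.take_append_drop (j + 1) (w.drop k)]
    rw [List.drop_drop, ← add_assoc]
  have hwa : w = w.take k ++ (m ++ w.drop (k + j + 1)) := by
    rw [← hdk, List.take_append_drop]
  have hdq : w.drop (k + j) = q :: w.drop (k + j + 1) := by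
    rw [hq]; exact List.drop_eq_getElem_cons hkj
  have hmh : m.head? = some p := by
    rw [hm, List.head?_take, if_neg (by omega), List.head?_drop, List.getElem?_eq_getElem hk, hp]
  have hmls : lst m = q := by
    have h1 : m = (w.drop k).take j ++ [q] := by
      rw [hm, take_eq (by rw [List.length_drop]; omega), List.getElem_drop, hq]
    rw [h1, lst_concat]
  have hmne : m ≠ [] := by rintro rfl; simp at hml
  have hmw : ∀ x ∈ m, x ∈ w := by
    intro x hx
    rw [hwa]
    exact List.mem_append_right _ (List.mem_append_left _ hx)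
  have hnd := l3
  rw [hwa, List.nodup_append, List.nodup_append] at hnd
  obtain ⟨n1, ⟨n2, n3, n4⟩, n5⟩ := hnd
  refine ⟨?_, ?_, ?_, ?_, ?_, ?_⟩
  · rw [hη]
    exact take_mem Z (m := j + k') hwK
  · have h1 : w.take (k + j + 1) ∈ Kw A (k + j) := take_mem Z (m := k') (by
      rw [show k + j + k' = k + (j + k') by ring]; exact hwK)
    unfold Kw at h1
    rw [mem_filter, mem_lists] at h1
    refine h1.1.2 q ?_
    rw [take_eq hkj, ← hq]
    simp
  · rw [Z.mem_K]
    refine ⟨?_, ?_, ?_, ?_⟩
    · rw [List.length_map, List.length_drop]; omega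
    · rw [hdq, List.map_cons, List.head?_cons, ← hψ0, Equiv.symm_apply_apply]
    · exact (List.nodup_map_iff ψ.symm.injective).2 (l3.sublist (List.drop_sublist _ _))
    · rw [List.isChain_map]
      refine (l4.drop (k + j)).imp fun a b hab => ?_
      rw [← hψA, Equiv.apply_symm_apply, Equiv.apply_symm_apply]
      exact hab
  · trivial
  · rw [mem_KR, Z.mem_K]
    have hmc : m.IsChain A := by rw [hm]; exact (l4.drop k).take _
    refine ⟨⟨?_, ?_, ?_, ?_⟩, ?_⟩
    · rw [← hm, List.length_map, hml]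
    · rw [← hm, List.head?_map, hmh, Option.map_some, ← hφ0, Equiv.symm_apply_apply]
    · rw [← hm]; exact (List.nodup_map_iff φ.symm.injective).2 n2
    · rw [← hm, List.isChain_map]
      refine hmc.imp fun a b hab => ?_
      rw [← hφA, Equiv.apply_symm_apply, Equiv.apply_symm_apply]
      exact hab
    · intro x hx
      rw [← hm, List.mem_map] at hx
      obtain ⟨y, hy, rfl⟩ := hx
      rw [← hm, lst_map hmne]
      unfold Rm
      rw [Equiv.apply_symm_apply, Equiv.apply_symm_apply, hmls, hdl]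
      refine ⟨?_, hD y (hmw y hy), ?_, ?_, ?_, ?_, ?_⟩
      · rw [hdq, List.head?_cons]
      · intro hc
        exact n5 y hc y (List.mem_append_left _ hy) rfl
      · rw [hdq, List.tail_cons]
        intro hc
        exact n4 y hy y hc rfl
      · intro x hx
        rw [hη] at hx
        exact hD x (List.mem_of_mem_take hx)
      · intro x hx
        exact hD x (List.mem_of_mem_drop hx)
      · intro x hx hx'
        have h1 := l3
        have h2 : w = w.take k ++ w.drop k := (List.take_append_drop _ _).symm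
        rw [h2, List.nodup_append] at h1
        refine h1.2.2 x hx x ?_ rfl
        have h3 : w.drop (k + j) = (w.drop k).drop j := by rw [List.drop_drop]
        rw [h3] at hx'
        exact List.mem_of_mem_drop hx'
  · unfold cat
    rw [hsg]
    simp only
    rw [hlst, ← hφ, hdl, hmapφ, ← hm, hdq, List.tail_cons]
    exact hwa.symm

noncomputable section

/-- the index set -/
def Ix (A : P → P → Prop) (k k' L : ℕ) : Finset (List P × P × List P) :=
  Kw A k ×ˢ (box 0 L ×ˢ Kw A k')

theorem mem_Ix {k k' L : ℕ} {x : List P × P × List P} :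
    x ∈ Ix A k k' L ↔ x.1 ∈ Kw A k ∧ x.2.1 ∈ box 0 L ∧ x.2.2 ∈ Kw A k' := by
  unfold Ix
  rw [mem_product, mem_product]

theorem card_Ix (k k' L : ℕ) : ((Ix A k k' L).card : ℝ) =
    (Kw A k).card * ((2 * (L : ℝ) + 1) ^ 2 * (Kw A k').card) := by
  unfold Ix
  rw [card_product, card_product, card_box]
  push_cast
  ring

/-- the number of middle pieces -/
def gn (H : Hom A) (D : Set P) (x : List P × P × List P) (j : ℕ) : ℝ :=
  ((KR A (Rm D x.1 (sg H x) (mot H (lst x.1))) j).card : ℝ)

theorem gn_nonneg (H : Hom A) (D : Set P) (x : List P × P × List P) (j : ℕ) :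
    0 ≤ gn H D x j := Nat.cast_nonneg _

/-- weighted numbers of walks -/
def AF (A : P → P → Prop) (D : Set P) (k k' j : ℕ) (f : List P → List P → ℝ) : ℝ :=
  ∑ w ∈ KD A D (k + (j + k')), f (w.take (k + 1)) (w.drop (k + j))

theorem box_mono {L L' : ℕ} (h : L ≤ L') : box 0 L ⊆ box 0 L' := by
  intro y hy
  rw [mem_box] at hy ⊢
  have : (L : ℤ) ≤ L' := by exact_mod_cast h
  exact ⟨hy.1.trans this, hy.2.trans this⟩

theorem map_symm_map (φ : P ≃ P) (l : List P) : (l.map φ).map φ.symm = l := by
  rw [List.map_map]; simp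

/-- **decomposition** -/
theorem AF_eq (Z : Rule A) (H : Hom A) (D : Set P) (k k' j L : ℕ) (hL : k + j ≤ L)
    (f : List P → List P → ℝ) :
    AF A D k k' j f = ∑ x ∈ Ix A k k' L, f x.1 (sg H x) * gn H D x j := by
  have e1 : ∑ x ∈ Ix A k k' L, f x.1 (sg H x) * gn H D x j =
      ∑ x ∈ Ix A k k' L, ∑ _u ∈ KR A (Rm D x.1 (sg H x) (mot H (lst x.1))) j, f x.1 (sg H x) := by
    refine sum_congr rfl fun x _ => ?_
    rw [sum_const, nsmul_eq_mul, mul_comm]
    rfl
  unfold AF
  rw [e1, sum_sigma']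
  refine sum_bij' (fun w _ => (⟨(pcs H k j w).1, (pcs H k j w).2⟩ :
      (_ : List P × P × List P) × List P)) (fun x _ => cat H x.1 x.2) ?_ ?_ ?_ ?_ ?_
  · intro w hw
    obtain ⟨h1, h2, h3, -, h5, -⟩ := pcs_props Z H D hw
    rw [mem_sigma, mem_Ix]
    exact ⟨⟨h1, box_mono hL h2, h3⟩, h5⟩
  · rintro ⟨x, u⟩ hx
    rw [mem_sigma, mem_Ix] at hx
    exact (cat_props Z H D hx.1.1 hx.1.2.2 hx.2).1
  · intro w hw
    exact (pcs_props Z H D hw).2.2.2.2.2
  · rintro ⟨x, u⟩ hx
    rw [mem_sigma, mem_Ix] at hx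
    obtain ⟨⟨hx1, hx2, hx3⟩, hu⟩ := hx
    simp only at hx1 hx2 hx3 hu
    obtain ⟨h1, h2, h3, h4⟩ := cat_props Z H D hx1 hx3 hu
    have hne : x.2.2 ≠ [] := by
      rw [Z.mem_K] at hx3
      intro hc
      rw [hc] at hx3
      simp at hx3
    have hq : (cat H x u).getD (k + j) 0 = x.2.1 := by
      have a1 : (cat H x u).getD (k + j) 0 = ((cat H x u).drop (k + j)).getD 0 0 := by
        rw [List.getD_eq_getElem?_getD, List.getD_eq_getElem?_getD, List.getElem?_drop, add_zero]
      rw [a1, h3]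
      unfold sg
      rw [Z.mem_K] at hx3
      obtain ⟨y0, b, hb⟩ := List.exists_cons_of_length_eq_add_one hx3.1
      have hy0 : y0 = 0 := by
        have := hx3.2.1
        rw [hb, List.head?_cons, Option.some.injEq] at this
        exact this
      rw [hb, hy0, List.map_cons, mot_zero]
      rfl
    have hpc : pcs H k j (cat H x u) = (x, u) := by
      unfold pcs
      rw [h2, h3, h4, hq, map_symm_map]
      unfold sg
      rw [map_symm_map]
    simp only [hpc]
  · intro w hw
    obtain ⟨-, -, -, h4, -, -⟩ := pcs_props Z H D hw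
    simp only
    rw [h4]
    rfl

end

end Q68.PL
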