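import Pool.Agent.Q68.PL.Mean
import Pool.Agent.Q38.RL.Fun
import Pool.Agent.Q78.UR.Sq

set_option autoImplicit false

/-!
# Planar lattices, two ends: walks as functions
-/

namespace Q68.PL

open Finset Filter Topology TH966.KS TH966.KO TH966.AK Q294.Rs Q38.RL
open scoped Classical

variable {A : P → P → Prop} {Z : Rule A} {μ K : ℝ}

theorem hom_sq : Hom Q78.UR.Sq.A := by
  intro v
  refine ⟨Equiv.addLeft v, by simp, fun p q => ?_⟩
  unfold Q78.UR.Sq.A
  simp only [Equiv.coe_addLeft, add_sub_add_left_eq_sub]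

noncomputable section

/-- the site at time `t` -/
def ex {n : ℕ} (ω : Fin (n + 1) → ℤ × ℤ) (t : ℕ) : ℤ × ℤ := ω ⟨min t n, by omega⟩

theorem ex_list {n : ℕ} (ω : Fin (n + 1) → ℤ × ℤ) {t : ℕ} (h : t ≤ n) :
    ex ω t = (List.ofFn ω).getD t 0 := by
  unfold ex
  rw [List.getD_eq_getElem _ _ (by rw [List.length_ofFn]; omega), List.getElem_ofFn]
  congr 1
  apply Fin.ext
  show min t n = t
  omega

theorem image_wD (Z : Rule A) (D : Set P) (n : ℕ) :
    List.ofFn '' wD A D n = (KD A D n : Set (List P)) := by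
  ext w
  unfold KD
  rw [Finset.mem_coe, mem_filter, ← Finset.mem_coe, ← image_wks Z, Set.mem_image, Set.mem_image]
  constructor
  · rintro ⟨ω, hω, rfl⟩
    rw [mem_wD] at hω
    refine ⟨⟨ω, hω.1, rfl⟩, fun x hx => ?_⟩
    rw [List.mem_ofFn] at hx
    obtain ⟨i, rfl⟩ := hx
    exact hω.2 i
  · rintro ⟨⟨ω, hω, rfl⟩, hD⟩
    refine ⟨ω, ?_, rfl⟩
    rw [mem_wD]
    exact ⟨hω, fun i => hD _ (by rw [List.mem_ofFn]; exact ⟨i, rfl⟩)⟩

/-- sums over walks -/
theorem sum_wD (Z : Rule A) (D : Set P) (n : ℕ) (g : (Fin (n + 1) → ℤ × ℤ) → ℝ) (g' : List P → ℝ)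
    (h : ∀ ω ∈ wD A D n, g ω = g' (List.ofFn ω)) :
    ∑ᶠ ω ∈ wD A D n, g ω = ∑ w ∈ KD A D n, g' w := by
  rw [← finsum_mem_coe_finset, ← image_wD Z,
    finsum_mem_image (List.ofFn_injective.injOn)]
  exact finsum_mem_congr rfl h

/-- the mean over the walks in a domain -/
def mean (A : P → P → Prop) (D : Set P) (n : ℕ) (g : (Fin (n + 1) → ℤ × ℤ) → ℝ) : ℝ :=
  (∑ᶠ ω ∈ wD A D n, g ω) / ((wD A D n).ncard : ℝ)

/-- a function of the first `k` and the last `k'` steps -/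
def two (n k k' : ℕ) (F : (Fin (k + 1) → ℤ × ℤ) → (Fin (k' + 1) → ℤ × ℤ) → ℝ)
    (ω : Fin (n + 1) → ℤ × ℤ) : ℝ := F (fun t => ex ω t) (fun t => ex ω (n - k' + t))

/-- the same on lists -/
def lft (k k' : ℕ) (F : (Fin (k + 1) → ℤ × ℤ) → (Fin (k' + 1) → ℤ × ℤ) → ℝ)
    (a b : List P) : ℝ := F (fun t => a.getD t 0) (fun t => b.getD t 0)

theorem two_lft {n k k' j : ℕ} (hn : k + (j + k') = n)
    (F : (Fin (k + 1) → ℤ × ℤ) → (Fin (k' + 1) → ℤ × ℤ) → ℝ) (ω : Fin (n + 1) → ℤ × ℤ) :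
    two n k k' F ω = lft k k' F ((List.ofFn ω).take (k + 1)) ((List.ofFn ω).drop (k + j)) := by
  unfold two lft
  congr 1
  · funext t
    rw [ex_list ω (by omega), List.getD_eq_getElem?_getD, List.getD_eq_getElem?_getD,
      List.getElem?_take, if_pos t.2]
  · funext t
    rw [ex_list ω (by omega), List.getD_eq_getElem?_getD, List.getD_eq_getElem?_getD,
      List.getElem?_drop]
    congr 2
    omega

theorem sum_two (Z : Rule A) (D : Set P) {n k k' j : ℕ} (hn : k + (j + k') = n)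
    (F : (Fin (k + 1) → ℤ × ℤ) → (Fin (k' + 1) → ℤ × ℤ) → ℝ) :
    ∑ᶠ ω ∈ wD A D n, two n k k' F ω = AF A D k k' j (lft k k' F) := by
  subst hn
  rw [sum_wD Z D _ _ (fun w => lft k k' F (w.take (k + 1)) (w.drop (k + j)))
    (fun ω _ => two_lft rfl F ω)]
  rfl

theorem mean_two (Z : Rule A) (D : Set P) {n k k' j : ℕ} (hn : k + (j + k') = n)
    (F : (Fin (k + 1) → ℤ × ℤ) → (Fin (k' + 1) → ℤ × ℤ) → ℝ) :
    mean A D n (two n k k' F) = mA A D k k' j (lft k k' F) := by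
  unfold mean mA
  rw [sum_two Z D hn, ← card_KD Z, hn]

/-- the mean of a function of the piece between the times `i` and `i + r` -/
def mp (A : P → P → Prop) (n i r : ℕ) (F : (Fin (r + 1) → ℤ × ℤ) → ℝ) : ℝ :=
  mean A Set.univ n (fun ω => F (fun t => ex ω (i + t)))

theorem mp_suf (Z : Rule A) {n m i r : ℕ} (hn : i + m = n) (h : r ≤ m)
    (F : (Fin (r + 1) → ℤ × ℤ) → ℝ) :
    mp A n i r F = mA A Set.univ 0 m i (lft 0 m (fun _ z => F (fun t => z ⟨t, by omega⟩))) := by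
  rw [← mean_two (n := n) Z Set.univ (by omega)]
  unfold mp two
  congr 1
  funext ω
  congr 1
  funext t
  congr 1
  simp only
  omega

theorem mp_pre (Z : Rule A) {n j i r : ℕ} (hn : i + r + j = n) (F : (Fin (r + 1) → ℤ × ℤ) → ℝ) :
    mp A n i r F =
      mA A Set.univ (i + r) 0 j (lft (i + r) 0 (fun x _ => F (fun t => x ⟨i + t, by omega⟩))) := by
  rw [← mean_two (n := n) Z Set.univ (by omega)]
  rfl

/-- **time shifts** -/
theorem shift (G : Growth Z μ K) (H : Hom A) : ∃ C : ℝ, 0 < C ∧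
    ∀ n i r l : ℕ, 1 ≤ i → i + Z.s * l + r < n → ∀ F : (Fin (r + 1) → ℤ × ℤ) → ℝ,
    (∀ x, |F x| ≤ 1) →
    |mp A n (i + Z.s * l) r F - mp A n i r F| ≤
      C * l * Real.log ((n : ℝ) + 2) * (1 / √(i : ℝ) + 1 / √((n : ℝ) - i - Z.s * l - r)) := by
  obtain ⟨C, hC, hU⟩ := absU G H
  refine ⟨C, hC, fun n i r l hi hn F hF => ?_⟩
  obtain ⟨j, hj⟩ : ∃ j, i + Z.s * l + r + j = n := ⟨n - (i + Z.s * l + r), by omega⟩
  have hjR : (j : ℝ) = (n : ℝ) - i - Z.s * l - r := by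
    have : ((i + Z.s * l + r + j : ℕ) : ℝ) = n := by exact_mod_cast hj
    push_cast at this
    linarith
  rw [← hjR]
  obtain ⟨m, hm⟩ : ∃ m, i + m = n := ⟨n - i, by omega⟩
  have a1 := hU 0 m i l hi (lft 0 m (fun _ z => F (fun t => z ⟨t, by omega⟩)))
    (fun a b => hF _)
  have a2 := hU (i + Z.s * l + r) 0 j l (by omega)
    (lft (i + Z.s * l + r) 0 (fun x _ => F (fun t => x ⟨i + Z.s * l + t, by omega⟩)))
    (fun a b => hF _)
  rw [← mp_suf (n := n + Z.s * l) Z (by omega) (by omega), ← mp_suf (n := n) Z hm (by omega),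
    show 0 + (i + m) = n by omega] at a1
  rw [← mp_pre (n := n + Z.s * l) Z (by omega), ← mp_pre (n := n) Z (by omega),
    show i + Z.s * l + r + (j + 0) = n by omega] at a2
  have e : mp A n (i + Z.s * l) r F - mp A n i r F =
      (mp A (n + Z.s * l) (i + Z.s * l) r F - mp A n i r F) -
      (mp A (n + Z.s * l) (i + Z.s * l) r F - mp A n (i + Z.s * l) r F) := by ring
  rw [e]
  refine (abs_sub _ _).trans ((add_le_add a1 a2).trans (le_of_eq ?_))
  ring

/-- longer walks -/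
theorem longer (G : Growth Z μ K) (H : Hom A) : ∃ C : ℝ, 0 < C ∧
    ∀ n i r l : ℕ, i + r < n → ∀ F : (Fin (r + 1) → ℤ × ℤ) → ℝ,
    (∀ x, |F x| ≤ 1) →
    |mp A (n + Z.s * l) i r F - mp A n i r F| ≤
      C * l * Real.log ((n : ℝ) + 2) / √((n : ℝ) - i - r) := by
  obtain ⟨C, hC, hU⟩ := absU G H
  refine ⟨C, hC, fun n i r l hn F hF => ?_⟩
  obtain ⟨j, hj⟩ : ∃ j, i + r + j = n := ⟨n - (i + r), by omega⟩
  have hjR : (j : ℝ) = (n : ℝ) - i - r := by
    have : ((i + r + j : ℕ) : ℝ) = n := by exact_mod_cast hj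
    push_cast at this
    linarith
  rw [← hjR]
  have a2 := hU (i + r) 0 j l (by omega)
    (lft (i + r) 0 (fun x _ => F (fun t => x ⟨i + t, by omega⟩))) (fun a b => hF _)
  rw [← mp_pre (n := n + Z.s * l) Z (by omega), ← mp_pre (n := n) Z (by omega),
    show i + r + (j + 0) = n by omega] at a2
  refine a2.trans (le_of_eq ?_)
  ring

end

end Q68.PL
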