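import Pool.Agent.Q68.PL.Dec
import Pool.Agent.TH966.KO.Prop

set_option autoImplicit false

/-!
# Planar lattices, two ends: the weighted form of Kesten's inequality
-/

namespace Q68.PL

open Finset Filter Topology TH966.AK Q294.Rs Q38.RL
open scoped Classical

variable {A : P → P → Prop} {Z : Rule A} {μ K : ℝ}

noncomputable section

/-- the square of the logarithm -/
def La (n : ℕ) : ℝ := Real.log ((n : ℝ) + 2) ^ 2

theorem log_ge (n : ℕ) : Real.log 2 ≤ Real.log ((n : ℝ) + 2) := by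
  apply Real.log_le_log (by norm_num)
  have : (0 : ℝ) ≤ n := Nat.cast_nonneg n
  linarith

theorem log2_pos : 0 < Real.log 2 := Real.log_pos (by norm_num)

theorem La_ge (n : ℕ) : Real.log 2 ^ 2 ≤ La n := pow_le_pow_left₀ log2_pos.le (log_ge n) 2

theorem La_pos (n : ℕ) : 0 < La n := lt_of_lt_of_le (pow_pos log2_pos 2) (La_ge n)

theorem La_mono {m n : ℕ} (h : m ≤ n) : La m ≤ La n := by
  unfold La
  refine pow_le_pow_left₀ (log2_pos.le.trans (log_ge m)) (Real.log_le_log (by positivity) ?_) 2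
  have : (m : ℝ) ≤ n := by exact_mod_cast h
  linarith

/-- a constant is at most a multiple of `La` -/
theorem const_le {B : ℝ} (hB : 1 ≤ B) (n : ℕ) :
    B ≤ Real.exp (Real.log B / Real.log 2 ^ 2 * La n) := by
  have hlB : 0 ≤ Real.log B := Real.log_nonneg hB
  calc B = Real.exp (Real.log B) := (Real.exp_log (by linarith)).symm
    _ ≤ _ := by
      apply Real.exp_le_exp.2
      rw [div_mul_eq_mul_div, le_div_iff₀ (pow_pos log2_pos 2)]
      exact mul_le_mul_of_nonneg_left (La_ge n) hlB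

theorem lin_le (n : ℕ) : (n : ℝ) + 2 ≤ Real.exp (1 / Real.log 2 * La n) := by
  have h0 : (0 : ℝ) < (n : ℝ) + 2 := by positivity
  calc (n : ℝ) + 2 = Real.exp (Real.log ((n : ℝ) + 2)) := (Real.exp_log h0).symm
    _ ≤ _ := by
      apply Real.exp_le_exp.2
      rw [div_mul_eq_mul_div, one_mul, le_div_iff₀ log2_pos]
      unfold La
      rw [pow_two]
      exact mul_le_mul_of_nonneg_left (log_ge n) (log2_pos.le.trans (log_ge n))

/-- the numbers of walks -/
theorem cb (G : Growth Z μ K) : ∃ K' : ℝ, 0 ≤ K' ∧ ∀ n k : ℕ, k ≤ n →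
    ((Kw A k).card : ℝ) ≤ μ ^ k * Real.exp (K' * La n) := by
  have hμ := G.hμ
  obtain ⟨B, hB⟩ : ∃ B : ℝ, B = 1 + ((Kw A 0).card : ℝ) + ((Kw A 1).card : ℝ) := ⟨_, rfl⟩
  have hc0 : (0 : ℝ) ≤ ((Kw A 0).card : ℝ) := Nat.cast_nonneg _
  have hc1 : (0 : ℝ) ≤ ((Kw A 1).card : ℝ) := Nat.cast_nonneg _
  have hB1 : 1 ≤ B := by linarith
  have hlB : 0 ≤ Real.log B := Real.log_nonneg hB1
  have hK := G.hK
  refine ⟨K + Real.log B / Real.log 2 ^ 2, by positivity, fun n k hk => ?_⟩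
  have hL := La_pos n
  have h2 : 0 ≤ Real.log B / Real.log 2 ^ 2 * La n := by positivity
  have h3 : 0 ≤ K * La n := by positivity
  by_cases hk2 : 2 ≤ k
  · refine (G.up k hk2).trans (mul_le_mul_of_nonneg_left (Real.exp_le_exp.2 ?_) (by positivity))
    have hk' : (2 : ℝ) ≤ k := by exact_mod_cast hk2
    have h4 : Real.log k ^ 2 ≤ La n := by
      unfold La
      refine pow_le_pow_left₀ (Real.log_nonneg (by linarith)) (Real.log_le_log (by linarith) ?_) 2
      have : (k : ℝ) ≤ n := by exact_mod_cast hk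
      linarith
    have h5 := mul_le_mul_of_nonneg_left h4 hK
    rw [add_mul]
    linarith
  · have h1 : ((Kw A k).card : ℝ) ≤ B := by
      rw [hB]
      rcases Nat.lt_or_ge k 1 with h | h
      · have : k = 0 := by omega
        rw [this]; linarith
      · have : k = 1 := by omega
        rw [this]; linarith
    calc ((Kw A k).card : ℝ) ≤ 1 * B := by rw [one_mul]; exact h1
      _ ≤ μ ^ k * Real.exp ((K + Real.log B / Real.log 2 ^ 2) * La n) := by
        refine mul_le_mul (one_le_pow₀ hμ) ((const_le hB1 n).trans (Real.exp_le_exp.2 ?_))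
          (by linarith) (by positivity)
        rw [add_mul]
        linarith

theorem KD_all {D : Set P} (hD : ∀ x, x ∈ D) (n : ℕ) : KD A D n = Kw A n := by
  unfold KD
  ext w
  rw [mem_filter]
  exact ⟨fun h => h.1, fun h => ⟨h, fun x _ => hD x⟩⟩

theorem KD_univ (n : ℕ) : KD A Set.univ n = Kw A n := KD_all Set.mem_univ n

theorem AF_nonneg (D : Set P) (k k' j : ℕ) {f : List P → List P → ℝ} (hf : ∀ a b, 0 ≤ f a b) :
    0 ≤ AF A D k k' j f := sum_nonneg fun _ _ => hf _ _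

theorem AF_le (D : Set P) (k k' j : ℕ) {f : List P → List P → ℝ} {M : ℝ} (hM : 0 ≤ M)
    (hf : ∀ a b, f a b ≤ M) : AF A D k k' j f ≤ M * (Kw A (k + (j + k'))).card := by
  unfold AF
  refine (sum_le_sum fun w _ => hf _ _).trans ?_
  rw [sum_const, nsmul_eq_mul, mul_comm]
  refine mul_le_mul_of_nonneg_left ?_ hM
  exact_mod_cast card_le_card (filter_subset _ _)

/-- **the weighted form of Kesten's inequality** -/
theorem kesW (G : Growth Z μ K) (H : Hom A) : ∃ D1 θ1 C1 : ℝ, 0 ≤ D1 ∧ 0 < θ1 ∧ θ1 < 1 ∧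
    0 < C1 ∧ ∀ (D : Set P) (k k' j : ℕ) (ℓ : ℝ), 0 ≤ ℓ → C1 * (La (k + (j + k')) + ℓ) ≤ j →
    ∀ f : List P → List P → ℝ, (∀ a b, 0 ≤ f a b) → (∀ a b, f a b ≤ Real.exp ℓ) →
    μ ^ (k + (j + k') + Z.s) * θ1 ^ j ≤ AF A D k k' (j + Z.s) f →
    AF A D k k' (j + Z.s) f ^ 2 ≤
      AF A D k k' j f * AF A D k k' (j + Z.s + Z.s) f * (1 + D1 / j) := by
  obtain ⟨D0, θ, N, hD0, hθ0, hθ1, hN, hkes⟩ := kesR (loc_of G)
  obtain ⟨K', hK', hcb⟩ := cb G
  have hμ := G.hμ
  have hμ0 : 0 < μ := by linarith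
  obtain ⟨s, hs⟩ : ∃ s, s = Z.s := ⟨_, rfl⟩
  rw [← hs] at hkes ⊢
  obtain ⟨θ1, hθ1d⟩ : ∃ θ1, θ1 = √θ := ⟨_, rfl⟩
  have hθ10 : 0 < θ1 := by rw [hθ1d]; exact Real.sqrt_pos.2 hθ0
  have hθ11 : θ1 < 1 := by rw [hθ1d, Real.sqrt_lt' one_pos]; linarith
  have hθsq : θ1 ^ 2 = θ := by rw [hθ1d]; exact Real.sq_sqrt hθ0.le
  obtain ⟨c0, hc0⟩ : ∃ c0, c0 = -Real.log θ1 := ⟨_, rfl⟩
  have hc0p : 0 < c0 := by rw [hc0]; linarith [Real.log_neg hθ10 hθ11]
  obtain ⟨q, hq⟩ : ∃ q, q = 3 * (1 / Real.log 2) +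
      2 * (Real.log (4 * (s : ℝ) + 2) / Real.log 2 ^ 2) := ⟨_, rfl⟩
  have hs2 : (1 : ℝ) ≤ 4 * (s : ℝ) + 2 := by
    have : (0 : ℝ) ≤ s := Nat.cast_nonneg s
    linarith
  have hl2 := log2_pos
  have hq0 : 0 ≤ q := by
    have := Real.log_nonneg hs2
    rw [hq]; positivity
  obtain ⟨C1, hC1⟩ : ∃ C1, C1 = (1 + 2 * K' + q) / c0 + ((N : ℝ) + 4) / Real.log 2 ^ 2 := ⟨_, rfl⟩
  have hC10 : 0 < C1 := by rw [hC1]; positivity
  refine ⟨7 * D0 + 6, θ1, C1, by positivity, hθ10, hθ11, hC10,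
    fun D k k' j ℓ hℓ hj f hf0 hf1 hbig => ?_⟩
  obtain ⟨n, hnd⟩ : ∃ n, n = k + (j + k') := ⟨_, rfl⟩
  rw [← hnd] at hj hbig
  have hL := La_pos n
  have hLg := La_ge n
  -- the size of `j`
  have hj1 : (1 + 2 * K' + q) * (La n + ℓ) ≤ c0 * j := by
    have h1 : (1 + 2 * K' + q) / c0 * (La n + ℓ) ≤ j := by
      refine le_trans ?_ hj
      rw [hC1]
      refine mul_le_mul_of_nonneg_right ?_ (by positivity)
      have : 0 ≤ ((N : ℝ) + 4) / Real.log 2 ^ 2 := by positivity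
      linarith
    rw [div_mul_eq_mul_div, div_le_iff₀ hc0p] at h1
    linarith
  have hj2 : (N : ℝ) + 4 ≤ j := by
    have h1 : ((N : ℝ) + 4) / Real.log 2 ^ 2 * (La n + ℓ) ≤ j := by
      refine le_trans ?_ hj
      rw [hC1]
      refine mul_le_mul_of_nonneg_right ?_ (by positivity)
      have : 0 ≤ (1 + 2 * K' + q) / c0 := by positivity
      linarith
    refine le_trans ?_ h1
    have h2 : ((N : ℝ) + 4) / Real.log 2 ^ 2 * Real.log 2 ^ 2 ≤
        ((N : ℝ) + 4) / Real.log 2 ^ 2 * (La n + ℓ) := by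
      refine mul_le_mul_of_nonneg_left ?_ (by positivity)
      linarith
    rw [div_mul_cancel₀ _ (pow_pos hl2 2).ne'] at h2
    exact h2
  have hj4 : 4 ≤ j := by
    have h1 : (4 : ℝ) ≤ j := by
      have : (0 : ℝ) ≤ N := Nat.cast_nonneg N
      linarith
    exact_mod_cast h1
  have hNj : N ≤ j := by
    have h1 : (N : ℝ) ≤ j := by linarith
    exact_mod_cast h1
  have hjR : (4 : ℝ) ≤ j := by exact_mod_cast hj4
  have hj0 : (0 : ℝ) < j := by linarith
  obtain ⟨V, hV⟩ : ∃ V, V = Ix A k k' (k + j + s + s) := ⟨_, rfl⟩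
  obtain ⟨Gs, hG⟩ : ∃ Gs : Finset (List P × P × List P),
    Gs = V.filter (fun x => (θ * μ) ^ (j + s) ≤ gn H D x (j + s)) := ⟨_, rfl⟩
  have hGV : Gs ⊆ V := by rw [hG]; exact filter_subset _ _
  obtain ⟨X, hX⟩ : ∃ X, X = AF A D k k' (j + s) f := ⟨_, rfl⟩
  have hXb : μ ^ (n + s) * θ1 ^ j ≤ X := by rw [hX]; exact hbig
  have hX0 : 0 < X := lt_of_lt_of_le (by positivity) hXb
  -- the exceptional indices
  have hcard : (V.card : ℝ) ≤ μ ^ (k + k') * Real.exp ((2 * K' + q) * La n) / j := by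
    rw [hV, card_Ix]
    have hk := hcb n k (by omega)
    have hk' := hcb n k' (by omega)
    have h1 : (2 * ((k + j + s + s : ℕ) : ℝ) + 1) ≤ (4 * s + 2) * ((n : ℝ) + 2) := by
      have h2 : ((k + j : ℕ) : ℝ) ≤ n := by exact_mod_cast (by omega : k + j ≤ n)
      push_cast at h2 ⊢
      have : (0 : ℝ) ≤ s := Nat.cast_nonneg s
      have hn0 : (0 : ℝ) ≤ n := Nat.cast_nonneg n
      nlinarith [mul_nonneg this hn0]
    have h3 : (4 * (s : ℝ) + 2) ≤ Real.exp (Real.log (4 * (s : ℝ) + 2) / Real.log 2 ^ 2 * La n) :=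
      const_le hs2 n
    have h4 := lin_le n
    have h5 : (2 * ((k + j + s + s : ℕ) : ℝ) + 1) ^ 2 * j ≤ Real.exp (q * La n) := by
      have h6 : (j : ℝ) ≤ (n : ℝ) + 2 := by
        have : (j : ℝ) ≤ n := by exact_mod_cast (by omega : j ≤ n)
        linarith
      calc (2 * ((k + j + s + s : ℕ) : ℝ) + 1) ^ 2 * j
          ≤ ((4 * s + 2) * ((n : ℝ) + 2)) ^ 2 * ((n : ℝ) + 2) :=
            mul_le_mul (pow_le_pow_left₀ (by positivity) h1 2) h6 hj0.le (by positivity)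
        _ = (4 * s + 2) ^ 2 * ((n : ℝ) + 2) ^ 3 := by ring
        _ ≤ Real.exp (Real.log (4 * (s : ℝ) + 2) / Real.log 2 ^ 2 * La n) ^ 2 *
            Real.exp (1 / Real.log 2 * La n) ^ 3 :=
            mul_le_mul (pow_le_pow_left₀ (by positivity) h3 2)
              (pow_le_pow_left₀ (by positivity) h4 3) (by positivity) (by positivity)
        _ = _ := by
            rw [← Real.exp_nat_mul, ← Real.exp_nat_mul, ← Real.exp_add, hq]
            congr 1
            push_cast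
            ring
    rw [le_div_iff₀ hj0]
    calc ((Kw A k).card : ℝ) * ((2 * ((k + j + s + s : ℕ) : ℝ) + 1) ^ 2 * (Kw A k').card) * j
        = ((Kw A k).card : ℝ) * (Kw A k').card * ((2 * ((k + j + s + s : ℕ) : ℝ) + 1) ^ 2 * j) := by
          ring
      _ ≤ (μ ^ k * Real.exp (K' * La n)) * (μ ^ k' * Real.exp (K' * La n)) *
          Real.exp (q * La n) :=
          mul_le_mul (mul_le_mul hk hk' (Nat.cast_nonneg _) (by positivity)) h5 (by positivity)
            (by positivity)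
      _ = μ ^ (k + k') * Real.exp ((2 * K' + q) * La n) := by
          rw [pow_add, show (2 * K' + q) * La n = K' * La n + K' * La n + q * La n by ring,
            Real.exp_add, Real.exp_add]
          ring
  have hexc : ∑ x ∈ V \ Gs, f x.1 (sg H x) * gn H D x (j + s) ≤ 1 / j * X := by
    have h1 : ∀ x ∈ V \ Gs, f x.1 (sg H x) * gn H D x (j + s) ≤ Real.exp ℓ * (θ * μ) ^ (j + s) := by
      intro x hx
      rw [Finset.mem_sdiff, hG, mem_filter] at hx
      have h2 : gn H D x (j + s) < (θ * μ) ^ (j + s) := by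
        by_contra hc
        exact hx.2 ⟨hx.1, not_lt.1 hc⟩
      exact mul_le_mul (hf1 _ _) h2.le (gn_nonneg _ _ _ _) (Real.exp_pos _).le
    refine (sum_le_sum h1).trans ?_
    rw [sum_const, nsmul_eq_mul]
    have hsub : ((V \ Gs).card : ℝ) ≤ V.card := by
      exact_mod_cast card_le_card sdiff_subset
    have hθj : θ ^ (j + s) * Real.exp (ℓ + (2 * K' + q) * La n) ≤ θ1 ^ j := by
      have e1 : θ ^ (j + s) ≤ θ1 ^ j * θ1 ^ j := by
        rw [← hθsq, ← pow_mul, ← pow_add]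
        exact pow_le_pow_of_le_one hθ10.le hθ11.le (by omega)
      have e2 : θ1 ^ j * Real.exp (ℓ + (2 * K' + q) * La n) ≤ 1 := by
        have e3 : θ1 ^ j = Real.exp (-(c0 * j)) := by
          rw [hc0, ← Real.exp_log hθ10, ← Real.exp_nat_mul, Real.exp_log hθ10]
          congr 1
          ring
        rw [e3, ← Real.exp_add, Real.exp_le_one_iff]
        have : ℓ + (2 * K' + q) * La n ≤ (1 + 2 * K' + q) * (La n + ℓ) := by
          have h5 : 0 ≤ (2 * K' + q) * ℓ := by positivity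
          nlinarith
        linarith
      calc θ ^ (j + s) * Real.exp (ℓ + (2 * K' + q) * La n)
          ≤ (θ1 ^ j * θ1 ^ j) * Real.exp (ℓ + (2 * K' + q) * La n) :=
            mul_le_mul_of_nonneg_right e1 (Real.exp_pos _).le
        _ = θ1 ^ j * (θ1 ^ j * Real.exp (ℓ + (2 * K' + q) * La n)) := by ring
        _ ≤ θ1 ^ j * 1 := mul_le_mul_of_nonneg_left e2 (by positivity)
        _ = _ := mul_one _
    calc ((V \ Gs).card : ℝ) * (Real.exp ℓ * (θ * μ) ^ (j + s))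
        ≤ V.card * (Real.exp ℓ * (θ * μ) ^ (j + s)) :=
          mul_le_mul_of_nonneg_right hsub (by positivity)
      _ ≤ (μ ^ (k + k') * Real.exp ((2 * K' + q) * La n) / j) *
          (Real.exp ℓ * (θ * μ) ^ (j + s)) := mul_le_mul_of_nonneg_right hcard (by positivity)
      _ = 1 / j * (μ ^ (n + s) * (θ ^ (j + s) * Real.exp (ℓ + (2 * K' + q) * La n))) := by
          rw [hnd, show k + (j + k') + s = k + k' + (j + s) by ring, pow_add μ (k + k') (j + s),
            mul_pow, Real.exp_add]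
          ring
      _ ≤ 1 / j * (μ ^ (n + s) * θ1 ^ j) := by
          refine mul_le_mul_of_nonneg_left (mul_le_mul_of_nonneg_left hθj (by positivity))
            (by positivity)
      _ ≤ 1 / j * X := mul_le_mul_of_nonneg_left hXb (by positivity)
  have hsplit : X = ∑ x ∈ Gs, f x.1 (sg H x) * gn H D x (j + s) +
      ∑ x ∈ V \ Gs, f x.1 (sg H x) * gn H D x (j + s) := by
    rw [hX, AF_eq Z H D k k' (j + s) (k + j + s + s) (by omega), ← hV, ← sum_sdiff hGV]
    exact add_comm _ _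
  obtain ⟨S, hS⟩ : ∃ S, S = ∑ x ∈ Gs, f x.1 (sg H x) * gn H D x (j + s) := ⟨_, rfl⟩
  rw [← hS] at hsplit
  obtain ⟨Pr, hP⟩ : ∃ Pr, Pr = AF A D k k' j f * AF A D k k' (j + s + s) f := ⟨_, rfl⟩
  have hDj : 0 ≤ D0 / j := by positivity
  have hgood : S ^ 2 ≤ Pr * (1 + D0 / j) := by
    have h1 := sum_sq_le_sum_mul_sum_of_sq_le_mul Gs
      (r := fun x => f x.1 (sg H x) * gn H D x (j + s))
      (f := fun x => f x.1 (sg H x) * gn H D x j)
      (g := fun x => f x.1 (sg H x) * gn H D x (j + s + s) * (1 + D0 / j))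
      (fun x _ => mul_nonneg (hf0 _ _) (gn_nonneg _ _ _ _))
      (fun x _ => mul_nonneg (mul_nonneg (hf0 _ _) (gn_nonneg _ _ _ _)) (by positivity))
      (fun x hx => by
        rw [hG, mem_filter] at hx
        have h1 : gn H D x (j + s) ^ 2 ≤ gn H D x j * gn H D x (j + s + s) * (1 + D0 / j) :=
          hkes _ j hNj hx.2
        have h2 : 0 ≤ f x.1 (sg H x) ^ 2 := sq_nonneg _
        calc (f x.1 (sg H x) * gn H D x (j + s)) ^ 2 =
              f x.1 (sg H x) ^ 2 * gn H D x (j + s) ^ 2 := by rw [mul_pow]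
          _ ≤ f x.1 (sg H x) ^ 2 * (gn H D x j * gn H D x (j + s + s) * (1 + D0 / j)) :=
              mul_le_mul_of_nonneg_left h1 h2
          _ = _ := by ring)
    rw [← hS, ← sum_mul] at h1
    have h2 : ∀ m, m ≤ j + s + s → ∑ x ∈ Gs, f x.1 (sg H x) * gn H D x m ≤ AF A D k k' m f := by
      intro m hm
      rw [AF_eq Z H D k k' m (k + j + s + s) (by omega), ← hV]
      exact sum_le_sum_of_subset_of_nonneg hGV fun x _ _ =>
        mul_nonneg (hf0 _ _) (gn_nonneg _ _ _ _)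
    refine h1.trans ?_
    rw [hP, mul_assoc]
    have h3 : ∀ m, 0 ≤ ∑ x ∈ Gs, f x.1 (sg H x) * gn H D x m := fun m =>
      sum_nonneg fun x _ => mul_nonneg (hf0 _ _) (gn_nonneg _ _ _ _)
    exact mul_le_mul (h2 j (by omega)) (mul_le_mul_of_nonneg_right (h2 _ le_rfl)
      (by positivity)) (mul_nonneg (h3 _) (by positivity)) (AF_nonneg _ _ _ _ hf0)
  have hP0 : 0 ≤ Pr := by rw [hP]; exact mul_nonneg (AF_nonneg _ _ _ _ hf0) (AF_nonneg _ _ _ _ hf0)
  obtain ⟨u, hu⟩ : ∃ u, u = 1 / (j : ℝ) := ⟨_, rfl⟩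
  rw [← hu] at hexc
  have hu0 : 0 ≤ u := by rw [hu]; positivity
  have hu1 : u ≤ 1 / 2 := by
    rw [hu, div_le_div_iff₀ hj0 (by norm_num)]
    linarith
  have hS1 : (1 - u) * X ≤ S := by linarith
  have hS2 : ((1 - u) * X) ^ 2 ≤ S ^ 2 :=
    pow_le_pow_left₀ (mul_nonneg (by linarith) hX0.le) hS1 2
  have hpoly : 1 ≤ (1 - u) ^ 2 * (1 + 6 * u) := by
    have h1 : (1 - u) ^ 2 * (1 + 6 * u) = 1 + u * ((1 - 2 * u) * (4 - 3 * u)) := by ring
    rw [h1]
    have : 0 ≤ u * ((1 - 2 * u) * (4 - 3 * u)) :=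
      mul_nonneg hu0 (mul_nonneg (by linarith) (by linarith))
    linarith
  have hfin : (1 + D0 / j) * (1 + 6 * u) ≤ 1 + (7 * D0 + 6) / j := by
    have e1 : D0 / (j : ℝ) = D0 * u := by rw [hu]; ring
    have e2 : (7 * D0 + 6) / (j : ℝ) = 7 * (D0 * u) + 6 * u := by rw [hu]; ring
    rw [e1, e2]
    have h1 : D0 * u * u ≤ D0 * u * (1 / 2) := mul_le_mul_of_nonneg_left hu1 (by positivity)
    have h2 : 0 ≤ D0 * u := by positivity
    nlinarith
  rw [← hX, ← hP]
  calc X ^ 2 ≤ X ^ 2 * ((1 - u) ^ 2 * (1 + 6 * u)) :=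
        le_mul_of_one_le_right (sq_nonneg _) hpoly
    _ = ((1 - u) * X) ^ 2 * (1 + 6 * u) := by ring
    _ ≤ (Pr * (1 + D0 / j)) * (1 + 6 * u) :=
        mul_le_mul_of_nonneg_right (hS2.trans hgood) (by linarith)
    _ = Pr * ((1 + D0 / j) * (1 + 6 * u)) := by ring
    _ ≤ _ := mul_le_mul_of_nonneg_left hfin hP0

end

end Q68.PL
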