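import Pool.Agent.Q68.PL.Rev

set_option autoImplicit false

/-!
# Planar lattices, two ends: the means
-/

namespace Q68.PL

open Finset Filter Topology TH966.KS TH966.KO TH966.AK Q294.Rs Q38.RL
open scoped Classical

variable {A : P → P → Prop} {Z : Rule A} {μ K : ℝ}

noncomputable section

/-- the mean of a function of the two ends -/
def mA (A : P → P → Prop) (D : Set P) (k k' j : ℕ) (f : List P → List P → ℝ) : ℝ :=
  AF A D k k' j f / ((KD A D (k + (j + k'))).card : ℝ)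

theorem AF_one (D : Set P) (k k' j : ℕ) :
    AF A D k k' j (fun _ _ => 1) = ((KD A D (k + (j + k'))).card : ℝ) := by
  unfold AF
  rw [sum_const, nsmul_eq_mul, mul_one]

theorem AF_mono (D : Set P) (k k' j : ℕ) {f g : List P → List P → ℝ} (h : ∀ a b, f a b ≤ g a b) :
    AF A D k k' j f ≤ AF A D k k' j g := sum_le_sum fun _ _ => h _ _

theorem AF_add (D : Set P) (k k' j : ℕ) (f g : List P → List P → ℝ) :
    AF A D k k' j (fun a b => f a b + g a b) = AF A D k k' j f + AF A D k k' j g := by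
  unfold AF
  exact sum_add_distrib

theorem AF_smul (D : Set P) (k k' j : ℕ) (c : ℝ) (f : List P → List P → ℝ) :
    AF A D k k' j (fun a b => c * f a b) = c * AF A D k k' j f := by
  unfold AF
  rw [mul_sum]

theorem mA_smul (D : Set P) (k k' j : ℕ) (c : ℝ) (f : List P → List P → ℝ) :
    mA A D k k' j (fun a b => c * f a b) = c * mA A D k k' j f := by
  unfold mA
  rw [AF_smul, mul_div_assoc]

theorem mA_abs (D : Set P) (k k' j : ℕ) {f : List P → List P → ℝ} (h : ∀ a b, |f a b| ≤ 1) :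
    |mA A D k k' j f| ≤ 1 := by
  unfold mA
  rw [abs_div, Nat.abs_cast]
  refine div_le_one_of_le₀ ?_ (Nat.cast_nonneg _)
  unfold AF
  refine (abs_sum_le_sum_abs _ _).trans ((sum_le_sum fun _ _ => h _ _).trans (le_of_eq ?_))
  rw [sum_const, nsmul_eq_mul, mul_one]

theorem frac4 {a a' c c' m x : ℝ} (hm : 0 < m) (hx0 : 0 ≤ x) (hx : x ≤ 1 / 4) (ha : 0 < a)
    (hc : 0 < c) (h1 : a' ≤ (1 + x) * (a * m)) (h2 : (1 - x) * (a * m) ≤ a')
    (h3 : c' ≤ (1 + x) * (c * m)) (h4 : (1 - x) * (c * m) ≤ c') :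
    |a' / c' / (a / c) - 1| ≤ 4 * x := by
  have ham : 0 < a * m := by positivity
  have hcm : 0 < c * m := by positivity
  obtain ⟨u, hu⟩ : ∃ u, u = a' / (a * m) := ⟨_, rfl⟩
  obtain ⟨v, hv⟩ : ∃ v, v = c' / (c * m) := ⟨_, rfl⟩
  have hu1 : u ≤ 1 + x := by rw [hu, div_le_iff₀ ham]; exact h1
  have hu2 : 1 - x ≤ u := by rw [hu, le_div_iff₀ ham]; exact h2
  have hv1 : v ≤ 1 + x := by rw [hv, div_le_iff₀ hcm]; exact h3
  have hv2 : 1 - x ≤ v := by rw [hv, le_div_iff₀ hcm]; exact h4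
  have hv0 : 0 < v := by linarith
  have hc' : 0 < c' := by nlinarith
  have e : a' / c' / (a / c) = u / v := by
    rw [hu, hv]
    field_simp
  rw [e, div_sub_one hv0.ne', abs_div, abs_of_pos hv0, div_le_iff₀ hv0, abs_le]
  constructor <;> nlinarith

theorem frac1 {a a' m x : ℝ} (hm : 0 < m) (ha : 0 < a)
    (h1 : a' ≤ (1 + x) * (a * m)) (h2 : (1 - x) * (a * m) ≤ a') : |a' / (a * m) - 1| ≤ x := by
  have ham : 0 < a * m := by positivity
  rw [abs_le]
  constructor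
  · have : 1 - x ≤ a' / (a * m) := by rw [le_div_iff₀ ham]; exact h2
    linarith
  · have : a' / (a * m) ≤ 1 + x := by rw [div_le_iff₀ ham]; exact h1
    linarith

/-- **the relative estimate** -/
theorem relD (G : Growth Z μ K) (H : Hom A) : ∃ C : ℝ, 0 < C ∧
    ∀ (D : Set P) (k k' j : ℕ) (ℓ : ℝ), 1 ≤ j → 0 ≤ ℓ → ∀ F W : List P → List P → ℝ,
    (∀ a b, 0 ≤ F a b) → (∀ a b, F a b ≤ W a b) → (∀ a b, W a b ≤ 1) →
    μ ^ (k + (j + k')) * Real.exp (-ℓ) ≤ AF A D k k' j F ∨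
      μ ^ (k + (j + k') + Z.s) * Real.exp (-ℓ) ≤ AF A D k k' (j + Z.s) F →
    C * √((La (k + (j + k')) + ℓ) / j) ≤ 1 →
    0 < AF A D k k' j F ∧ 0 < AF A D k k' j W ∧ 0 < AF A D k k' (j + Z.s) F ∧
    |AF A D k k' (j + Z.s) F / (AF A D k k' j F * μ ^ Z.s) - 1| ≤
      C * √((La (k + (j + k')) + ℓ) / j) ∧
    |AF A D k k' (j + Z.s) F / AF A D k k' (j + Z.s) W /
      (AF A D k k' j F / AF A D k k' j W) - 1| ≤ C * √((La (k + (j + k')) + ℓ) / j) := by
  obtain ⟨R, hR, hq⟩ := quot2 G H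
  have hμ := G.hμ
  refine ⟨4 * R, by positivity, fun D k k' j ℓ hj hℓ F W hF0 hFW hW1 hbig hx => ?_⟩
  obtain ⟨n, hn⟩ : ∃ n, n = k + (j + k') := ⟨_, rfl⟩
  obtain ⟨x, hxd⟩ : ∃ x, x = R * √((La n + ℓ) / j) := ⟨_, rfl⟩
  have hx0 : 0 ≤ x := by rw [hxd]; positivity
  rw [← hn, mul_assoc, ← hxd] at hx
  have hx4 : x ≤ 1 / 4 := by linarith
  have he1 : (1 : ℝ) ≤ Real.exp ℓ := Real.one_le_exp hℓ
  have q1 := hq D k k' j ℓ hj hℓ (by rw [← hn, ← hxd]; linarith) F hF0
    (fun a b => ((hFW a b).trans (hW1 a b)).trans he1) hbig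
  have q2 := hq D k k' j ℓ hj hℓ (by rw [← hn, ← hxd]; linarith) W
    (fun a b => (hF0 a b).trans (hFW a b)) (fun a b => (hW1 a b).trans he1)
    (hbig.imp (fun h => h.trans (AF_mono _ _ _ _ hFW)) (fun h => h.trans (AF_mono _ _ _ _ hFW)))
  rw [← hn, ← hxd] at q1 q2
  rw [← hn, mul_assoc, ← hxd]
  have hF : 0 < AF A D k k' j F := q1.1
  have h1 : 0 < AF A D k k' j W := q2.1
  have hm : 0 < μ ^ Z.s := by positivity
  refine ⟨hF, h1, ?_, ?_, ?_⟩
  · refine lt_of_lt_of_le ?_ q1.2.2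
    exact mul_pos (by linarith) (by positivity)
  · exact (frac1 hm hF q1.2.1 q1.2.2).trans (by linarith)
  · exact frac4 hm hx0 hx4 hF h1 q1.2.1 q1.2.2 q2.2.1 q2.2.2

/-- **the relative estimate for means** -/
theorem relW (G : Growth Z μ K) (H : Hom A) : ∃ C : ℝ, 0 < C ∧
    ∀ (D : Set P) (k k' j : ℕ) (ℓ : ℝ), 1 ≤ j → 0 ≤ ℓ → ∀ F : List P → List P → ℝ,
    (∀ a b, 0 ≤ F a b) → (∀ a b, F a b ≤ 1) →
    μ ^ (k + (j + k')) * Real.exp (-ℓ) ≤ AF A D k k' j F ∨
      μ ^ (k + (j + k') + Z.s) * Real.exp (-ℓ) ≤ AF A D k k' (j + Z.s) F →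
    C * √((La (k + (j + k')) + ℓ) / j) ≤ 1 →
    0 < mA A D k k' j F ∧
    |AF A D k k' (j + Z.s) F / (AF A D k k' j F * μ ^ Z.s) - 1| ≤
      C * √((La (k + (j + k')) + ℓ) / j) ∧
    |mA A D k k' (j + Z.s) F / mA A D k k' j F - 1| ≤ C * √((La (k + (j + k')) + ℓ) / j) := by
  obtain ⟨C, hC, h⟩ := relD G H
  refine ⟨C, hC, fun D k k' j ℓ hj hℓ F hF0 hF1 hbig hx => ?_⟩
  obtain ⟨h1, h2, -, h3, h4⟩ := h D k k' j ℓ hj hℓ F (fun _ _ => 1) hF0 hF1 (fun _ _ => le_rfl)
    hbig hx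
  unfold mA
  rw [← AF_one, ← AF_one]
  exact ⟨div_pos h1 h2, h3, h4⟩

/-- **conditional laws** -/
theorem condW (G : Growth Z μ K) (H : Hom A) : ∃ C : ℝ, 0 < C ∧
    ∀ (D : Set P) (k k' j : ℕ) (ℓ : ℝ), 1 ≤ j → 0 ≤ ℓ → ∀ F W : List P → List P → ℝ,
    (∀ a b, 0 ≤ F a b) → (∀ a b, F a b ≤ W a b) → (∀ a b, W a b ≤ 1) →
    μ ^ (k + (j + k')) * Real.exp (-ℓ) ≤ AF A D k k' j W →
    |AF A D k k' (j + Z.s) F / AF A D k k' (j + Z.s) W - AF A D k k' j F / AF A D k k' j W| ≤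
      C * √((La (k + (j + k')) + ℓ) / j) := by
  obtain ⟨C, hC, hr⟩ := relD G H
  have hμ := G.hμ
  obtain ⟨Q, hQ⟩ : ∃ Q, Q = 1 + 1 / Real.log 2 ^ 2 := ⟨_, rfl⟩
  have hl2 : 0 < Real.log 2 ^ 2 := pow_pos log2_pos 2
  have hQ1 : 1 ≤ Q := by
    rw [hQ]
    have : 0 ≤ 1 / Real.log 2 ^ 2 := by positivity
    linarith
  refine ⟨2 * C * √Q, by positivity, fun D k k' j ℓ hj hℓ F W hF0 hFW hW1 hbig => ?_⟩
  obtain ⟨n, hn⟩ : ∃ n, n = k + (j + k') := ⟨_, rfl⟩
  rw [← hn] at hbig ⊢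
  have hj0 : (0 : ℝ) < j := by exact_mod_cast hj
  have hL := La_pos n
  have hLg := La_ge n
  obtain ⟨x, hxd⟩ : ∃ x, x = C * √((La n + (ℓ + 1)) / j) := ⟨_, rfl⟩
  have hx : x ≤ C * √Q * √((La n + ℓ) / j) := by
    rw [hxd, mul_assoc, ← Real.sqrt_mul (by linarith)]
    refine mul_le_mul_of_nonneg_left (Real.sqrt_le_sqrt ?_) hC.le
    rw [← mul_div_assoc]
    refine div_le_div_of_nonneg_right ?_ hj0.le
    have h1 : 1 ≤ 1 / Real.log 2 ^ 2 * La n := by
      rw [div_mul_eq_mul_div, le_div_iff₀ hl2]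
      linarith
    have h2 : 0 ≤ 1 / Real.log 2 ^ 2 * ℓ := by positivity
    rw [hQ]
    linarith
  have hx0 : 0 ≤ x := by rw [hxd]; positivity
  have hr01 : ∀ m, 0 ≤ AF A D k k' m F / AF A D k k' m W ∧
      AF A D k k' m F / AF A D k k' m W ≤ 1 := by
    intro m
    have h1 := AF_nonneg (A := A) D k k' m hF0
    have h2 := AF_mono (A := A) D k k' m hFW
    exact ⟨div_nonneg h1 (h1.trans h2), div_le_one_of_le₀ h2 (h1.trans h2)⟩
  have hgoal : |AF A D k k' (j + Z.s) F / AF A D k k' (j + Z.s) W -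
      AF A D k k' j F / AF A D k k' j W| ≤ 2 * x := by
    by_cases hx1 : x ≤ 1
    · have hlow : AF A D k k' j W ≤ 2 * AF A D k k' j (fun a b => (W a b + F a b) / 2) := by
        rw [← AF_smul]
        exact AF_mono _ _ _ _ fun a b => by linarith [hF0 a b]
      have hbig2 : μ ^ n * Real.exp (-(ℓ + 1)) ≤
          AF A D k k' j (fun a b => (W a b + F a b) / 2) := by
        have h1 : Real.exp (-(ℓ + 1)) ≤ Real.exp (-ℓ) * (1 / 2) := by
          rw [neg_add, Real.exp_add]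
          refine mul_le_mul_of_nonneg_left ?_ (Real.exp_pos _).le
          have h2 := Real.add_one_le_exp (1 : ℝ)
          have h3 : Real.exp (-1) * Real.exp 1 = 1 := by rw [← Real.exp_add]; simp
          have h4 := Real.exp_pos (-1 : ℝ)
          nlinarith
        have h2 : μ ^ n * Real.exp (-(ℓ + 1)) ≤ 1 / 2 * (μ ^ n * Real.exp (-ℓ)) := by
          calc μ ^ n * Real.exp (-(ℓ + 1)) ≤ μ ^ n * (Real.exp (-ℓ) * (1 / 2)) :=
                mul_le_mul_of_nonneg_left h1 (by positivity)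
            _ = 1 / 2 * (μ ^ n * Real.exp (-ℓ)) := by ring
        linarith
      obtain ⟨a1, a2, a3, -, a4⟩ := hr D k k' j (ℓ + 1) hj (by linarith)
        (fun a b => (W a b + F a b) / 2) W
        (fun a b => by linarith [hF0 a b, hFW a b]) (fun a b => by linarith [hFW a b]) hW1
        (Or.inl (by rw [← hn]; exact hbig2)) (by rw [← hn, ← hxd]; exact hx1)
      rw [← hn, ← hxd] at a4
      have hW' : 0 < AF A D k k' (j + Z.s) W :=
        lt_of_lt_of_le a3 (AF_mono _ _ _ _ fun a b => by linarith [hFW a b])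
      have hne : ∀ m, 0 < AF A D k k' m W →
          AF A D k k' m (fun a b => (W a b + F a b) / 2) / AF A D k k' m W =
          1 / 2 + 1 / 2 * (AF A D k k' m F / AF A D k k' m W) := by
        intro m hm
        have e : AF A D k k' m (fun a b => (W a b + F a b) / 2) =
            1 / 2 * AF A D k k' m W + 1 / 2 * AF A D k k' m F := by
          rw [← AF_smul, ← AF_smul, ← AF_add]
          unfold AF
          refine sum_congr rfl fun w _ => ?_
          ring
        rw [e, add_div, mul_div_assoc, div_self hm.ne', mul_div_assoc, mul_one]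
      rw [hne _ a2, hne _ hW'] at a4
      obtain ⟨u, hu⟩ : ∃ u, u = AF A D k k' j F / AF A D k k' j W := ⟨_, rfl⟩
      obtain ⟨v, hv⟩ : ∃ v, v = AF A D k k' (j + Z.s) F / AF A D k k' (j + Z.s) W := ⟨_, rfl⟩
      have hu01 := hr01 j
      rw [← hu] at hu01
      rw [← hu, ← hv] at a4
      rw [← hu, ← hv]
      have h0 : 0 < 1 / 2 + 1 / 2 * u := by linarith
      rw [div_sub_one h0.ne', abs_div, abs_of_pos h0, div_le_iff₀ h0] at a4
      have h5 : |v - u| = 2 * |1 / 2 + 1 / 2 * v - (1 / 2 + 1 / 2 * u)| := by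
        rw [← abs_of_pos (show (0 : ℝ) < 2 by norm_num), ← abs_mul,
          abs_of_pos (show (0 : ℝ) < 2 by norm_num)]
        congr 1
        ring
      rw [h5]
      nlinarith
    · have h1 := hr01 j
      have h2 := hr01 (j + Z.s)
      have := not_le.1 hx1
      rw [abs_le]
      constructor <;> linarith
  refine hgoal.trans ?_
  linarith

/-- **the absolute estimate** -/
theorem absW (G : Growth Z μ K) (H : Hom A) : ∃ C : ℝ, 0 < C ∧
    ∀ (D : Set P) (k k' j : ℕ) (ℓ : ℝ), 1 ≤ j → 0 ≤ ℓ →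
    μ ^ (k + (j + k')) * Real.exp (-ℓ) ≤ ((KD A D (k + (j + k'))).card : ℝ) →
    ∀ F : List P → List P → ℝ, (∀ a b, |F a b| ≤ 1) →
    |mA A D k k' (j + Z.s) F - mA A D k k' j F| ≤ C * √((La (k + (j + k')) + ℓ) / j) := by
  obtain ⟨C, hC, hr⟩ := relW G H
  have hμ := G.hμ
  obtain ⟨Q, hQ⟩ : ∃ Q, Q = 1 + 1 / Real.log 2 ^ 2 := ⟨_, rfl⟩
  have hl2 : 0 < Real.log 2 ^ 2 := pow_pos log2_pos 2
  have hQ1 : 1 ≤ Q := by
    rw [hQ]
    have : 0 ≤ 1 / Real.log 2 ^ 2 := by positivity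
    linarith
  refine ⟨4 * C * √Q, by positivity, fun D k k' j ℓ hj hℓ hbig F hF => ?_⟩
  obtain ⟨n, hn⟩ : ∃ n, n = k + (j + k') := ⟨_, rfl⟩
  rw [← hn] at hbig ⊢
  have hj0 : (0 : ℝ) < j := by exact_mod_cast hj
  have hL := La_pos n
  have hLg := La_ge n
  obtain ⟨x, hxd⟩ : ∃ x, x = C * √((La n + (ℓ + 1)) / j) := ⟨_, rfl⟩
  have hx : x ≤ C * √Q * √((La n + ℓ) / j) := by
    rw [hxd, mul_assoc, ← Real.sqrt_mul (by linarith)]
    refine mul_le_mul_of_nonneg_left (Real.sqrt_le_sqrt ?_) hC.le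
    rw [← mul_div_assoc]
    refine div_le_div_of_nonneg_right ?_ hj0.le
    have h1 : 1 ≤ 1 / Real.log 2 ^ 2 * La n := by
      rw [div_mul_eq_mul_div, le_div_iff₀ hl2]
      linarith
    have h2 : 0 ≤ 1 / Real.log 2 ^ 2 * ℓ := by positivity
    rw [hQ]
    linarith
  have hx0 : 0 ≤ x := by rw [hxd]; positivity
  have hgoal : |mA A D k k' (j + Z.s) F - mA A D k k' j F| ≤ 4 * x → 
      |mA A D k k' (j + Z.s) F - mA A D k k' j F| ≤ 4 * C * √Q * √((La n + ℓ) / j) := by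
    intro h
    linarith
  apply hgoal
  by_cases hx1 : x ≤ 1
  · obtain ⟨f, hf⟩ : ∃ f : List P → List P → ℝ, f = fun a b => (3 + F a b) / 4 := ⟨_, rfl⟩
    have hf1 : ∀ a b, f a b ≤ 1 := fun a b => by
      rw [hf]
      have := (abs_le.1 (hF a b)).2
      simp only
      linarith
    have hf2 : ∀ a b, 1 / 2 ≤ f a b := fun a b => by
      rw [hf]
      have := (abs_le.1 (hF a b)).1
      simp only
      linarith
    have hfe : ∀ m, AF A D k k' m f = 3 / 4 * AF A D k k' m (fun _ _ => 1) +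
        1 / 4 * AF A D k k' m F := by
      intro m
      rw [← AF_smul, ← AF_smul, ← AF_add]
      unfold AF
      refine sum_congr rfl fun w _ => ?_
      rw [hf]
      ring
    have hc : 0 < ((KD A D n).card : ℝ) := lt_of_lt_of_le (by positivity) hbig
    have hlow : 1 / 2 * ((KD A D n).card : ℝ) ≤ AF A D k k' j f := by
      rw [hn, ← AF_one, ← AF_smul]
      exact AF_mono _ _ _ _ fun a b => by simpa using hf2 a b
    have hbig2 : μ ^ (k + (j + k')) * Real.exp (-(ℓ + 1)) ≤ AF A D k k' j f := by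
      refine le_trans ?_ hlow
      rw [← hn]
      have h1 : Real.exp (-(ℓ + 1)) ≤ Real.exp (-ℓ) * (1 / 2) := by
        rw [neg_add, Real.exp_add]
        refine mul_le_mul_of_nonneg_left ?_ (Real.exp_pos _).le
        have h2 := Real.add_one_le_exp (1 : ℝ)
        have h3 : Real.exp (-1) * Real.exp 1 = 1 := by rw [← Real.exp_add]; simp
        have h4 := Real.exp_pos (-1 : ℝ)
        nlinarith
      calc μ ^ n * Real.exp (-(ℓ + 1)) ≤ μ ^ n * (Real.exp (-ℓ) * (1 / 2)) :=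
            mul_le_mul_of_nonneg_left h1 (by positivity)
        _ = 1 / 2 * (μ ^ n * Real.exp (-ℓ)) := by ring
        _ ≤ _ := mul_le_mul_of_nonneg_left hbig (by norm_num)
    have h1 := (hr D k k' j (ℓ + 1) hj (by linarith) f (fun a b => by linarith [hf2 a b]) hf1
      (Or.inl hbig2) (by rw [← hn, ← hxd]; exact hx1)).2.2
    rw [← hn, ← hxd] at h1
    have hne : ∀ m, 0 < ((KD A D (k + (m + k'))).card : ℝ) →
        mA A D k k' m f = 3 / 4 + 1 / 4 * mA A D k k' m F := by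
      intro m hm
      unfold mA
      rw [hfe, AF_one, add_div, mul_div_assoc, div_self hm.ne', mul_div_assoc, mul_one]
    have hm1 : 1 / 2 ≤ mA A D k k' j f := by
      unfold mA
      rw [← hn, le_div_iff₀ hc]
      exact hlow
    have hm2 : mA A D k k' j f ≤ 1 := by
      have := mA_abs (A := A) D k k' j (f := f) (fun a b => by
        rw [abs_le]; constructor <;> linarith [hf1 a b, hf2 a b])
      exact (abs_le.1 this).2
    by_cases hc' : 0 < ((KD A D (k + ((j + Z.s) + k'))).card : ℝ)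
    · have e1 := hne j (by rw [← hn]; exact hc)
      have e2 := hne (j + Z.s) hc'
      have h3 : mA A D k k' (j + Z.s) F - mA A D k k' j F =
          4 * ((mA A D k k' (j + Z.s) f / mA A D k k' j f - 1) * mA A D k k' j f) := by
        rw [sub_mul, div_mul_cancel₀ _ (by linarith), e1, e2]
        ring
      rw [h3, abs_mul, abs_mul, abs_of_pos (by norm_num : (0 : ℝ) < 4),
        abs_of_pos (by linarith : 0 < mA A D k k' j f)]
      refine mul_le_mul_of_nonneg_left ?_ (by norm_num)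
      calc _ ≤ x * 1 := mul_le_mul h1 hm2 (by linarith) hx0
        _ = x := mul_one _
    · have h4 : ((KD A D (k + ((j + Z.s) + k'))).card : ℝ) = 0 :=
        le_antisymm (not_lt.1 hc') (Nat.cast_nonneg _)
      have h5 : ∀ g : List P → List P → ℝ, mA A D k k' (j + Z.s) g = 0 := by
        intro g
        unfold mA
        rw [h4, div_zero]
      rw [h5, zero_div, zero_sub, abs_neg, abs_one] at h1
      rw [h5, zero_sub, abs_neg]
      have := mA_abs (A := A) D k k' j hF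
      linarith
  · have h1 := mA_abs (A := A) D k k' j hF
    have h2 := mA_abs (A := A) D k k' (j + Z.s) hF
    have h3 := abs_sub (mA A D k k' (j + Z.s) F) (mA A D k k' j F)
    linarith [not_le.1 hx1]

/-- **several steps**, all walks -/
theorem absU (G : Growth Z μ K) (H : Hom A) : ∃ C : ℝ, 0 < C ∧
    ∀ (k k' j l : ℕ), 1 ≤ j → ∀ F : List P → List P → ℝ, (∀ a b, |F a b| ≤ 1) →
    |mA A Set.univ k k' (j + Z.s * l) F - mA A Set.univ k k' j F| ≤
      C * l * (Real.log (((k + (j + k') : ℕ) : ℝ) + 2) / √(j : ℝ)) := by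
  obtain ⟨C, hC, ha⟩ := absW G H
  obtain ⟨B, hB, hLa⟩ := La_add
  refine ⟨C * √B, by positivity, fun k k' j l hj F hF => ?_⟩
  obtain ⟨n, hn⟩ : ∃ n, n = k + (j + k') := ⟨_, rfl⟩
  have hj0 : (0 : ℝ) < j := by exact_mod_cast hj
  rw [← hn]
  have hstep : ∀ i, |mA A Set.univ k k' (j + Z.s * (i + 1)) F -
      mA A Set.univ k k' (j + Z.s * i) F| ≤ C * √B * (Real.log ((n : ℝ) + 2) / √(j : ℝ)) := by
    intro i
    have h1 := ha Set.univ k k' (j + Z.s * i) 0 (by omega) le_rfl (by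
      rw [neg_zero, Real.exp_zero, mul_one, KD_univ]
      exact G.low _) F hF
    rw [show j + Z.s * i + Z.s = j + Z.s * (i + 1) by ring,
      show k + (j + Z.s * i + k') = n + Z.s * i by omega] at h1
    refine h1.trans ?_
    rw [mul_assoc]
    refine mul_le_mul_of_nonneg_left ?_ hC.le
    have h2 : √B * (Real.log ((n : ℝ) + 2) / √(j : ℝ)) = √(B * La n / j) := by
      rw [Real.sqrt_div' _ hj0.le, Real.sqrt_mul' _ (La_pos n).le]
      unfold La
      rw [Real.sqrt_sq (log2_pos.le.trans (log_ge n)), mul_div_assoc]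
    rw [h2]
    apply Real.sqrt_le_sqrt
    have h3 := hLa n j (Z.s * i) hj (by omega)
    have hji : (0 : ℝ) < ((j + Z.s * i : ℕ) : ℝ) := by
      exact_mod_cast (by omega : 0 < j + Z.s * i)
    rw [add_zero, div_le_div_iff₀ hji hj0]
    calc La (n + Z.s * i) * j ≤ B * La n * (((j + Z.s * i : ℕ) : ℝ) / j) * j :=
          mul_le_mul_of_nonneg_right h3 hj0.le
      _ = _ := by field_simp
  have hsum : mA A Set.univ k k' (j + Z.s * l) F - mA A Set.univ k k' j F =
      ∑ i ∈ range l, (mA A Set.univ k k' (j + Z.s * (i + 1)) F -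
        mA A Set.univ k k' (j + Z.s * i) F) := by
    rw [Finset.sum_range_sub (fun i => mA A Set.univ k k' (j + Z.s * i) F)]
    simp
  rw [hsum]
  refine (Finset.abs_sum_le_sum_abs _ _).trans ?_
  refine (Finset.sum_le_sum fun i _ => hstep i).trans (le_of_eq ?_)
  rw [Finset.sum_const, card_range, nsmul_eq_mul]
  ring

end

end Q68.PL
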