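import Pool.Agent.Q68.PL.Kes

set_option autoImplicit false

/-!
# Planar lattices, two ends: the quotient of consecutive weighted numbers
-/

namespace Q68.PL

open Finset Filter Topology TH966.KS TH966.KO TH966.AK Q294.Rs Q38.RL
open scoped Classical

variable {A : P → P → Prop} {Z : Rule A} {μ K : ℝ}

noncomputable section

theorem log_le_two_sqrt {y : ℝ} (hy : 0 < y) : Real.log y ≤ 2 * √y := by
  have h := Real.log_le_sub_one_of_pos (Real.sqrt_pos.2 hy)
  have h2 : Real.log y = 2 * Real.log √y := by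
    rw [Real.log_sqrt hy.le]; ring
  rw [h2]; linarith

/-- the growth of the logarithmic factor -/
theorem La_add : ∃ B : ℝ, 1 ≤ B ∧ ∀ n j i : ℕ, 1 ≤ j → j ≤ n →
    La (n + i) ≤ B * La n * (((j + i : ℕ) : ℝ) / j) := by
  have hl2 : 0 < Real.log 2 ^ 2 := pow_pos log2_pos 2
  refine ⟨2 + 8 / Real.log 2 ^ 2, ?_, fun n j i hj hjn => ?_⟩
  · have : 0 ≤ 8 / Real.log 2 ^ 2 := by positivity
    linarith
  have hj0 : (0 : ℝ) < j := by exact_mod_cast hj
  have hjnR : (j : ℝ) ≤ n := by exact_mod_cast hjn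
  have hi0 : (0 : ℝ) ≤ i := Nat.cast_nonneg i
  have hn2 : (0 : ℝ) < (n : ℝ) + 2 := by positivity
  obtain ⟨u, hu⟩ : ∃ u : ℝ, u = (((n + i : ℕ) : ℝ) + 2) / ((n : ℝ) + 2) := ⟨_, rfl⟩
  have hu1 : 1 ≤ u := by
    rw [hu, one_le_div hn2]
    push_cast; linarith
  have huj : u ≤ ((j + i : ℕ) : ℝ) / j := by
    rw [hu, div_le_div_iff₀ hn2 hj0]
    push_cast
    nlinarith
  have hlog : Real.log (((n + i : ℕ) : ℝ) + 2) = Real.log ((n : ℝ) + 2) + Real.log u := by
    rw [← Real.log_mul hn2.ne' (by linarith), hu, mul_div_cancel₀ _ hn2.ne']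
  have hlu0 : 0 ≤ Real.log u := Real.log_nonneg hu1
  have hlu : Real.log u ^ 2 ≤ 4 * u := by
    have h1 := pow_le_pow_left₀ hlu0 (log_le_two_sqrt (by linarith : 0 < u)) 2
    rw [mul_pow, Real.sq_sqrt (by linarith)] at h1
    linarith
  have hLg := La_ge n
  have hL : 0 < La n := La_pos n
  have h1 : La (n + i) ≤ 2 * La n + 2 * Real.log u ^ 2 := by
    have e1 : La (n + i) = (Real.log ((n : ℝ) + 2) + Real.log u) ^ 2 := by
      unfold La; rw [hlog]
    have e2 : La n = Real.log ((n : ℝ) + 2) ^ 2 := rfl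
    rw [e1, e2]
    nlinarith [sq_nonneg (Real.log ((n : ℝ) + 2) - Real.log u)]
  have h2 : 8 * u ≤ 8 / Real.log 2 ^ 2 * La n * u := by
    refine mul_le_mul_of_nonneg_right ?_ (by linarith)
    rw [div_mul_eq_mul_div, le_div_iff₀ hl2]
    linarith
  calc La (n + i) ≤ 2 * La n + 8 * u := by linarith
    _ ≤ 2 * La n * u + 8 / Real.log 2 ^ 2 * La n * u := by
        have : 2 * La n * 1 ≤ 2 * La n * u := mul_le_mul_of_nonneg_left hu1 (by positivity)
        linarith
    _ = (2 + 8 / Real.log 2 ^ 2) * La n * u := by ring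
    _ ≤ _ := mul_le_mul_of_nonneg_left huj (by positivity)

theorem La_two (n i : ℕ) (h : i ≤ n) : La (n + i) ≤ 4 * La n := by
  have h0 : (0 : ℝ) ≤ n := Nat.cast_nonneg n
  have hi : (i : ℝ) ≤ n := by exact_mod_cast h
  have h1 : Real.log (((n + i : ℕ) : ℝ) + 2) ≤ 2 * Real.log ((n : ℝ) + 2) := by
    calc Real.log (((n + i : ℕ) : ℝ) + 2) ≤ Real.log (((n : ℝ) + 2) ^ 2) := by
          apply Real.log_le_log (by positivity)
          push_cast
          nlinarith
      _ = 2 * Real.log ((n : ℝ) + 2) := by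
          rw [Real.log_pow]; norm_num
  have h2 := pow_le_pow_left₀ (log2_pos.le.trans (log_ge (n + i))) h1 2
  have e2 : La n = Real.log ((n : ℝ) + 2) ^ 2 := rfl
  have e1 : La (n + i) = Real.log (((n + i : ℕ) : ℝ) + 2) ^ 2 := rfl
  rw [e1, e2]
  linarith

/-- a large ratio gives growth to the right, with the position of the growth -/
theorem prop_up2 {y : ℕ → ℝ} {D θ : ℝ} {k0 : ℕ} (hK : Kes y D θ k0) (hy : ∀ k, 0 ≤ y k)
    (hD : 0 ≤ D) (hθ0 : 0 < θ) (hθ1 : θ < 1)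
    {k : ℕ} {c : ℝ} (hc0 : 0 < c) (hc1 : c ≤ 1 / 2) (hk8 : 8 ≤ k) (hk0 : k0 ≤ k)
    (hck : 16 * (D + 1) ≤ c * k) (hyk : 0 < y k) (hth : θ ^ k ≤ y k)
    (h : (1 + c) * y k < y (k + 1)) :
    ∃ J : ℕ, c * k / (16 * (D + 1)) ≤ J ∧ J ≤ k ∧ Real.exp (c / 4 * J) * y k ≤ y (k + J) := by
  obtain ⟨J, hJc, hJk, hJ1, hgJ⟩ := common hD hc0 hc1 hk8 hck
  obtain ⟨hexp, hq⟩ := exp_quarter hc0 hc1
  have hkR : (0 : ℝ) < k := by exact_mod_cast (show 0 < k by omega)
  have hgk : 1 + D / (k : ℝ) ≤ 1 + 2 * D / k := by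
    have : D / k ≤ 2 * D / k := div_le_div_of_nonneg_right (by linarith) hkR.le
    linarith
  refine ⟨J, hJc, by omega, ?_⟩
  have h2 := (fwd2 (g := 1 + 2 * D / k) (k := k) (J := J) (ρ := 1 + c) (q := 1 + c / 2) hK hy hD
      hθ0 hθ1 hk0 (by omega) hgk (by linarith) (by
        have h9 : (1 + c / 2) * (1 + 2 * D / k) ^ J ≤ (1 + c / 2) * Real.exp (c / 4) :=
          mul_le_mul_of_nonneg_left hgJ (by linarith)
        refine h9.trans ?_
        have h10 : 1 + c / 2 ≤ (1 + c) * (1 - c / 4) := by nlinarith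
        calc (1 + c / 2) * Real.exp (c / 4) ≤ ((1 + c) * (1 - c / 4)) * Real.exp (c / 4) :=
              mul_le_mul_of_nonneg_right h10 (Real.exp_pos _).le
          _ = (1 + c) * (Real.exp (c / 4) * (1 - c / 4)) := by ring
          _ ≤ (1 + c) * 1 := mul_le_mul_of_nonneg_left hexp (by linarith)
          _ = 1 + c := mul_one _) hyk h.le
      ((pow_le_pow_of_le_one hθ0.le hθ1.le (by omega)).trans hth) J le_rfl).1
  refine le_trans (mul_le_mul_of_nonneg_right ?_ hyk.le) h2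
  rw [mul_comm, Real.exp_nat_mul]
  exact pow_le_pow_left₀ (Real.exp_pos _).le hq J

/-- **the quotient of consecutive weighted numbers** -/
theorem quotW (G : Growth Z μ K) (H : Hom A) : ∃ R : ℝ, 0 < R ∧
    ∀ (D : Set P) (k k' j : ℕ) (ℓ : ℝ), 1 ≤ j → 0 ≤ ℓ →
    R * √((La (k + (j + k')) + ℓ) / j) ≤ 1 / 2 →
    ∀ f : List P → List P → ℝ, (∀ a b, 0 ≤ f a b) → (∀ a b, f a b ≤ Real.exp ℓ) →
    μ ^ (k + (j + k')) * Real.exp (-ℓ) ≤ AF A D k k' j f →
    AF A D k k' (j + Z.s) f ≤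
      (1 + R * √((La (k + (j + k')) + ℓ) / j)) * (AF A D k k' j f * μ ^ Z.s) ∧
    (1 - R * √((La (k + (j + k')) + ℓ) / j)) * (AF A D k k' j f * μ ^ Z.s) ≤
      AF A D k k' (j + Z.s) f := by
  obtain ⟨D1, θ1, C1, hD1, hθ10, hθ11, hC1, hkes⟩ := kesW G H
  obtain ⟨K', hK', hcb⟩ := cb G
  obtain ⟨B, hB, hLa⟩ := La_add
  have hμ := G.hμ
  have hμ0 : 0 < μ := by linarith
  have hs1 := G.hs
  obtain ⟨s, hs⟩ : ∃ s, s = Z.s := ⟨_, rfl⟩
  rw [← hs] at hkes hs1 ⊢
  have hsR : (1 : ℝ) ≤ s := by exact_mod_cast hs1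
  have hs0 : (0 : ℝ) < s := by linarith
  obtain ⟨M, hM⟩ : ∃ M, M = 16 * (D1 + 1) := ⟨_, rfl⟩
  have hM16 : 16 ≤ M := by rw [hM]; linarith
  obtain ⟨θ, hθd⟩ : ∃ θ, θ = √√θ1 := ⟨_, rfl⟩
  have hθ0 : 0 < θ := by rw [hθd]; exact Real.sqrt_pos.2 (Real.sqrt_pos.2 hθ10)
  have hθ1 : θ < 1 := by
    rw [hθd, Real.sqrt_lt' one_pos, one_pow, Real.sqrt_lt' one_pos]
    linarith
  have hθ4 : θ ^ 4 = θ1 := by
    rw [show (4 : ℕ) = 2 * 2 by norm_num, pow_mul, hθd, Real.sq_sqrt (Real.sqrt_nonneg _),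
      Real.sq_sqrt hθ10.le]
  obtain ⟨c2, hc2⟩ : ∃ c2, c2 = -Real.log θ := ⟨_, rfl⟩
  have hc2p : 0 < c2 := by rw [hc2]; linarith [Real.log_neg hθ0 hθ1]
  obtain ⟨l2, hl2d⟩ : ∃ l2, l2 = Real.log 2 ^ 2 := ⟨_, rfl⟩
  have hl2 : 0 < l2 := by rw [hl2d]; exact pow_pos log2_pos 2
  obtain ⟨R, hR⟩ : ∃ R, R = 1 + 4 * s / l2 + C1 * B + s * M / l2 + s / c2 +
    8 * s * M * (2 + 4 * K') := ⟨_, rfl⟩
  have t1 : 0 ≤ 4 * s / l2 := by positivity
  have t2 : 0 ≤ C1 * B := by positivity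
  have t3 : 0 ≤ s * M / l2 := by positivity
  have t4 : 0 ≤ s / c2 := by positivity
  have t5 : 0 ≤ 8 * s * M * (2 + 4 * K') := by positivity
  have hR1 : 1 ≤ R := by rw [hR]; linarith
  have hRR : R ≤ R ^ 2 := by nlinarith
  have q1 : 4 * s / l2 ≤ R ^ 2 := by rw [hR] at hRR ⊢; linarith
  have q2 : C1 * B ≤ R ^ 2 := by rw [hR] at hRR ⊢; linarith
  have q3 : s * M / l2 ≤ R ^ 2 := by rw [hR] at hRR ⊢; linarith
  have q4 : s / c2 ≤ R ^ 2 := by rw [hR] at hRR ⊢; linarith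
  have q5 : 8 * s * M * (2 + 4 * K') < R ^ 2 := by rw [hR] at hRR ⊢; linarith
  have hC1B : C1 ≤ C1 * B := le_mul_of_one_le_right hC1.le hB
  have hR0 : 0 < R := by linarith
  refine ⟨R, hR0, fun D k k' j ℓ hj1 hℓ hx f hf0 hf1 hbig => ?_⟩
  obtain ⟨n, hnd⟩ : ∃ n, n = k + (j + k') := ⟨_, rfl⟩
  rw [← hnd] at hx hbig ⊢
  have hjn : j ≤ n := by omega
  have hjR1 : (1 : ℝ) ≤ j := by exact_mod_cast hj1
  have hj0 : (0 : ℝ) < j := by linarith
  have hL := La_pos n
  have hLg : l2 ≤ La n := by rw [hl2d]; exact La_ge n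
  obtain ⟨p, hp⟩ : ∃ p, p = La n + ℓ := ⟨_, rfl⟩
  have hp0 : 0 < p := by rw [hp]; linarith
  have hpl : l2 ≤ p := by rw [hp]; linarith
  have hpL : La n ≤ p := by rw [hp]; linarith
  have hpℓ : ℓ ≤ p := by rw [hp]; linarith
  rw [← hp] at hx ⊢
  obtain ⟨x, hxd⟩ : ∃ x, x = R * √(p / j) := ⟨_, rfl⟩
  rw [← hxd] at hx ⊢
  have hx0 : 0 < x := by rw [hxd]; positivity
  have hx2 : x ^ 2 * j = R ^ 2 * p := by
    rw [hxd, mul_pow, Real.sq_sqrt (by positivity), mul_assoc, div_mul_cancel₀ _ hj0.ne']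
  have hjp : 4 * (R ^ 2 * p) ≤ j := by
    have h1 : x ^ 2 ≤ (1 / 2) ^ 2 := pow_le_pow_left₀ hx0.le hx 2
    have h2 : x ^ 2 * j ≤ (1 / 2) ^ 2 * j := mul_le_mul_of_nonneg_right h1 hj0.le
    rw [hx2] at h2
    linarith
  have hxj : 2 * (R ^ 2 * p) ≤ x * j := by
    have h1 : x * (x * j) ≤ 1 / 2 * (x * j) := mul_le_mul_of_nonneg_right hx (by positivity)
    have h2 : x * (x * j) = R ^ 2 * p := by rw [← hx2]; ring
    linarith
  have hj16 : 16 * s ≤ j := by
    have h1 : 4 * s / l2 * l2 ≤ R ^ 2 * p := mul_le_mul q1 hpl hl2.le (by positivity)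
    rw [div_mul_cancel₀ _ hl2.ne'] at h1
    have h2 : (16 * s : ℝ) ≤ j := by linarith
    exact_mod_cast h2
  -- the sequence
  obtain ⟨T, hT⟩ : ∃ T, T = j / s := ⟨_, rfl⟩
  obtain ⟨r, hr⟩ : ∃ r, r = j % s := ⟨_, rfl⟩
  have hjT : j = s * T + r := by rw [hT, hr]; exact (Nat.div_add_mod j s).symm
  have hrs : r < s := by rw [hr]; exact Nat.mod_lt _ (by omega)
  have hT16 : 16 ≤ T := by
    rw [hT]
    exact (Nat.le_div_iff_mul_le (by omega)).2 hj16
  have hTj : (j : ℝ) ≤ 2 * s * T := by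
    have h1 : j ≤ 2 * s * T := by
      rw [hjT]
      have : s ≤ s * T := Nat.le_mul_of_pos_right s (by omega)
      have e : 2 * s * T = s * T + s * T := by ring
      omega
    exact_mod_cast h1
  have hT0 : (0 : ℝ) < T := by exact_mod_cast (by omega : 0 < T)
  obtain ⟨y, hy⟩ : ∃ y : ℕ → ℝ, y = fun t => AF A D k k' (s * t + r) f /
    μ ^ (k + (s * t + r + k')) := ⟨_, rfl⟩
  have hyt : ∀ t, y t = AF A D k k' (s * t + r) f / μ ^ (k + (s * t + r + k')) :=
    fun t => by rw [hy]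
  have hy0 : ∀ t, 0 ≤ y t := fun t => by
    rw [hyt]
    exact div_nonneg (AF_nonneg _ _ _ _ hf0) (by positivity)
  have hyT : Real.exp (-ℓ) ≤ y T := by
    rw [hyt, ← hjT, ← hnd, le_div_iff₀ (by positivity), mul_comm]
    exact hbig
  have hyTp : 0 < y T := lt_of_lt_of_le (Real.exp_pos _) hyT
  have hyup : ∀ t, y t ≤ Real.exp ℓ * Real.exp (K' * La (k + (s * t + r + k'))) := by
    intro t
    rw [hyt, div_le_iff₀ (by positivity)]
    refine (AF_le _ _ _ _ (Real.exp_pos _).le hf1).trans ?_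
    calc Real.exp ℓ * ((Kw A (k + (s * t + r + k'))).card : ℝ) ≤ Real.exp ℓ *
          (μ ^ (k + (s * t + r + k')) * Real.exp (K' * La (k + (s * t + r + k')))) :=
          mul_le_mul_of_nonneg_left (hcb _ _ le_rfl) (Real.exp_pos _).le
      _ = _ := by ring
  have hK2 : Kes y D1 θ (T / 2) := by
    intro t ht hth
    obtain ⟨j', hj'⟩ : ∃ j', j' = s * t + r := ⟨_, rfl⟩
    have hjt : t ≤ j' := by
      rw [hj']
      have : t ≤ s * t := Nat.le_mul_of_pos_left t (by omega)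
      omega
    have e1 : s * (t + 1) + r = j' + s := by rw [hj']; ring
    have e2 : s * (t + 2) + r = j' + s + s := by rw [hj']; ring
    have ht1 : 1 ≤ t := by omega
    have hj'0 : (0 : ℝ) < j' := by exact_mod_cast (by omega : 0 < j')
    have ht0 : (0 : ℝ) < t := by exact_mod_cast (by omega : 0 < t)
    have hcond : C1 * (La (k + (j' + k')) + ℓ) ≤ j' := by
      rcases le_total t T with h | h
      · have h1 : La (k + (j' + k')) ≤ La n := by
          apply La_mono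
          have : s * t ≤ s * T := Nat.mul_le_mul_left s h
          omega
        have h2 : j ≤ 4 * j' := by
          have h3 : T ≤ 2 * t + 1 := by omega
          have h4 : s * T ≤ s * (2 * t + 1) := Nat.mul_le_mul_left s h3
          have h5 : s * (2 * t + 1) = 2 * (s * t) + s := by ring
          omega
        have h2R : (j : ℝ) ≤ 4 * j' := by exact_mod_cast h2
        have h6 : C1 * (La (k + (j' + k')) + ℓ) ≤ R ^ 2 * p :=
          mul_le_mul (hC1B.trans q2) (by rw [hp]; linarith) (by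
            have := La_pos (k + (j' + k'))
            linarith) (by positivity)
        linarith
      · obtain ⟨i, hi⟩ : ∃ i, t = T + i := ⟨t - T, by omega⟩
        have hj'j : j' = j + s * i := by rw [hj', hjT, hi]; ring
        have hn' : k + (j' + k') = n + s * i := by omega
        have h1 := hLa n j (s * i) hj1 hjn
        rw [← hn', ← hj'j] at h1
        have h2 : ℓ ≤ B * ℓ * ((j' : ℝ) / j) := by
          have h3 : 1 ≤ (j' : ℝ) / j := by
            rw [one_le_div hj0]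
            exact_mod_cast (by omega : j ≤ j')
          calc ℓ = 1 * ℓ * 1 := by ring
            _ ≤ B * ℓ * ((j' : ℝ) / j) := mul_le_mul (mul_le_mul_of_nonneg_right hB hℓ) h3
                (by norm_num) (by positivity)
        have h4 : C1 * B * p ≤ j := by
          have : C1 * B * p ≤ R ^ 2 * p := mul_le_mul_of_nonneg_right q2 hp0.le
          have : 0 ≤ R ^ 2 * p := by positivity
          linarith
        calc C1 * (La (k + (j' + k')) + ℓ) ≤ C1 * (B * La n * ((j' : ℝ) / j) +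
              B * ℓ * ((j' : ℝ) / j)) := mul_le_mul_of_nonneg_left (add_le_add h1 h2) hC1.le
          _ = C1 * B * p * ((j' : ℝ) / j) := by rw [hp]; ring
          _ ≤ j * ((j' : ℝ) / j) := mul_le_mul_of_nonneg_right h4 (by positivity)
          _ = j' := by field_simp
    have hmu : μ ^ (k + (j' + k') + s) * θ1 ^ j' ≤ AF A D k k' (j' + s) f := by
      rw [hyt, e1, le_div_iff₀ (by positivity)] at hth
      have h1 : θ1 ^ j' ≤ θ ^ (2 * t + 2) := by
        rw [← hθ4, ← pow_mul]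
        exact pow_le_pow_of_le_one hθ0.le hθ1.le (by omega)
      calc μ ^ (k + (j' + k') + s) * θ1 ^ j' ≤ μ ^ (k + (j' + k') + s) * θ ^ (2 * t + 2) :=
            mul_le_mul_of_nonneg_left h1 (by positivity)
        _ = θ ^ (2 * t + 2) * μ ^ (k + (j' + s + k')) := by
            rw [show k + (j' + k') + s = k + (j' + s + k') by ring]; ring
        _ ≤ _ := hth
    have h3 := hkes D k k' j' ℓ hℓ hcond f hf0 hf1 hmu
    rw [hyt, hyt, hyt, e1, e2, ← hj']
    have hDt : D1 / (j' : ℝ) ≤ D1 / t :=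
      div_le_div_of_nonneg_left hD1 ht0 (by exact_mod_cast hjt)
    have hA0 := AF_nonneg (A := A) D k k' j' hf0
    have hA2 := AF_nonneg (A := A) D k k' (j' + s + s) hf0
    have h5 : AF A D k k' (j' + s) f ^ 2 ≤
        AF A D k k' j' f * AF A D k k' (j' + s + s) f * (1 + D1 / t) :=
      h3.trans (mul_le_mul_of_nonneg_left (by linarith) (mul_nonneg hA0 hA2))
    rw [div_pow, show AF A D k k' j' f / μ ^ (k + (j' + k')) *
        (AF A D k k' (j' + s + s) f / μ ^ (k + (j' + s + s + k'))) * (1 + D1 / (t : ℝ)) =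
        (AF A D k k' j' f * AF A D k k' (j' + s + s) f * (1 + D1 / t)) /
        (μ ^ (k + (j' + k')) * μ ^ (k + (j' + s + s + k'))) by
      field_simp]
    have e3 : (μ ^ (k + (j' + s + k'))) ^ 2 = μ ^ (k + (j' + k')) *
        μ ^ (k + (j' + s + s + k')) := by
      rw [← pow_mul, ← pow_add]
      congr 1
      ring
    rw [e3]
    exact div_le_div_of_nonneg_right h5 (by positivity)
  have hlam : AF A D k k' j f * μ ^ s = y T * μ ^ (k + (j + s + k')) := by
    rw [hyt, ← hjT]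
    have e : k + (j + s + k') = k + (j + k') + s := by ring
    rw [e, pow_add μ (k + (j + k')) s, ← mul_assoc, div_mul_cancel₀ _ (by positivity)]
  have hlam2 : AF A D k k' (j + s) f = y (T + 1) * μ ^ (k + (j + s + k')) := by
    rw [hyt, show s * (T + 1) + r = j + s by rw [hjT]; ring, div_mul_cancel₀ _ (by positivity)]
  have hmp : 0 < μ ^ (k + (j + s + k')) := by positivity
  rw [hlam, hlam2, ← mul_assoc, ← mul_assoc]
  -- the size of the product
  have hxT : x * j ≤ 2 * s * (x * T) := by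
    have := mul_le_mul_of_nonneg_left hTj hx0.le
    calc x * j ≤ x * (2 * s * T) := this
      _ = _ := by ring
  have hMT : 16 * (D1 + 1) ≤ x * T := by
    rw [← hM]
    have h1 : s * M / l2 * l2 ≤ R ^ 2 * p := mul_le_mul q3 hpl hl2.le (by positivity)
    rw [div_mul_cancel₀ _ hl2.ne'] at h1
    have h2 : s * M ≤ s * (x * T) := by linarith
    exact le_of_mul_le_mul_left h2 hs0
  have hthT : θ ^ T ≤ y T := by
    refine le_trans ?_ hyT
    have e3 : θ ^ T = Real.exp (-(c2 * T)) := by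
      rw [hc2, ← Real.exp_log hθ0, ← Real.exp_nat_mul, Real.exp_log hθ0]
      congr 1
      ring
    rw [e3, Real.exp_le_exp]
    have h1 : s / c2 * ℓ ≤ R ^ 2 * p := mul_le_mul q4 hpℓ hℓ (by positivity)
    have h2 : s / c2 * ℓ * c2 = s * ℓ := by field_simp
    have h3 : s * ℓ ≤ s * (c2 * T) := by
      have h4 : s / c2 * ℓ ≤ s * T := by
        have h5 : 4 * (R ^ 2 * p) ≤ 2 * s * T := hjp.trans hTj
        have h6 : 0 ≤ R ^ 2 * p := by positivity
        linarith
      calc s * ℓ = s / c2 * ℓ * c2 := h2.symm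
        _ ≤ s * T * c2 := mul_le_mul_of_nonneg_right h4 hc2p.le
        _ = _ := by ring
    have h4 := le_of_mul_le_mul_left h3 hs0
    linarith
  -- the contradiction
  have hcon : ∀ J : ℕ, x * T / (16 * (D1 + 1)) ≤ J →
      Real.exp (x / 4 * J) * y T ≤ Real.exp ℓ * Real.exp (K' * (4 * La n)) → False := by
    intro J hJ1 hJ3
    rw [← hM] at hJ1
    have h1 : Real.exp (x / 4 * J - ℓ) ≤ Real.exp (ℓ + K' * (4 * La n)) := by
      rw [Real.exp_add, Real.exp_sub, div_eq_mul_inv, ← Real.exp_neg]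
      exact (mul_le_mul_of_nonneg_left hyT (Real.exp_pos _).le).trans hJ3
    rw [Real.exp_le_exp] at h1
    have h2 : x / 4 * (x * T / M) ≤ (2 + 4 * K') * p := by
      have h3 : x / 4 * (x * T / M) ≤ x / 4 * J := mul_le_mul_of_nonneg_left hJ1 (by positivity)
      have h4 : 4 * K' * La n ≤ 4 * K' * p := mul_le_mul_of_nonneg_left hpL (by positivity)
      linarith
    have h5 : x / 4 * (x * T / M) = x ^ 2 * T / (4 * M) := by field_simp
    rw [h5, div_le_iff₀ (by positivity)] at h2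
    have h6 : R ^ 2 * p ≤ 2 * s * (x ^ 2 * T) := by
      rw [← hx2]
      calc x ^ 2 * j ≤ x ^ 2 * (2 * s * T) := mul_le_mul_of_nonneg_left hTj (sq_nonneg _)
        _ = _ := by ring
    have h7 : R ^ 2 * p ≤ 8 * s * M * (2 + 4 * K') * p := by
      calc R ^ 2 * p ≤ 2 * s * (x ^ 2 * T) := h6
        _ ≤ 2 * s * ((2 + 4 * K') * p * (4 * M)) := mul_le_mul_of_nonneg_left h2 (by positivity)
        _ = _ := by ring
    have h8 := le_of_mul_le_mul_right h7 hp0
    linarith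
  have hLab : ∀ m, m ≤ n + n → La m ≤ 4 * La n := fun m hm =>
    (La_mono hm).trans (La_two n n le_rfl)
  constructor
  · refine mul_le_mul_of_nonneg_right ?_ hmp.le
    by_contra hc
    obtain ⟨J, hJ1, hJ2, hJ3⟩ := prop_up2 hK2 hy0 hD1 hθ0 hθ1 hx0 hx (by omega) (by omega)
      hMT hyTp hthT (not_le.1 hc)
    refine hcon J hJ1 (hJ3.trans ((hyup _).trans ?_))
    refine mul_le_mul_of_nonneg_left (Real.exp_le_exp.2 (mul_le_mul_of_nonneg_left (hLab _ ?_)
      hK')) (Real.exp_pos _).le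
    have h1 : s * (T + J) ≤ s * (T + T) := Nat.mul_le_mul_left s (by omega)
    have h2 : s * (T + T) = s * T + s * T := by ring
    omega
  · refine mul_le_mul_of_nonneg_right ?_ hmp.le
    by_contra hc
    obtain ⟨J, hJ1, -, hJ2, hJ3⟩ := prop_down hK2 hy0 hD1 hθ0 hθ1 hx0 hx (by omega) (by omega)
      hMT hyTp hthT (not_le.1 hc)
    refine hcon J hJ1 (hJ3.trans ((hyup _).trans ?_))
    refine mul_le_mul_of_nonneg_left (Real.exp_le_exp.2 (mul_le_mul_of_nonneg_left (hLab _ ?_)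
      hK')) (Real.exp_pos _).le
    have h1 : s * (T - J) ≤ s * T := Nat.mul_le_mul_left s (by omega)
    omega

end

end Q68.PL
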