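import Pool.Agent.Q68.PL.Point

set_option autoImplicit false

/-!
# Planar lattices, two ends: the quotient, with a hypothesis on either side
-/

namespace Q68.PL

open Finset Filter Topology TH966.KS TH966.KO TH966.AK Q294.Rs Q38.RL
open scoped Classical

variable {A : P → P → Prop} {Z : Rule A} {μ K : ℝ}

noncomputable section

/-- a lower bound for the number of the shorter walks -/
theorem lowR (G : Growth Z μ K) (H : Hom A) : ∃ C Q : ℝ, 0 < C ∧ 1 ≤ Q ∧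
    ∀ (D : Set P) (k k' j : ℕ) (ℓ : ℝ), 1 ≤ j → 0 ≤ ℓ →
    C * (La (k + (j + k')) + ℓ) ≤ j →
    ∀ f : List P → List P → ℝ, (∀ a b, 0 ≤ f a b) → (∀ a b, f a b ≤ Real.exp ℓ) →
    μ ^ (k + (j + k') + Z.s) * Real.exp (-ℓ) ≤ AF A D k k' (j + Z.s) f →
    μ ^ (k + (j + k')) * Real.exp (-(Q * (La (k + (j + k')) + ℓ))) ≤ AF A D k k' j f := by
  obtain ⟨D1, θ1, C1, hD1, hθ10, hθ11, hC1, hkes⟩ := kesW G H
  obtain ⟨K', hK', hcb⟩ := cb G
  have hμ := G.hμ
  have hμ0 : 0 < μ := by linarith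
  obtain ⟨s, hs⟩ : ∃ s, s = Z.s := ⟨_, rfl⟩
  rw [← hs] at hkes ⊢
  obtain ⟨l2, hl2d⟩ : ∃ l2, l2 = Real.log 2 ^ 2 := ⟨_, rfl⟩
  have hl2 : 0 < l2 := by rw [hl2d]; exact pow_pos log2_pos 2
  obtain ⟨c1, hc1⟩ : ∃ c1, c1 = -Real.log θ1 := ⟨_, rfl⟩
  have hc1p : 0 < c1 := by rw [hc1]; linarith [Real.log_neg hθ10 hθ11]
  have hlD : 0 ≤ Real.log (1 + D1) := Real.log_nonneg (by linarith)
  obtain ⟨C, hC⟩ : ∃ C, C = C1 + 1 / c1 + 2 * s / l2 := ⟨_, rfl⟩
  have t1 : 0 ≤ 1 / c1 := by positivity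
  have t2 : 0 ≤ 2 * s / l2 := by positivity
  have hC0 : 0 < C := by rw [hC]; linarith
  obtain ⟨Q, hQ⟩ : ∃ Q, Q = 3 + 4 * K' + Real.log (1 + D1) / l2 := ⟨_, rfl⟩
  have t3 : 0 ≤ Real.log (1 + D1) / l2 := by positivity
  refine ⟨C, Q, hC0, by rw [hQ]; linarith, fun D k k' j ℓ hj hℓ hx f hf0 hf1 hbig => ?_⟩
  obtain ⟨n, hn⟩ : ∃ n, n = k + (j + k') := ⟨_, rfl⟩
  rw [← hn] at hx hbig ⊢
  have hjR : (1 : ℝ) ≤ j := by exact_mod_cast hj
  have hj0 : (0 : ℝ) < j := by linarith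
  have hL := La_pos n
  have hLg : l2 ≤ La n := by rw [hl2d]; exact La_ge n
  obtain ⟨p, hp⟩ : ∃ p, p = La n + ℓ := ⟨_, rfl⟩
  have hp0 : 0 < p := by rw [hp]; linarith
  rw [← hp] at hx ⊢
  have h1 : C1 * p ≤ j := by
    refine le_trans (mul_le_mul_of_nonneg_right ?_ hp0.le) hx
    rw [hC]; linarith
  have h2 : ℓ ≤ c1 * j := by
    have h3 : 1 / c1 * p ≤ j := by
      refine le_trans (mul_le_mul_of_nonneg_right ?_ hp0.le) hx
      rw [hC]; linarith
    rw [div_mul_eq_mul_div, one_mul, div_le_iff₀ hc1p] at h3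
    rw [hp] at h3
    linarith
  have h3 : 2 * s ≤ n := by
    have h4 : 2 * s / l2 * p ≤ j := by
      refine le_trans (mul_le_mul_of_nonneg_right ?_ hp0.le) hx
      rw [hC]; linarith
    have h5 : 2 * s / l2 * l2 ≤ 2 * s / l2 * p :=
      mul_le_mul_of_nonneg_left (by rw [hp]; linarith) t2
    rw [div_mul_cancel₀ _ hl2.ne'] at h5
    have h6 : (2 * s : ℝ) ≤ j := h5.trans h4
    have h7 : 2 * s ≤ j := by exact_mod_cast h6
    omega
  have hθ : θ1 ^ j ≤ Real.exp (-ℓ) := by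
    have e3 : θ1 ^ j = Real.exp (-(c1 * j)) := by
      rw [hc1, ← Real.exp_log hθ10, ← Real.exp_nat_mul, Real.exp_log hθ10]
      congr 1
      ring
    rw [e3, Real.exp_le_exp]
    linarith
  have h4 := hkes D k k' j ℓ hℓ (by rw [← hn, ← hp]; exact h1) f hf0 hf1 (by
    rw [← hn]
    exact (mul_le_mul_of_nonneg_left hθ (by positivity)).trans hbig)
  have h5 : AF A D k k' (j + s + s) f ≤ Real.exp ℓ * (μ ^ (n + s + s) *
      Real.exp (K' * (4 * La n))) := by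
    refine (AF_le _ _ _ _ (Real.exp_pos _).le hf1).trans ?_
    refine mul_le_mul_of_nonneg_left ?_ (Real.exp_pos _).le
    have e : k + (j + s + s + k') = n + s + s := by rw [hn]; ring
    rw [e]
    refine (hcb _ _ le_rfl).trans (mul_le_mul_of_nonneg_left (Real.exp_le_exp.2
      (mul_le_mul_of_nonneg_left ?_ hK')) (by positivity))
    exact (La_mono (by omega : n + s + s ≤ n + n)).trans (La_two n n le_rfl)
  obtain ⟨X, hX⟩ : ∃ X, X = AF A D k k' j f := ⟨_, rfl⟩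
  obtain ⟨Y, hY⟩ : ∃ Y, Y = AF A D k k' (j + s) f := ⟨_, rfl⟩
  obtain ⟨W, hW⟩ : ∃ W, W = AF A D k k' (j + s + s) f := ⟨_, rfl⟩
  have hX0 : 0 ≤ X := by rw [hX]; exact AF_nonneg _ _ _ _ hf0
  have hW0 : 0 ≤ W := by rw [hW]; exact AF_nonneg _ _ _ _ hf0
  rw [← hX, ← hY, ← hW] at h4
  rw [← hY] at hbig
  rw [← hW] at h5
  rw [← hX]
  have hDj : 1 + D1 / (j : ℝ) ≤ Real.exp (Real.log (1 + D1)) := by
    rw [Real.exp_log (by linarith)]
    have : D1 / (j : ℝ) ≤ D1 := div_le_self hD1 hjR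
    linarith
  have h6 : (μ ^ (n + s) * Real.exp (-ℓ)) ^ 2 ≤ X * (Real.exp ℓ * (μ ^ (n + s + s) *
      Real.exp (K' * (4 * La n)))) * Real.exp (Real.log (1 + D1)) := by
    calc (μ ^ (n + s) * Real.exp (-ℓ)) ^ 2 ≤ Y ^ 2 :=
          pow_le_pow_left₀ (by positivity) hbig 2
      _ ≤ X * W * (1 + D1 / j) := h4
      _ ≤ _ := mul_le_mul (mul_le_mul_of_nonneg_left h5 hX0) hDj (by positivity)
          (mul_nonneg hX0 (by positivity))
  have h7 : (μ ^ (n + s) * Real.exp (-ℓ)) ^ 2 = μ ^ n * Real.exp (-(3 * ℓ + K' * (4 * La n) +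
      Real.log (1 + D1))) * (Real.exp ℓ * (μ ^ (n + s + s) *
      Real.exp (K' * (4 * La n))) * Real.exp (Real.log (1 + D1))) := by
    have e1 : (μ ^ (n + s)) ^ 2 = μ ^ n * μ ^ (n + s + s) := by
      rw [← pow_mul, ← pow_add]; congr 1; ring
    have e2 : Real.exp (-ℓ) ^ 2 = Real.exp (-(3 * ℓ + K' * (4 * La n) + Real.log (1 + D1))) *
        Real.exp ℓ * Real.exp (K' * (4 * La n)) * Real.exp (Real.log (1 + D1)) := by
      rw [← Real.exp_add, ← Real.exp_add, ← Real.exp_add, ← Real.exp_nat_mul]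
      congr 1
      push_cast
      ring
    rw [mul_pow, e1, e2]
    ring
  rw [h7, show X * (Real.exp ℓ * (μ ^ (n + s + s) * Real.exp (K' * (4 * La n)))) *
      Real.exp (Real.log (1 + D1)) = X * (Real.exp ℓ * (μ ^ (n + s + s) *
      Real.exp (K' * (4 * La n))) * Real.exp (Real.log (1 + D1))) by ring] at h6
  have h8 := le_of_mul_le_mul_right h6 (by positivity)
  refine le_trans (mul_le_mul_of_nonneg_left (Real.exp_le_exp.2 (neg_le_neg ?_))
    (by positivity)) h8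
  have h9 : Real.log (1 + D1) ≤ Real.log (1 + D1) / l2 * La n := by
    calc Real.log (1 + D1) = Real.log (1 + D1) / l2 * l2 := by field_simp
      _ ≤ _ := mul_le_mul_of_nonneg_left hLg t3
  have h10 : 0 ≤ 4 * K' * ℓ := by positivity
  have h11 : 0 ≤ Real.log (1 + D1) / l2 * ℓ := by positivity
  rw [hQ, hp]
  linarith

/-- **the quotient, with a hypothesis on either side** -/
theorem quot2 (G : Growth Z μ K) (H : Hom A) : ∃ R : ℝ, 0 < R ∧
    ∀ (D : Set P) (k k' j : ℕ) (ℓ : ℝ), 1 ≤ j → 0 ≤ ℓ →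
    R * √((La (k + (j + k')) + ℓ) / j) ≤ 1 / 2 →
    ∀ f : List P → List P → ℝ, (∀ a b, 0 ≤ f a b) → (∀ a b, f a b ≤ Real.exp ℓ) →
    μ ^ (k + (j + k')) * Real.exp (-ℓ) ≤ AF A D k k' j f ∨
      μ ^ (k + (j + k') + Z.s) * Real.exp (-ℓ) ≤ AF A D k k' (j + Z.s) f →
    0 < AF A D k k' j f ∧
    AF A D k k' (j + Z.s) f ≤
      (1 + R * √((La (k + (j + k')) + ℓ) / j)) * (AF A D k k' j f * μ ^ Z.s) ∧
    (1 - R * √((La (k + (j + k')) + ℓ) / j)) * (AF A D k k' j f * μ ^ Z.s) ≤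
      AF A D k k' (j + Z.s) f := by
  obtain ⟨R0, hR0, hq⟩ := quotW G H
  obtain ⟨C, Q, hC, hQ, hl⟩ := lowR G H
  have hμ := G.hμ
  have hμ0 : 0 < μ := by linarith
  refine ⟨1 + C + R0 * √(1 + Q), by positivity, fun D k k' j ℓ hj hℓ hx f hf0 hf1 hbig => ?_⟩
  obtain ⟨n, hn⟩ : ∃ n, n = k + (j + k') := ⟨_, rfl⟩
  rw [← hn] at hx hbig ⊢
  have hjR : (1 : ℝ) ≤ j := by exact_mod_cast hj
  have hj0 : (0 : ℝ) < j := by linarith
  have hL := La_pos n
  obtain ⟨p, hp⟩ : ∃ p, p = La n + ℓ := ⟨_, rfl⟩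
  have hp0 : 0 < p := by rw [hp]; linarith
  have hpℓ : ℓ ≤ p := by rw [hp]; linarith
  have hs1Q : 1 ≤ √(1 + Q) := Real.one_le_sqrt.2 (by linarith)
  obtain ⟨x, hxd⟩ : ∃ x, x = √(p / j) := ⟨_, rfl⟩
  have hx0 : 0 < x := by rw [hxd]; positivity
  have hx2 : x ^ 2 * j = p := by
    rw [hxd, Real.sq_sqrt (by positivity), div_mul_cancel₀ _ hj0.ne']
  rw [← hp, ← hxd] at hx ⊢
  have hCx : C * x ≤ 1 / 2 := by
    refine le_trans (mul_le_mul_of_nonneg_right ?_ hx0.le) hx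
    have : 0 ≤ R0 * √(1 + Q) := by positivity
    linarith
  have hx1 : x ≤ 1 / 2 := by
    refine le_trans ?_ hx
    have : 0 ≤ (C + R0 * √(1 + Q)) * x := by positivity
    linarith
  have hCp : C * p ≤ j := by
    rw [← hx2]
    have h1 : C * x * x ≤ 1 / 2 * (1 / 2) := mul_le_mul hCx hx1 hx0.le (by norm_num)
    calc C * (x ^ 2 * j) = C * x * x * j := by ring
      _ ≤ 1 * j := mul_le_mul_of_nonneg_right (by linarith) hj0.le
      _ = j := one_mul _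
  obtain ⟨ℓ', hℓ'⟩ : ∃ ℓ', ℓ' = Q * p := ⟨_, rfl⟩
  have hpQ : p ≤ Q * p := le_mul_of_one_le_left hp0.le hQ
  have hℓℓ : ℓ ≤ ℓ' := by rw [hℓ']; linarith
  have hx' : R0 * √((La n + ℓ') / j) ≤ (1 + C + R0 * √(1 + Q)) * x := by
    have h1 : √((La n + ℓ') / j) ≤ √(1 + Q) * x := by
      rw [hxd, ← Real.sqrt_mul (by linarith)]
      apply Real.sqrt_le_sqrt
      rw [← mul_div_assoc]
      refine div_le_div_of_nonneg_right ?_ hj0.le
      rw [hℓ', add_mul, one_mul]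
      have : La n ≤ p := by rw [hp]; linarith
      linarith
    calc R0 * √((La n + ℓ') / j) ≤ R0 * (√(1 + Q) * x) := mul_le_mul_of_nonneg_left h1 hR0.le
      _ ≤ _ := by
        have : 0 ≤ (1 + C) * x := by positivity
        linarith
  have hb : μ ^ n * Real.exp (-ℓ') ≤ AF A D k k' j f := by
    rcases hbig with h | h
    · refine le_trans (mul_le_mul_of_nonneg_left (Real.exp_le_exp.2 (by linarith))
        (by positivity)) h
    · have h1 := hl D k k' j ℓ hj hℓ (by rw [← hn, ← hp]; exact hCp) f hf0 hf1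
        (by rw [← hn]; exact h)
      rw [← hn, ← hp, ← hℓ'] at h1
      exact h1
  have h0 : 0 < AF A D k k' j f := lt_of_lt_of_le (by positivity) hb
  have h1 := hq D k k' j ℓ' hj (by linarith) (by rw [← hn]; linarith) f hf0
    (fun a b => (hf1 a b).trans (Real.exp_le_exp.2 hℓℓ)) (by rw [← hn]; exact hb)
  rw [← hn] at h1
  have hm : 0 < AF A D k k' j f * μ ^ Z.s := by positivity
  refine ⟨h0, h1.1.trans (mul_le_mul_of_nonneg_right (by linarith) hm.le),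
    le_trans (mul_le_mul_of_nonneg_right (by linarith) hm.le) h1.2⟩

end

end Q68.PL
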