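import Pool.Agent.Q68.PL.Fun

set_option autoImplicit false

/-!
# Planar lattices: the size of the pieces
-/

namespace Q68.PL

open Finset Filter Topology TH966.KS TH966.KO TH966.AK Q294.Rs Q38.RL
open scoped Classical

variable {A : P → P → Prop} {Z : Rule A} {μ K : ℝ}

noncomputable section

theorem wD_finite (Z : Rule A) (D : Set P) (n : ℕ) : (wD A D n).Finite := by
  have h1 : (List.ofFn '' wD A D n).Finite := by
    rw [image_wD Z D n]
    exact Finset.finite_toSet _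
  exact h1.of_finite_image List.ofFn_injective.injOn

theorem fs_eq (Z : Rule A) (D : Set P) (n : ℕ) (g : (Fin (n + 1) → ℤ × ℤ) → ℝ) :
    ∑ᶠ ω ∈ wD A D n, g ω = ∑ ω ∈ (wD_finite Z D n).toFinset, g ω :=
  finsum_mem_eq_finite_toFinset_sum _ _

theorem mean_congr (D : Set P) (n : ℕ) {g g' : (Fin (n + 1) → ℤ × ℤ) → ℝ}
    (h : ∀ ω ∈ wD A D n, g ω = g' ω) : mean A D n g = mean A D n g' := by
  unfold mean
  rw [finsum_mem_congr rfl h]

theorem mean_smul (Z : Rule A) (D : Set P) (n : ℕ) (c : ℝ) (g : (Fin (n + 1) → ℤ × ℤ) → ℝ) :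
    mean A D n (fun ω => c * g ω) = c * mean A D n g := by
  unfold mean
  rw [fs_eq Z, fs_eq Z, ← mul_sum, mul_div_assoc]

theorem fs_ge (Z : Rule A) (D : Set P) (n : ℕ) (c : ℝ) (g : (Fin (n + 1) → ℤ × ℤ) → ℝ)
    (h : ∀ ω ∈ wD A D n, c ≤ g ω) : c * ((wD A D n).ncard : ℝ) ≤ ∑ᶠ ω ∈ wD A D n, g ω := by
  rw [fs_eq Z, Set.ncard_eq_toFinset_card _ (wD_finite Z D n), mul_comm, ← nsmul_eq_mul,
    ← sum_const]
  refine sum_le_sum fun ω hω => h ω ?_
  rwa [Set.Finite.mem_toFinset] at hω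

theorem fs_le (Z : Rule A) (D : Set P) (n : ℕ) (c : ℝ) (g : (Fin (n + 1) → ℤ × ℤ) → ℝ)
    (h : ∀ ω ∈ wD A D n, g ω ≤ c) : ∑ᶠ ω ∈ wD A D n, g ω ≤ c * ((wD A D n).ncard : ℝ) := by
  rw [fs_eq Z, Set.ncard_eq_toFinset_card _ (wD_finite Z D n), mul_comm, ← nsmul_eq_mul,
    ← sum_const]
  refine sum_le_sum fun ω hω => h ω ?_
  rwa [Set.Finite.mem_toFinset] at hω

theorem card_univ (Z : Rule A) (n : ℕ) :
    (((wD A Set.univ n).ncard : ℕ) : ℝ) = ((Kw A n).card : ℝ) := by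
  rw [← card_KD Z, KD_univ]

theorem card_pos' (G : Growth Z μ K) (n : ℕ) : (0 : ℝ) < ((wD A Set.univ n).ncard : ℝ) := by
  rw [card_univ Z]
  have := G.hμ
  exact lt_of_lt_of_le (by positivity) (G.low n)

/-- the relative estimate for functions with values between `1` and `V` -/
theorem relV (G : Growth Z μ K) (H : Hom A) : ∃ C : ℝ, 0 < C ∧
    ∀ n k k' j : ℕ, k + (j + k') = n → 1 ≤ j → ∀ V : ℝ, 1 ≤ V →
    ∀ g : (Fin (k + 1) → ℤ × ℤ) → (Fin (k' + 1) → ℤ × ℤ) → ℝ,
    (∀ m, m = n ∨ m = n + Z.s → ∀ ω ∈ wD A Set.univ m, 1 ≤ two m k k' g ω ∧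
      two m k k' g ω ≤ V) →
    C * √((La n + Real.log V) / j) ≤ 1 →
    0 < mean A Set.univ n (two n k k' g) ∧
    |mean A Set.univ (n + Z.s) (two (n + Z.s) k k' g) / mean A Set.univ n (two n k k' g) - 1| ≤
      C * √((La n + Real.log V) / j) := by
  obtain ⟨C, hC, h⟩ := relW G H
  have hμ := G.hμ
  refine ⟨C, hC, fun n k k' j hn hj V hV g hg hx => ?_⟩
  subst hn
  have hV0 : 0 < V := by linarith
  have hlV : 0 ≤ Real.log V := Real.log_nonneg hV
  obtain ⟨F, hF⟩ : ∃ F : (Fin (k + 1) → ℤ × ℤ) → (Fin (k' + 1) → ℤ × ℤ) → ℝ,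
    F = fun x z => max 0 (min 1 (V⁻¹ * g x z)) := ⟨_, rfl⟩
  have hF0 : ∀ x z, 0 ≤ F x z := fun x z => by rw [hF]; exact le_max_left _ _
  have hF1 : ∀ x z, F x z ≤ 1 := fun x z => by
    rw [hF]; exact max_le zero_le_one (min_le_left _ _)
  have hFg : ∀ m, m = k + (j + k') ∨ m = k + (j + k') + Z.s → ∀ ω ∈ wD A Set.univ m,
      two m k k' F ω = V⁻¹ * two m k k' g ω := by
    intro m hm ω hω
    obtain ⟨h1, h2⟩ := hg m hm ω hω
    unfold two at h1 h2 ⊢
    rw [hF]
    simp only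
    rw [min_eq_right, max_eq_right]
    · exact mul_nonneg (by positivity) (by linarith)
    · rw [inv_mul_le_iff₀ hV0, mul_one]
      exact h2
  have hm : ∀ m, m = k + (j + k') ∨ m = k + (j + k') + Z.s →
      mean A Set.univ m (two m k k' F) = V⁻¹ * mean A Set.univ m (two m k k' g) := by
    intro m hm
    rw [← mean_smul Z]
    exact mean_congr _ _ (hFg m hm)
  have hbig : μ ^ (k + (j + k')) * Real.exp (-Real.log V) ≤
      AF A Set.univ k k' j (lft k k' F) := by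
    rw [← sum_two Z Set.univ rfl, Real.exp_neg, Real.exp_log hV0]
    refine le_trans ?_ (fs_ge Z Set.univ _ V⁻¹ _ fun ω hω => ?_)
    · rw [card_univ Z, mul_comm]
      exact mul_le_mul_of_nonneg_left (G.low _) (by positivity)
    · rw [hFg _ (Or.inl rfl) ω hω]
      exact le_mul_of_one_le_right (by positivity) (hg _ (Or.inl rfl) ω hω).1
  obtain ⟨h1, -, h2⟩ := h Set.univ k k' j (Real.log V) hj hlV (lft k k' F)
    (fun a b => hF0 _ _) (fun a b => hF1 _ _) (Or.inl hbig) hx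
  rw [← mean_two (n := k + (j + k') + Z.s) Z Set.univ (by omega),
    ← mean_two (n := k + (j + k')) Z Set.univ rfl, hm _ (Or.inl rfl), hm _ (Or.inr rfl),
    mul_div_mul_left _ _ (by positivity)] at h2
  rw [← mean_two (n := k + (j + k')) Z Set.univ rfl, hm _ (Or.inl rfl)] at h1
  exact ⟨by
    have := (mul_pos_iff_of_pos_left (show 0 < V⁻¹ by positivity)).1 h1
    exact this, h2⟩

/-- a placement of the lattice in the plane -/
structure Place (A : P → P → Prop) (pos : P → ℂ) : Prop where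
  sep : ∀ x y, x ≠ y → 1 ≤ ‖pos x - pos y‖
  adj : ∀ x y, A x y → ‖pos y - pos x‖ = 1

variable {pos : P → ℂ}

theorem ex_ne {n : ℕ} {ω : Fin (n + 1) → ℤ × ℤ} (hω : ω ∈ wD A Set.univ n) {t u : ℕ}
    (ht : t ≤ n) (hu : u ≤ n) (htu : t ≠ u) : ex ω t ≠ ex ω u := by
  unfold ex
  intro hc
  have := hω.2.1 hc
  rw [Fin.mk.injEq] at this
  omega

theorem ex_norm (hP : Place A pos) {n : ℕ} {ω : Fin (n + 1) → ℤ × ℤ}
    (hω : ω ∈ wD A Set.univ n) (t : ℕ) : ∀ b : ℕ, t + b ≤ n →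
    ‖pos (ex ω (t + b)) - pos (ex ω t)‖ ≤ b := by
  intro b
  induction b with
  | zero => intro _; simp
  | succ b ih =>
    intro hb
    have h1 := ih (by omega)
    have h2 : ‖pos (ex ω (t + (b + 1))) - pos (ex ω (t + b))‖ = 1 := by
      apply hP.adj
      have h3 := hω.2.2.1 ⟨t + b, by omega⟩
      unfold ex
      convert h3 using 2
      · apply Fin.ext
        show min (t + b) n = t + b
        omega
      · apply Fin.ext
        show min (t + (b + 1)) n = t + b + 1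
        omega
    calc ‖pos (ex ω (t + (b + 1))) - pos (ex ω t)‖ = ‖(pos (ex ω (t + (b + 1))) -
          pos (ex ω (t + b))) + (pos (ex ω (t + b)) - pos (ex ω t))‖ := by
            congr 1; ring
      _ ≤ 1 + b := by
          refine (norm_add_le _ _).trans ?_
          linarith
      _ = _ := by push_cast; ring

/-- the `q`-th power of the distance between the sites at the times `t` and `t + b` -/
theorem ex_pow (hP : Place A pos) {q : ℝ} (hq : 0 ≤ q) {n : ℕ} {ω : Fin (n + 1) → ℤ × ℤ}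
    (hω : ω ∈ wD A Set.univ n) {t u : ℕ} (hu : u ≤ n) (htu : t < u) {N : ℕ} (hN : n ≤ N) :
    1 ≤ ‖pos (ex ω u) - pos (ex ω t)‖ ^ q ∧ ‖pos (ex ω u) - pos (ex ω t)‖ ^ q ≤ (N : ℝ) ^ q := by
  obtain ⟨b, rfl⟩ : ∃ b, u = t + b := ⟨u - t, by omega⟩
  have h1 : 1 ≤ ‖pos (ex ω (t + b)) - pos (ex ω t)‖ :=
    hP.sep _ _ (ex_ne hω (by omega) (by omega) (by omega))
  have h2 := ex_norm hP hω t b hu
  refine ⟨Real.one_le_rpow h1 hq, Real.rpow_le_rpow (norm_nonneg _) (h2.trans ?_) hq⟩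
  exact_mod_cast (by omega : b ≤ N)

/-- the mean of the `q`-th power of the displacement of the second of three pieces -/
def Mq (A : P → P → Prop) (pos : P → ℂ) (q : ℝ) (a b c : ℕ) : ℝ :=
  mean A Set.univ (a + b + c) (fun ω => ‖pos (ex ω (a + b)) - pos (ex ω a)‖ ^ q)

theorem log_pow_le {q : ℝ} (hq : 0 ≤ q) {n s : ℕ} (hs : s ≤ 2) (hn : 1 ≤ n) :
    0 ≤ Real.log (((n + s : ℕ) : ℝ) ^ q) ∧
    Real.log (((n + s : ℕ) : ℝ) ^ q) ≤ q / Real.log 2 * La n := by
  have h0 : (1 : ℝ) ≤ ((n + s : ℕ) : ℝ) := by exact_mod_cast (by omega : 1 ≤ n + s)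
  have hsR : (s : ℝ) ≤ 2 := by exact_mod_cast hs
  have h1 : Real.log ((n + s : ℕ) : ℝ) ≤ Real.log ((n : ℝ) + 2) := by
    apply Real.log_le_log (by linarith)
    push_cast
    linarith
  have h2 : 0 ≤ Real.log ((n + s : ℕ) : ℝ) := Real.log_nonneg h0
  have h3 := log_ge n
  have h4 := log2_pos
  rw [Real.log_rpow (by linarith)]
  refine ⟨mul_nonneg hq h2, ?_⟩
  rw [div_mul_eq_mul_div, le_div_iff₀ h4]
  have e2 : La n = Real.log ((n : ℝ) + 2) ^ 2 := rfl
  rw [e2, mul_assoc]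
  refine mul_le_mul_of_nonneg_left ?_ hq
  rw [pow_two]
  exact mul_le_mul h1 h3 h4.le (by linarith)

/-- one piece becomes longer by one step of the rule -/
theorem size_one (G : Growth Z μ K) (H : Hom A) (hs2 : Z.s ≤ 2) (hP : Place A pos) {q : ℝ}
    (hq : 0 ≤ q) : ∃ C : ℝ, 0 < C ∧ ∀ a b c : ℕ, 1 ≤ b →
    (C * (Real.log (((a + b + c : ℕ) : ℝ) + 2) / √(a : ℝ)) ≤ 1 → 1 ≤ a →
      0 < Mq A pos q a b c ∧ |Mq A pos q (a + Z.s) b c / Mq A pos q a b c - 1| ≤
        C * (Real.log (((a + b + c : ℕ) : ℝ) + 2) / √(a : ℝ))) ∧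
    (C * (Real.log (((a + b + c : ℕ) : ℝ) + 2) / √(b : ℝ)) ≤ 1 →
      0 < Mq A pos q a b c ∧ |Mq A pos q a (b + Z.s) c / Mq A pos q a b c - 1| ≤
        C * (Real.log (((a + b + c : ℕ) : ℝ) + 2) / √(b : ℝ))) ∧
    (C * (Real.log (((a + b + c : ℕ) : ℝ) + 2) / √(c : ℝ)) ≤ 1 → 1 ≤ c →
      0 < Mq A pos q a b c ∧ |Mq A pos q a b (c + Z.s) / Mq A pos q a b c - 1| ≤
        C * (Real.log (((a + b + c : ℕ) : ℝ) + 2) / √(c : ℝ))) := by
  obtain ⟨C, hC, h⟩ := relV G H
  have h4 := log2_pos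
  obtain ⟨Q, hQ⟩ : ∃ Q, Q = 1 + q / Real.log 2 := ⟨_, rfl⟩
  have hQ0 : 0 < Q := by rw [hQ]; positivity
  have key : ∀ n j : ℕ, 1 ≤ n → 1 ≤ j →
      C * √((La n + Real.log (((n + Z.s : ℕ) : ℝ) ^ q)) / j) ≤
        C * √Q * (Real.log ((n : ℝ) + 2) / √(j : ℝ)) := by
    intro n j hn hj
    have hj0 : (0 : ℝ) < j := by exact_mod_cast hj
    rw [mul_assoc]
    refine mul_le_mul_of_nonneg_left ?_ hC.le
    have h2 : √Q * (Real.log ((n : ℝ) + 2) / √(j : ℝ)) = √(Q * La n / j) := by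
      rw [Real.sqrt_div' _ hj0.le, Real.sqrt_mul' _ (La_pos n).le]
      unfold La
      rw [Real.sqrt_sq (log2_pos.le.trans (log_ge n)), mul_div_assoc]
    rw [h2]
    apply Real.sqrt_le_sqrt
    refine div_le_div_of_nonneg_right ?_ hj0.le
    have := (log_pow_le hq hs2 hn).2
    rw [hQ, add_mul, one_mul]
    linarith
  have hVn : ∀ n : ℕ, 1 ≤ n → (1 : ℝ) ≤ ((n + Z.s : ℕ) : ℝ) ^ q := fun n hn =>
    Real.one_le_rpow (by exact_mod_cast (by omega : 1 ≤ n + Z.s)) hq
  refine ⟨C * √Q, by positivity, fun a b c hb => ⟨fun hx ha => ?_, fun hx => ?_,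
    fun hx hc => ?_⟩⟩
  · have hk := key (a + b + c) a (by omega) ha
    obtain ⟨h1, h2⟩ := h (a + b + c) 0 (b + c) a (by omega) ha _ (hVn (a + b + c) (by omega))
      (fun _ z => ‖pos (z ⟨b, by omega⟩) - pos (z ⟨0, by omega⟩)‖ ^ q) (by
        intro m hm ω hω
        unfold two
        exact ex_pow hP hq hω (by simp only; omega) (by simp only; omega) (by omega))
      (hk.trans hx)
    have e1 : mean A Set.univ (a + b + c) (two (a + b + c) 0 (b + c)
        (fun _ z => ‖pos (z ⟨b, by omega⟩) - pos (z ⟨0, by omega⟩)‖ ^ q)) = Mq A pos q a b c := by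
      unfold Mq two
      congr 1
      funext ω
      simp only
      rw [show a + b + c - (b + c) + b = a + b by omega, show a + b + c - (b + c) + 0 = a by omega]
    have e2 : mean A Set.univ (a + b + c + Z.s) (two (a + b + c + Z.s) 0 (b + c)
        (fun _ z => ‖pos (z ⟨b, by omega⟩) - pos (z ⟨0, by omega⟩)‖ ^ q)) =
        Mq A pos q (a + Z.s) b c := by
      have e : a + b + c + Z.s = a + Z.s + b + c := by ring
      unfold Mq two
      simp only
      rw [e]
      congr 1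
      funext ω
      rw [show a + Z.s + b + c - (b + c) + b = a + Z.s + b by omega,
        show a + Z.s + b + c - (b + c) + 0 = a + Z.s by omega]
    rw [e1] at h1
    rw [e1, e2] at h2
    exact ⟨h1, h2.trans hk⟩
  · have hk := key (a + b + c) b (by omega) hb
    obtain ⟨h1, h2⟩ := h (a + b + c) a c b (by omega) hb _ (hVn (a + b + c) (by omega))
      (fun x z => ‖pos (z ⟨0, by omega⟩) - pos (x ⟨a, by omega⟩)‖ ^ q) (by
        intro m hm ω hω
        unfold two
        exact ex_pow hP hq hω (by simp only; omega) (by simp only; omega) (by omega))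
      (hk.trans hx)
    have e1 : mean A Set.univ (a + b + c) (two (a + b + c) a c
        (fun x z => ‖pos (z ⟨0, by omega⟩) - pos (x ⟨a, by omega⟩)‖ ^ q)) = Mq A pos q a b c := by
      unfold Mq two
      congr 1
      funext ω
      simp only
      rw [show a + b + c - c + 0 = a + b by omega]
    have e2 : mean A Set.univ (a + b + c + Z.s) (two (a + b + c + Z.s) a c
        (fun x z => ‖pos (z ⟨0, by omega⟩) - pos (x ⟨a, by omega⟩)‖ ^ q)) =
        Mq A pos q a (b + Z.s) c := by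
      have e : a + b + c + Z.s = a + (b + Z.s) + c := by ring
      unfold Mq two
      simp only
      rw [e]
      congr 1
      funext ω
      rw [show a + (b + Z.s) + c - c + 0 = a + (b + Z.s) by omega]
    rw [e1] at h1
    rw [e1, e2] at h2
    exact ⟨h1, h2.trans hk⟩
  · have hk := key (a + b + c) c (by omega) hc
    obtain ⟨h1, h2⟩ := h (a + b + c) (a + b) 0 c (by omega) hc _ (hVn (a + b + c) (by omega))
      (fun x _ => ‖pos (x ⟨a + b, by omega⟩) - pos (x ⟨a, by omega⟩)‖ ^ q) (by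
        intro m hm ω hω
        unfold two
        exact ex_pow hP hq hω (by simp only; omega) (by simp only; omega) (by omega))
      (hk.trans hx)
    have e1 : mean A Set.univ (a + b + c) (two (a + b + c) (a + b) 0
        (fun x _ => ‖pos (x ⟨a + b, by omega⟩) - pos (x ⟨a, by omega⟩)‖ ^ q)) =
        Mq A pos q a b c := rfl
    have e2 : mean A Set.univ (a + b + c + Z.s) (two (a + b + c + Z.s) (a + b) 0
        (fun x _ => ‖pos (x ⟨a + b, by omega⟩) - pos (x ⟨a, by omega⟩)‖ ^ q)) =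
        Mq A pos q a b (c + Z.s) := by
      have e : a + b + c + Z.s = a + b + (c + Z.s) := by ring
      unfold Mq two
      simp only
      rw [e]
    rw [e1] at h1
    rw [e1, e2] at h2
    exact ⟨h1, h2.trans hk⟩

end

end Q68.PL
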