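import Pool.Agent.Q68.PL.Siz

set_option autoImplicit false

/-!
# Planar lattices: the size of the pieces, several steps
-/

namespace Q68.PL

open Finset Filter Topology TH966.KS TH966.KO TH966.AK Q294.Rs Q38.RL
open scoped Classical

variable {A : P → P → Prop} {Z : Rule A} {μ K : ℝ} {pos : P → ℂ}

noncomputable section

theorem abs_log_le {u : ℝ} (h : |u| ≤ 1 / 2) : |Real.log (1 + u)| ≤ 2 * |u| := by
  have h1 := (abs_le.1 h).1
  have h0 : 0 < 1 + u := by linarith
  rw [abs_le]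
  constructor
  · have h2 := Real.one_sub_inv_le_log_of_pos h0
    refine le_trans ?_ h2
    have h3 : 1 - (1 + u)⁻¹ = u / (1 + u) := by field_simp; ring
    rw [h3, le_div_iff₀ h0]
    have h4 := neg_abs_le u
    have h5 : 0 ≤ |u| := abs_nonneg u
    nlinarith
  · have h2 := Real.log_le_sub_one_of_pos h0
    have h3 := le_abs_self u
    have h5 : 0 ≤ |u| := abs_nonneg u
    linarith

theorem log_steps {m : ℕ → ℝ} {x : ℝ} (hx : x ≤ 1 / 2) (h0 : ∀ i, 0 < m i)
    (h : ∀ i, |m (i + 1) / m i - 1| ≤ x) (l : ℕ) : |Real.log (m l / m 0)| ≤ 2 * x * l := by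
  induction l with
  | zero => rw [div_self (h0 0).ne']; simp
  | succ l ih =>
    have h1 := h l
    have h2 : m (l + 1) / m 0 = (1 + (m (l + 1) / m l - 1)) * (m l / m 0) := by
      have := (h0 l).ne'
      have := (h0 0).ne'
      field_simp
      ring
    have h3 : 0 < 1 + (m (l + 1) / m l - 1) := by
      have := div_pos (h0 (l + 1)) (h0 l)
      linarith
    rw [h2, Real.log_mul h3.ne' (div_pos (h0 l) (h0 0)).ne']
    refine (abs_add_le _ _).trans ?_
    have h4 := abs_log_le (h1.trans hx)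
    push_cast
    linarith

/-- the logarithm divided by the square root -/
theorem gl_le : ∃ B : ℝ, 1 ≤ B ∧ ∀ n j i : ℕ, 1 ≤ j → j ≤ n →
    Real.log (((n + i : ℕ) : ℝ) + 2) / √((j + i : ℕ) : ℝ) ≤
      B * (Real.log ((n : ℝ) + 2) / √(j : ℝ)) := by
  obtain ⟨B, hB, h⟩ := La_add
  refine ⟨√B, Real.one_le_sqrt.2 hB, fun n j i hj hjn => ?_⟩
  have hj0 : (0 : ℝ) < j := by exact_mod_cast hj
  have hji : (0 : ℝ) < ((j + i : ℕ) : ℝ) := by exact_mod_cast (by omega : 0 < j + i)
  have h1 := h n j i hj hjn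
  have e : ∀ (m : ℕ) (t : ℝ), 0 < t → Real.log ((m : ℝ) + 2) / √t = √(La m / t) := by
    intro m t ht
    rw [Real.sqrt_div' _ ht.le]
    unfold La
    rw [Real.sqrt_sq (log2_pos.le.trans (log_ge m))]
  rw [e _ _ hji, e _ _ hj0, ← Real.sqrt_mul (by linarith)]
  apply Real.sqrt_le_sqrt
  rw [div_le_iff₀ hji]
  calc La (n + i) ≤ B * La n * (((j + i : ℕ) : ℝ) / j) := h1
    _ = _ := by ring

theorem size_mul (G : Growth Z μ K) (H : Hom A) (hs2 : Z.s ≤ 2) (hP : Place A pos) {q : ℝ}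
    (hq : 0 ≤ q) : ∃ C : ℝ, 0 < C ∧ ∀ a b c l : ℕ, 1 ≤ b →
    0 < Mq A pos q a b c ∧
    (C * (Real.log (((a + b + c : ℕ) : ℝ) + 2) / √(a : ℝ)) ≤ 1 → 1 ≤ a →
      |Real.log (Mq A pos q (a + Z.s * l) b c / Mq A pos q a b c)| ≤
        C * l * (Real.log (((a + b + c : ℕ) : ℝ) + 2) / √(a : ℝ))) ∧
    (C * (Real.log (((a + b + c : ℕ) : ℝ) + 2) / √(b : ℝ)) ≤ 1 →
      |Real.log (Mq A pos q a (b + Z.s * l) c / Mq A pos q a b c)| ≤
        C * l * (Real.log (((a + b + c : ℕ) : ℝ) + 2) / √(b : ℝ))) ∧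
    (C * (Real.log (((a + b + c : ℕ) : ℝ) + 2) / √(c : ℝ)) ≤ 1 → 1 ≤ c →
      |Real.log (Mq A pos q a b (c + Z.s * l) / Mq A pos q a b c)| ≤
        C * l * (Real.log (((a + b + c : ℕ) : ℝ) + 2) / √(c : ℝ))) := by
  obtain ⟨C, hC, h⟩ := size_one G H hs2 hP hq
  obtain ⟨B, hB, hg⟩ := gl_le
  have hpos : ∀ a b c : ℕ, 1 ≤ b → 0 < Mq A pos q a b c := by
    intro a b c hb
    unfold Mq mean
    refine div_pos ?_ (card_pos' G _)
    refine lt_of_lt_of_le (card_pos' G (a + b + c)) ?_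
    rw [← one_mul ((wD A Set.univ (a + b + c)).ncard : ℝ)]
    refine fs_ge Z _ _ _ _ fun ω hω => (ex_pow hP hq hω (by omega) (by omega) le_rfl).1
  -- the common argument
  have key : ∀ (m : ℕ → ℝ) (n j l : ℕ), 1 ≤ j → j ≤ n → (∀ i, 0 < m i) →
      (∀ i, C * (Real.log (((n + Z.s * i : ℕ) : ℝ) + 2) / √((j + Z.s * i : ℕ) : ℝ)) ≤ 1 →
        |m (i + 1) / m i - 1| ≤
          C * (Real.log (((n + Z.s * i : ℕ) : ℝ) + 2) / √((j + Z.s * i : ℕ) : ℝ))) →
      2 * C * B * (Real.log ((n : ℝ) + 2) / √(j : ℝ)) ≤ 1 →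
      |Real.log (m l / m 0)| ≤ 2 * C * B * l * (Real.log ((n : ℝ) + 2) / √(j : ℝ)) := by
    intro m n j l hj hjn hm hstep hx
    have h1 : ∀ i, C * (Real.log (((n + Z.s * i : ℕ) : ℝ) + 2) / √((j + Z.s * i : ℕ) : ℝ)) ≤
        C * B * (Real.log ((n : ℝ) + 2) / √(j : ℝ)) := by
      intro i
      rw [mul_assoc]
      exact mul_le_mul_of_nonneg_left (hg n j (Z.s * i) hj hjn) hC.le
    have h2 := log_steps (m := m) (x := C * B * (Real.log ((n : ℝ) + 2) / √(j : ℝ)))
      (by linarith) hm (fun i => (hstep i ((h1 i).trans (by linarith))).trans (h1 i)) l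
    refine h2.trans (le_of_eq ?_)
    ring
  refine ⟨2 * C * B, by positivity, fun a b c l hb => ⟨hpos a b c hb, fun hx ha => ?_,
    fun hx => ?_, fun hx hc => ?_⟩⟩
  · have := key (fun i => Mq A pos q (a + Z.s * i) b c) (a + b + c) a l ha (by omega)
      (fun i => hpos _ _ _ hb) (fun i hi => by
        have h1 := ((h (a + Z.s * i) b c hb).1 (by
          rw [show a + Z.s * i + b + c = a + b + c + Z.s * i by ring]; exact hi) (by omega)).2
        rw [show a + Z.s * i + b + c = a + b + c + Z.s * i by ring] at h1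
        rw [show a + Z.s * (i + 1) = a + Z.s * i + Z.s by ring]
        exact h1) hx
    simpa using this
  · have := key (fun i => Mq A pos q a (b + Z.s * i) c) (a + b + c) b l hb (by omega)
      (fun i => hpos _ _ _ (by omega)) (fun i hi => by
        have h1 := ((h a (b + Z.s * i) c (by omega)).2.1 (by
          rw [show a + (b + Z.s * i) + c = a + b + c + Z.s * i by ring]; exact hi)).2
        rw [show a + (b + Z.s * i) + c = a + b + c + Z.s * i by ring] at h1
        rw [show b + Z.s * (i + 1) = b + Z.s * i + Z.s by ring]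
        exact h1) hx
    simpa using this
  · have := key (fun i => Mq A pos q a b (c + Z.s * i)) (a + b + c) c l hc (by omega)
      (fun i => hpos _ _ _ hb) (fun i hi => by
        have h1 := ((h a b (c + Z.s * i) hb).2.2 (by
          rw [show a + b + (c + Z.s * i) = a + b + c + Z.s * i by ring]; exact hi) (by omega)).2
        rw [show a + b + (c + Z.s * i) = a + b + c + Z.s * i by ring] at h1
        rw [show c + Z.s * (i + 1) = c + Z.s * i + Z.s by ring]
        exact h1) hx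
    simpa using this

/-- all three pieces at once -/
theorem size_up (G : Growth Z μ K) (H : Hom A) (hs2 : Z.s ≤ 2) (hP : Place A pos) {q : ℝ}
    (hq : 0 ≤ q) : ∃ C : ℝ, 0 < C ∧ ∀ a b c i j k m N : ℕ, 1 ≤ m → m ≤ a → m ≤ b → m ≤ c →
    a + Z.s * i + (b + Z.s * j) + (c + Z.s * k) ≤ N →
    C * (Real.log ((N : ℝ) + 2) / √(m : ℝ)) ≤ 1 →
    0 < Mq A pos q a b c ∧
      |Real.log (Mq A pos q (a + Z.s * i) (b + Z.s * j) (c + Z.s * k) / Mq A pos q a b c)| ≤
        C * ((i : ℝ) + j + k) * (Real.log ((N : ℝ) + 2) / √(m : ℝ)) := by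
  obtain ⟨C, hC, h⟩ := size_mul G H hs2 hP hq
  refine ⟨C, hC, fun a b c i j k m N hm ha hb hc hN hx => ?_⟩
  have hm0 : (0 : ℝ) < m := by exact_mod_cast hm
  have key : ∀ n t : ℕ, n ≤ N → m ≤ t → Real.log ((n : ℝ) + 2) / √(t : ℝ) ≤
      Real.log ((N : ℝ) + 2) / √(m : ℝ) := by
    intro n t hn ht
    refine div_le_div₀ (log2_pos.le.trans (log_ge N)) ?_ (Real.sqrt_pos.2 hm0) ?_
    · apply Real.log_le_log (by positivity)
      have : (n : ℝ) ≤ N := by exact_mod_cast hn
      linarith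
    · exact Real.sqrt_le_sqrt (by exact_mod_cast ht)
  obtain ⟨p1, h1, -, -⟩ := h a b c i (by omega)
  obtain ⟨p2, -, h2, -⟩ := h (a + Z.s * i) b c j (by omega)
  obtain ⟨p3, -, -, h3⟩ := h (a + Z.s * i) (b + Z.s * j) c k (by omega)
  have p4 := (h (a + Z.s * i) (b + Z.s * j) (c + Z.s * k) 0 (by omega)).1
  have k1 := key (a + b + c) a (by omega) ha
  have k2 := key (a + Z.s * i + b + c) b (by omega) hb
  have k3 := key (a + Z.s * i + (b + Z.s * j) + c) c (by omega) hc
  have g1 := h1 ((mul_le_mul_of_nonneg_left k1 hC.le).trans hx) (by omega)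
  have g2 := h2 ((mul_le_mul_of_nonneg_left k2 hC.le).trans hx)
  have g3 := h3 ((mul_le_mul_of_nonneg_left k3 hC.le).trans hx) (by omega)
  have f1 := g1.trans (mul_le_mul_of_nonneg_left k1 (by positivity))
  have f2 := g2.trans (mul_le_mul_of_nonneg_left k2 (by positivity))
  have f3 := g3.trans (mul_le_mul_of_nonneg_left k3 (by positivity))
  refine ⟨p1, ?_⟩
  rw [Real.log_div p2.ne' p1.ne'] at f1
  rw [Real.log_div p3.ne' p2.ne'] at f2
  rw [Real.log_div p4.ne' p3.ne'] at f3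
  rw [Real.log_div p4.ne' p1.ne']
  rw [abs_le] at f1 f2 f3 ⊢
  constructor <;> linarith

/-- comparison of two triples -/
theorem size_cmp (G : Growth Z μ K) (H : Hom A) (hs2 : Z.s ≤ 2) (hP : Place A pos) {q : ℝ}
    (hq : 0 ≤ q) : ∃ C : ℝ, 0 < C ∧ ∀ a b c a' b' c' m N : ℕ, 1 ≤ m →
    m ≤ a → m ≤ b → m ≤ c → m ≤ a' → m ≤ b' → m ≤ c' →
    (Z.s : ℤ) ∣ (a : ℤ) - a' → (Z.s : ℤ) ∣ (b : ℤ) - b' → (Z.s : ℤ) ∣ (c : ℤ) - c' →
    max a a' + max b b' + max c c' ≤ N →
    C * (Real.log ((N : ℝ) + 2) / √(m : ℝ)) ≤ 1 →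
    |Real.log (Mq A pos q a' b' c' / Mq A pos q a b c)| ≤
        C * (|(a : ℝ) - a'| + |(b : ℝ) - b'| + |(c : ℝ) - c'|) *
          (Real.log ((N : ℝ) + 2) / √(m : ℝ)) := by
  obtain ⟨C, hC, h⟩ := size_up G H hs2 hP hq
  have hs1 := G.hs
  have hsR : (1 : ℝ) ≤ Z.s := by exact_mod_cast hs1
  refine ⟨C, hC, fun a b c a' b' c' m N hm ha hb hc ha' hb' hc' da db dc hN hx => ?_⟩
  -- the differences
  have key : ∀ x y : ℕ, (Z.s : ℤ) ∣ (x : ℤ) - y → ∃ i j : ℕ, x + Z.s * i = max x y ∧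
      y + Z.s * j = max x y ∧ (i : ℝ) + j ≤ |(x : ℝ) - y| := by
    intro x y ⟨d, hd⟩
    rcases le_total x y with hxy | hxy
    · refine ⟨(-d).toNat, 0, ?_, ?_, ?_⟩
      · have h1 : 0 ≤ -d := by
          by_contra hc
          have h2 : 1 ≤ d := by omega
          have h3 : (0 : ℤ) < Z.s * d := by positivity
          omega
        have h4 : ((-d).toNat : ℤ) = -d := Int.toNat_of_nonneg h1
        have h5 : ((x + Z.s * (-d).toNat : ℕ) : ℤ) = (max x y : ℕ) := by
          push_cast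
          rw [h4, max_eq_right (by exact_mod_cast hxy)]
          linarith
        exact_mod_cast h5
      · rw [max_eq_right hxy]; simp
      · have h1 : 0 ≤ -d := by
          by_contra hc
          have h2 : 1 ≤ d := by omega
          have h3 : (0 : ℤ) < Z.s * d := by positivity
          omega
        have h4 : ((-d).toNat : ℤ) = -d := Int.toNat_of_nonneg h1
        have h5 : ((-d).toNat : ℝ) = -(d : ℝ) := by
          rw [← Int.cast_natCast, h4, Int.cast_neg]
        have h6 : (x : ℝ) - y = Z.s * d := by exact_mod_cast hd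
        rw [h5, h6, Nat.cast_zero, add_zero, abs_mul, abs_of_pos (by linarith : (0 : ℝ) < Z.s)]
        have h7 : -(d : ℝ) ≤ |(d : ℝ)| := neg_le_abs _
        nlinarith [abs_nonneg (d : ℝ)]
    · refine ⟨0, d.toNat, ?_, ?_, ?_⟩
      · rw [max_eq_left hxy]; simp
      · have h1 : 0 ≤ d := by
          by_contra hc
          have h2 : 1 ≤ -d := by omega
          have h3 : (0 : ℤ) < Z.s * (-d) := by positivity
          rw [mul_neg] at h3
          omega
        have h4 : (d.toNat : ℤ) = d := Int.toNat_of_nonneg h1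
        have h5 : ((y + Z.s * d.toNat : ℕ) : ℤ) = (max x y : ℕ) := by
          push_cast
          rw [h4, max_eq_left (by exact_mod_cast hxy)]
          linarith
        exact_mod_cast h5
      · have h1 : 0 ≤ d := by
          by_contra hc
          have h2 : 1 ≤ -d := by omega
          have h3 : (0 : ℤ) < Z.s * (-d) := by positivity
          rw [mul_neg] at h3
          omega
        have h4 : (d.toNat : ℤ) = d := Int.toNat_of_nonneg h1
        have h5 : (d.toNat : ℝ) = (d : ℝ) := by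
          rw [← Int.cast_natCast, h4]
        have h6 : (x : ℝ) - y = Z.s * d := by exact_mod_cast hd
        rw [h5, h6, Nat.cast_zero, zero_add, abs_mul, abs_of_pos (by linarith : (0 : ℝ) < Z.s)]
        have h7 : (d : ℝ) ≤ |(d : ℝ)| := le_abs_self _
        nlinarith [abs_nonneg (d : ℝ)]
  obtain ⟨i, i', ei, ei', hi⟩ := key a a' da
  obtain ⟨j, j', ej, ej', hj⟩ := key b b' db
  obtain ⟨k, k', ek, ek', hk⟩ := key c c' dc
  obtain ⟨p1, h1⟩ := h a b c i j k m N hm ha hb hc (by rw [ei, ej, ek]; exact hN) hx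
  obtain ⟨p2, h2⟩ := h a' b' c' i' j' k' m N hm ha' hb' hc' (by rw [ei', ej', ek']; exact hN) hx
  obtain ⟨p3, -⟩ := h (max a a') (max b b') (max c c') 0 0 0 m N hm (ha.trans (le_max_left _ _))
    (hb.trans (le_max_left _ _)) (hc.trans (le_max_left _ _)) (by simpa using hN) hx
  rw [ei, ej, ek, Real.log_div p3.ne' p1.ne'] at h1
  rw [ei', ej', ek', Real.log_div p3.ne' p2.ne'] at h2
  rw [Real.log_div p2.ne' p1.ne']
  have hg : 0 ≤ C * (Real.log ((N : ℝ) + 2) / √(m : ℝ)) :=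
    mul_nonneg hC.le (div_nonneg (log2_pos.le.trans (log_ge N)) (Real.sqrt_nonneg _))
  have h3 : (((i : ℝ) + j + k) + ((i' : ℝ) + j' + k')) *
      (C * (Real.log ((N : ℝ) + 2) / √(m : ℝ))) ≤
      (|(a : ℝ) - a'| + |(b : ℝ) - b'| + |(c : ℝ) - c'|) *
      (C * (Real.log ((N : ℝ) + 2) / √(m : ℝ))) :=
    mul_le_mul_of_nonneg_right (by linarith) hg
  rw [abs_le] at h1 h2 ⊢
  constructor <;> linarith

end

end Q68.PL
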